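import Pool.Agent.Lib.MP_859dd5_ag.EQ.MulA
import Pool.Agent.Lib.MP_859dd5_ag.Compare
import Pool.Agent.Lib.MP_859dd5_ag.SwapA

/-!
# Automorphisms acting on independent points by signed permutations and translations
-/

namespace UnrA

universe u v w z

open Polynomial WeierstrassCurve
open scoped Classical
open UnrH3 (GoodW Pt FF ptX ptY ptMap Gen InCl liftPt base gpt
  gen_gpt range_in_cl subset_cl cl_le cl_mono cl liftPt_gpt liftPt_base ptMap_comp IndFam)
open UnrH3.Ell (EllW ptY_neg)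

section gen

variable {S : Type v} [Field S] {W : WeierstrassCurve S} [hE : EllW W]
  {K Ω : Type u} [Field K] [Algebra S K] [Field Ω] [Algebra S Ω]

lemma gen_nsmul_add {i : K →ₐ[S] Ω} {P : Pt W Ω} (hP : Gen i P) {N : ℕ} (hN : N ≠ 0)
    (b : Pt W K) : Gen i (N • P + ptMap i b) := by
  have hgen := gen_add_base (gen_nsmul (W := W) (K := K) hN) b
  have h1 := (UnrH3.Gen_map_iff (base W K) (liftPt i P hP) _).mpr hgen
  rw [liftPt_base, map_add, map_nsmul, liftPt_gpt, ← ptMap_comp, liftPt_base] at h1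
  exact h1

end gen

variable {κ : Type u} {M : Type u} [Field κ] [Field M] [Algebra κ M] {l n : ℕ}

/-- The point of the curve with the given coordinates (zero if they are not the coordinates of a
point). -/
noncomputable def pt (W : WeierstrassCurve κ) (x y : M) : (W⁄M).toAffine.Point :=
  if h : (W⁄M).toAffine.Nonsingular x y then .some x y h else 0

lemma pt_some {W : WeierstrassCurve κ} {x y : M} (h : (W⁄M).toAffine.Nonsingular x y) :
    pt W x y = .some x y h := dif_pos h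

/-- The automorphism `h` preserves `K` and acts on the points `(x i, y i)` by the signed
permutation `(ρ, ε)` followed by translations by points over `K`. -/
structure IsAff (E : Fin l → WeierstrassCurve κ) (K : IntermediateField κ M) (e : Fin n → Fin l)
    (x y : Fin n → M) (ρ : Equiv.Perm (Fin n)) (ε : Fin n → ℤˣ) (h : M ≃ₐ[κ] M) : Prop where
  memK : ∀ z ∈ K, h z ∈ K
  col : ∀ i, e (ρ i) = e i
  act : ∀ i, ∃ b : ((E (e i))⁄K).toAffine.Point,
    Affine.Point.map (h : M →ₐ[κ] M) (pt (E (e i)) (x i) (y i)) =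
      (ε i : ℤ) • pt (E (e i)) (x (ρ i)) (y (ρ i)) + Affine.Point.map K.val b

variable {E : Fin l → WeierstrassCurve κ} [hEll : ∀ c, EllW (E c)] {K : IntermediateField κ M}
  {e : Fin n → Fin l} {x y : Fin n → M}

lemma ptX_units_smul {W : WeierstrassCurve κ} [EllW W] (s : ℤˣ) (P : Pt W M) :
    ptX ((s : ℤ) • P) = ptX P := by
  rcases Int.units_eq_one_or s with rfl | rfl
  · rw [Units.val_one, one_smul]
  · rw [Units.val_neg, Units.val_one, neg_one_smul, UnrH3.ptX_neg']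

lemma ptY_units_smul {W : WeierstrassCurve κ} [EllW W] (s : ℤˣ) (P : Pt W M) :
    ptY ((s : ℤ) • P) = (s : ℤ) * ptY P := by
  rcases Int.units_eq_one_or s with rfl | rfl
  · rw [Units.val_one, one_smul]; simp
  · rw [Units.val_neg, Units.val_one, neg_one_smul, ptY_neg]; simp

omit hEll in
lemma IsAff.comp {ρ ρ' : Equiv.Perm (Fin n)} {ε ε' : Fin n → ℤˣ} {h h' : M ≃ₐ[κ] M}
    (hA : IsAff E K e x y ρ ε h) (hA' : IsAff E K e x y ρ' ε' h') :
    IsAff E K e x y (ρ * ρ') (fun i => ε' i * ε (ρ' i)) (h * h') where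
  memK z hz := hA.memK _ (hA'.memK z hz)
  col i := (hA.col (ρ' i)).trans (hA'.col i)
  act i := by
    obtain ⟨b', hb'⟩ := hA'.act i
    have h1 := hA.act (ρ' i)
    rw [hA'.col i] at h1
    obtain ⟨b, hb⟩ := h1
    obtain ⟨hK, hK'⟩ : ∃ hK : K →ₐ[κ] K, (K.val).comp hK = (h : M →ₐ[κ] M).comp K.val :=
      ⟨((h : M →ₐ[κ] M).comp K.val).codRestrict K.toSubalgebra (fun z => hA.memK _ z.2), by
        ext z; rfl⟩
    refine ⟨(ε' i : ℤ) • b + Affine.Point.map hK b', ?_⟩
    have h2 : Affine.Point.map ((h * h' : M ≃ₐ[κ] M) : M →ₐ[κ] M)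
        (pt (E (e i)) (x i) (y i)) = Affine.Point.map (h : M →ₐ[κ] M)
        (Affine.Point.map (h' : M →ₐ[κ] M) (pt (E (e i)) (x i) (y i))) := by
      rw [Affine.Point.map_map]
      rfl
    have h3 : Affine.Point.map (h : M →ₐ[κ] M) (Affine.Point.map K.val b') =
        Affine.Point.map K.val (Affine.Point.map hK b') := by
      rw [Affine.Point.map_map, Affine.Point.map_map, hK']
    rw [h2, hb', map_add, map_zsmul, hb, h3, map_add, map_zsmul, smul_add, smul_smul]
    push_cast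
    rw [add_assoc]
    rfl

variable (hns : ∀ i, ((E (e i))⁄M).toAffine.Nonsingular (x i) (y i))
  (hind : IndFam (K : IntermediateField κ M).toSubfield x)

lemma range_val : Set.range (K.val : K →ₐ[κ] M) = (K.toSubfield : Set M) := by
  ext z
  constructor
  · rintro ⟨w, rfl⟩; exact w.2
  · intro hz; exact ⟨⟨z, hz⟩, rfl⟩

include hns hind

omit hEll in
lemma gen_pt (i : Fin n) : Gen (K.val : K →ₐ[κ] M) (pt (E (e i)) (x i) (y i)) := by
  rw [pt_some (hns i)]
  intro h
  apply hind i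
  change x i ∈ cl _ at h
  rw [range_val] at h
  exact cl_mono Set.subset_union_left h

lemma IsAff.unique {ρ ρ' : Equiv.Perm (Fin n)} {ε ε' : Fin n → ℤˣ} {h : M ≃ₐ[κ] M}
    (hA : IsAff E K e x y ρ ε h) (hA' : IsAff E K e x y ρ' ε' h) : ρ = ρ' ∧ ε = ε' := by
  have hin : ∀ (c : Fin l) (b : Pt (E c) K), InCl (Set.range (K.val : K →ₐ[κ] M))
      (ptMap K.val b) := by
    intro c b
    change ptX (ptMap K.val b) ∈ cl _
    rw [UnrH3.ptX_map]
    exact subset_cl _ ⟨_, rfl⟩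
  have key : ∀ i, ρ i = ρ' i ∧ ε i = ε' i := by
    intro i
    obtain ⟨b, hb⟩ := hA.act i
    obtain ⟨b', hb'⟩ := hA'.act i
    rw [hb] at hb'
    have hns1 := hns (ρ i)
    rw [hA.col] at hns1
    have hns2 := hns (ρ' i)
    rw [hA'.col] at hns2
    have hS : ∀ (T : Set M), Set.range (K.val : K →ₐ[κ] M) ⊆ T → ∀ s : κ,
        algebraMap κ M s ∈ cl T := fun T hT s =>
      cl_mono hT (range_in_cl (K.val : K →ₐ[κ] M) s)
    have e1 : ρ i = ρ' i := by
      by_contra hne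
      apply hind (ρ i)
      obtain ⟨T, hT⟩ : ∃ T, T = insert (x (ρ' i)) (Set.range (K.val : K →ₐ[κ] M)) := ⟨_, rfl⟩
      have hTK : Set.range (K.val : K →ₐ[κ] M) ⊆ T := by rw [hT]; exact Set.subset_insert _ _
      have h1 : InCl T (pt (E (e i)) (x (ρ' i)) (y (ρ' i))) := by
        rw [pt_some hns2, hT]
        exact subset_cl _ (Or.inl rfl)
      have h2 : InCl T ((ε' i : ℤ) • pt (E (e i)) (x (ρ' i)) (y (ρ' i)) +
          ptMap K.val b' - ptMap K.val b) := by
        refine ((InCl.add (hS T hTK) ?_ ((hin _ b').mono (cl_mono hTK))).sub (hS T hTK)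
          ((hin _ b).mono (cl_mono hTK)))
        change ptX _ ∈ cl T
        rw [ptX_units_smul]
        exact h1
      have h3 : (ε i : ℤ) • pt (E (e i)) (x (ρ i)) (y (ρ i)) =
          (ε' i : ℤ) • pt (E (e i)) (x (ρ' i)) (y (ρ' i)) +
          ptMap K.val b' - ptMap K.val b := by
        rw [eq_sub_iff_add_eq]
        exact hb'
      rw [← h3] at h2
      have h4 : x (ρ i) ∈ cl T := by
        change ptX _ ∈ cl T at h2
        rw [ptX_units_smul, pt_some hns1] at h2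
        exact h2
      refine cl_mono ?_ h4
      rw [hT, range_val]
      rintro z (rfl | hz)
      · exact Or.inr ⟨ρ' i, fun h => hne h.symm, rfl⟩
      · exact Or.inl hz
    refine ⟨e1, ?_⟩
    by_contra hne
    have h2 : ε i = -ε' i := by
      rcases Int.units_eq_one_or (ε i) with h | h <;>
        rcases Int.units_eq_one_or (ε' i) with h' | h' <;> simp_all
    rw [← e1] at hb'
    have hg := gen_pt hns hind (ρ i)
    rw [hA.col] at hg
    have h3 := gen_nsmul_add hg (N := 2) two_ne_zero 0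
    rw [map_zero, add_zero] at h3
    apply h3
    have h4 : 2 • pt (E (e i)) (x (ρ i)) (y (ρ i)) =
        (ε i : ℤ) • (ptMap K.val b' - ptMap K.val b) := by
      have h5 : (ε i : ℤ) • pt (E (e i)) (x (ρ i)) (y (ρ i)) -
          (ε' i : ℤ) • pt (E (e i)) (x (ρ i)) (y (ρ i)) = ptMap K.val b' - ptMap K.val b := by
        rw [sub_eq_sub_iff_add_eq_add, add_comm (ptMap K.val b')]
        exact hb'
      rw [← h5, smul_sub, smul_smul, smul_smul, h2]
      rcases Int.units_eq_one_or (ε' i) with h | h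
      · rw [h]
        simp only [Units.val_neg, Units.val_one]
        module
      · rw [h]
        simp only [Units.val_neg, Units.val_one]
        module
    rw [h4]
    change ptX _ ∈ cl _
    rw [ptX_units_smul]
    exact (hin _ b').sub (range_in_cl _) (hin _ b)
  exact ⟨Equiv.ext fun i => (key i).1, funext fun i => (key i).2⟩

section group

variable (G : Subgroup (M ≃ₐ[κ] M)) [Finite G] (ρ : G → Equiv.Perm (Fin n))
  (ε : G → Fin n → ℤˣ) (hG : ∀ g : G, IsAff E K e x y (ρ g) (ε g) (g : M ≃ₐ[κ] M))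

/-- The new points. -/
noncomputable def newPt (E : Fin l → WeierstrassCurve κ) (x y : Fin n → M)
    (G : Subgroup (M ≃ₐ[κ] M)) [Finite G] (ρ : G → Equiv.Perm (Fin n))
    (ε : G → Fin n → ℤˣ) (c : Fin l) (i : Fin n) : ((E c)⁄M).toAffine.Point :=
  letI := Fintype.ofFinite G
  ∑ g : G, (ε g ((ρ g)⁻¹ i) : ℤ) • Affine.Point.map ((g : M ≃ₐ[κ] M) : M →ₐ[κ] M)
    (pt (E c) (x ((ρ g)⁻¹ i)) (y ((ρ g)⁻¹ i)))

omit hEll hns hind in
include hG in
lemma newPt_eq (i : Fin n) : ∃ b : ((E (e i))⁄K).toAffine.Point,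
    newPt E x y G ρ ε (e i) i = Nat.card G • pt (E (e i)) (x i) (y i) +
      Affine.Point.map K.val b := by
  let _ := Fintype.ofFinite G
  have h1 : ∀ g : G, ∃ b : ((E (e i))⁄K).toAffine.Point,
      (ε g ((ρ g)⁻¹ i) : ℤ) • Affine.Point.map ((g : M ≃ₐ[κ] M) : M →ₐ[κ] M)
        (pt (E (e i)) (x ((ρ g)⁻¹ i)) (y ((ρ g)⁻¹ i))) =
      pt (E (e i)) (x i) (y i) + Affine.Point.map K.val b := by
    intro g
    have h2 := (hG g).act ((ρ g)⁻¹ i)
    have h3 : ρ g ((ρ g)⁻¹ i) = i := (ρ g).apply_symm_apply i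
    have h4 : e ((ρ g)⁻¹ i) = e i := by
      rw [← (hG g).col ((ρ g)⁻¹ i), h3]
    rw [h4, h3] at h2
    obtain ⟨b, hb⟩ := h2
    refine ⟨(ε g ((ρ g)⁻¹ i) : ℤ) • b, ?_⟩
    rw [hb, smul_add, smul_smul, map_zsmul, ← Units.val_mul, Int.units_mul_self, Units.val_one,
      one_smul]
  choose b hb using h1
  refine ⟨∑ g : G, b g, ?_⟩
  unfold newPt
  rw [Finset.sum_congr rfl fun g _ => hb g, Finset.sum_add_distrib, Finset.sum_const,
    Finset.card_univ, map_sum, Nat.card_eq_fintype_card]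

include hG in
lemma newPt_map (g : G) (i : Fin n) :
    Affine.Point.map ((g : M ≃ₐ[κ] M) : M →ₐ[κ] M) (newPt E x y G ρ ε (e i) i) =
      (ε g i : ℤ) • newPt E x y G ρ ε (e i) (ρ g i) := by
  let _ := Fintype.ofFinite G
  have hu : ∀ h : G, ρ (g * h) = ρ g * ρ h ∧ ε (g * h) = fun i => ε h i * ε g (ρ h i) := by
    intro h
    exact IsAff.unique hns hind (hG (g * h)) ((hG g).comp (hG h))
  unfold newPt
  rw [map_sum, Finset.smul_sum]
  refine Fintype.sum_equiv (Equiv.mulLeft g) _ _ fun h => ?_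
  rw [Equiv.coe_mulLeft, map_zsmul, (hu h).1, (hu h).2, smul_smul]
  have h1 : (ρ g * ρ h)⁻¹ (ρ g i) = (ρ h)⁻¹ i := by
    rw [mul_inv_rev, Equiv.Perm.mul_apply]
    congr 1
    exact (ρ g).symm_apply_apply i
  have h2 : ρ h ((ρ h)⁻¹ i) = i := (ρ h).apply_symm_apply i
  rw [h1]
  change _ = ((ε g i : ℤ) * ((ε h ((ρ h)⁻¹ i) * ε g (ρ h ((ρ h)⁻¹ i)) : ℤˣ) : ℤ)) •
    Affine.Point.map (((g * h : G) : M ≃ₐ[κ] M) : M →ₐ[κ] M)
      (pt (E (e i)) (x ((ρ h)⁻¹ i)) (y ((ρ h)⁻¹ i)))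
  rw [h2]
  have h3 : Affine.Point.map (((g * h : G) : M ≃ₐ[κ] M) : M →ₐ[κ] M)
      (pt (E (e i)) (x ((ρ h)⁻¹ i)) (y ((ρ h)⁻¹ i))) =
      Affine.Point.map ((g : M ≃ₐ[κ] M) : M →ₐ[κ] M) (Affine.Point.map
        ((h : M ≃ₐ[κ] M) : M →ₐ[κ] M) (pt (E (e i)) (x ((ρ h)⁻¹ i)) (y ((ρ h)⁻¹ i)))) := by
    rw [Affine.Point.map_map]
    rfl
  rw [h3]
  congr 1
  push_cast
  rw [mul_comm ((ε h ((ρ h)⁻¹ i) : ℤ)), ← mul_assoc, ← Units.val_mul, Int.units_mul_self,
    Units.val_one, one_mul]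

end group

end UnrA
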