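import Pool.Agent.Lib.MP_859dd5_ag.EQ.Tor

/-!
# Functors of fields with unramified classes
-/

namespace UnrA

universe u v w z

/-- Abelian groups attached to fields, with subgroups of unramified classes and maps attached to
homomorphisms of fields. -/
structure FieldGroups where
  /-- the group of a field -/
  obj : (K : Type u) → [Field K] → Type z
  [grp : ∀ (K : Type u) [Field K], AddCommGroup (obj K)]
  /-- the unramified classes -/
  nr : ∀ (K : Type u) [Field K], AddSubgroup (obj K)
  /-- functoriality -/
  map : ∀ {K L : Type u} [Field K] [Field L], (K →+* L) → obj K →+ obj L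

attribute [instance] FieldGroups.grp

/-- The groups form a functor. -/
def FieldGroups.IsFunctor (A : FieldGroups.{u, z}) : Prop :=
  (∀ {K : Type u} [Field K] (x : A.obj K), A.map (RingHom.id K) x = x) ∧
  ∀ {K L E : Type u} [Field K] [Field L] [Field E] (f : K →+* L) (g : L →+* E)
    (x : A.obj K), A.map (g.comp f) x = A.map g (A.map f x)

/-- Unramified classes remain unramified in extensions. -/
def FieldGroups.MapsUnramified (A : FieldGroups.{u, z}) : Prop :=
  ∀ {K L : Type u} [Field K] [Field L] (f : K →+* L), ∀ x ∈ A.nr K, A.map f x ∈ A.nr L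

/-- The group of `K` injects in the group of `K(t)`. -/
def FieldGroups.RatInjective (A : FieldGroups.{u, z}) : Prop :=
  ∀ (K : Type u) [Field K] (x : A.obj K), A.map (algebraMap K (RatFunc K)) x = 0 → x = 0

/-- The unramified classes of `K(t)` come from unramified classes of `K`. -/
def FieldGroups.RatUnramified (A : FieldGroups.{u, z}) : Prop :=
  ∀ (K : Type u) [Field K], ∀ x ∈ A.nr (RatFunc K),
    ∃ y ∈ A.nr K, A.map (algebraMap K (RatFunc K)) y = x

/-- The kernel of the map attached to a finite extension is killed by its degree. -/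
def FieldGroups.FiniteKernel (A : FieldGroups.{u, z}) : Prop :=
  ∀ (K L : Type u) [Field K] [Field L] [Algebra K L] [FiniteDimensional K L]
    (x : A.obj K), A.map (algebraMap K L) x = 0 → Module.finrank K L • x = 0

/-- A class which is unramified in a Galois extension becomes unramified when multiplied by the
degree. -/
def FieldGroups.GaloisUnramified (A : FieldGroups.{u, z}) : Prop :=
  ∀ (K L : Type u) [Field K] [Field L] [Algebra K L] [FiniteDimensional K L]
    [IsGalois K L] (x : A.obj K), A.map (algebraMap K L) x ∈ A.nr L →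
      Module.finrank K L • x ∈ A.nr K

/-- The sum of the conjugates of a class comes from the ground field. -/
def FieldGroups.GaloisTrace (A : FieldGroups.{u, z}) : Prop :=
  ∀ (K L : Type u) [Field K] [Field L] [Algebra K L] [FiniteDimensional K L]
    [IsGalois K L] (x : A.obj L), ∃ y : A.obj K,
      A.map (algebraMap K L) y = ∑ σ : L ≃ₐ[K] L, A.map (σ : L →+* L) x

/-- A functor from fields to abelian groups with subgroups of unramified classes. -/
structure UFun extends FieldGroups.{u, z} where
  isFunctor : toFieldGroups.IsFunctor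
  mapsUnramified : toFieldGroups.MapsUnramified
  ratInjective : toFieldGroups.RatInjective
  ratUnramified : toFieldGroups.RatUnramified
  finiteKernel : toFieldGroups.FiniteKernel
  galoisUnramified : toFieldGroups.GaloisUnramified
  galoisTrace : toFieldGroups.GaloisTrace

/-- The zero functor. -/
def UFun.triv : UFun.{u, z} where
  obj _ _ := PUnit
  map _ := 0
  nr _ _ := ⊤
  isFunctor := ⟨fun _ => rfl, fun _ _ _ => rfl⟩
  mapsUnramified _ _ _ := trivial
  ratInjective _ _ _ _ := rfl
  ratUnramified _ _ _ _ := ⟨PUnit.unit, trivial, rfl⟩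
  finiteKernel _ _ _ _ _ _ _ _ := rfl
  galoisUnramified _ _ _ _ _ _ _ _ _ := trivial
  galoisTrace _ _ _ _ _ _ _ _ := ⟨PUnit.unit, rfl⟩

/-- The group of the field `K`. -/
abbrev KM (m : UFun.{u, z}) (K : Type u) [Field K] : Type z := m.obj K

/-- Functoriality. -/
def KM.map (m : UFun.{u, z}) {K L : Type u} [Field K] [Field L] (f : K →+* L) :
    KM m K →+ KM m L := m.map f

/-- The class `x` is unramified. -/
def Unr {m : UFun.{u, z}} {K : Type u} [Field K] (x : KM m K) : Prop := x ∈ m.nr K

variable {m : UFun.{u, z}} {K L E : Type u} [Field K] [Field L] [Field E]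

lemma KM.map_map (f : K →+* L) (g : L →+* E) (x : KM m K) :
    KM.map m g (KM.map m f x) = KM.map m (g.comp f) x := (m.isFunctor.2 f g x).symm

lemma KM.map_id : KM.map m (RingHom.id K) = AddMonoidHom.id (KM m K) :=
  AddMonoidHom.ext fun x => m.isFunctor.1 x

lemma Unr.zero : Unr (0 : KM m K) := zero_mem (m.nr K)

lemma Unr.add {x y : KM m K} (hx : Unr x) (hy : Unr y) : Unr (x + y) := add_mem hx hy

lemma Unr.neg {x : KM m K} (hx : Unr x) : Unr (-x) := neg_mem hx

lemma Unr.sub {x y : KM m K} (hx : Unr x) (hy : Unr y) : Unr (x - y) := sub_mem hx hy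

lemma Unr.nsmul {x : KM m K} (hx : Unr x) (N : ℕ) : Unr (N • x) := nsmul_mem hx N

lemma Unr.zsmul {x : KM m K} (hx : Unr x) (N : ℤ) : Unr (N • x) := zsmul_mem hx N

lemma Unr.sum {ι : Type*} {s : Finset ι} {f : ι → KM m K} (h : ∀ i ∈ s, Unr (f i)) :
    Unr (∑ i ∈ s, f i) := sum_mem h

lemma Unr.map (f : K →+* L) {x : KM m K} (hx : Unr x) : Unr (KM.map m f x) :=
  m.mapsUnramified f x hx

lemma unr_ratFunc {x : KM m (RatFunc K)} (hx : Unr x) :
    ∃ y : KM m K, Unr y ∧ KM.map m (algebraMap K (RatFunc K)) y = x := by
  obtain ⟨y, hy, hyx⟩ := m.ratUnramified K x hx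
  exact ⟨y, hy, hyx⟩

lemma map_ratFunc_injective : Function.Injective (KM.map m (algebraMap K (RatFunc K))) :=
  (injective_iff_map_eq_zero _).mpr (m.ratInjective K)

lemma exists_trace [Algebra K L] [FiniteDimensional K L] [IsGalois K L] (x : KM m L) :
    ∃ y : KM m K, KM.map m (algebraMap K L) y =
      ∑ σ : L ≃ₐ[K] L, KM.map m (σ : L →+* L) x := m.galoisTrace K L x

lemma unr_smul_of_map [Algebra K L] [FiniteDimensional K L] [IsGalois K L] {x : KM m K}
    (hx : Unr (KM.map m (algebraMap K L) x)) : Unr (Module.finrank K L • x) :=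
  m.galoisUnramified K L x hx

lemma finrank_smul_eq_zero (N : ℕ) [Algebra K L] [FiniteDimensional K L]
    (hN : Module.finrank K L = N) {x : KM m K} (hx : KM.map m (algebraMap K L) x = 0) :
    N • x = 0 := by
  subst hN
  exact m.finiteKernel K L x hx

/-- The functor `m` has weight `d` over the field `κ` with `q` elements: for each extension `K`
of `κ`, the endomorphism `x ↦ x ^ q` of `K` acts as `q ^ d`. -/
def UFun.HasWeight (m : UFun.{u, z}) (κ : Type w) [Field κ] (q d : ℕ) : Prop :=
  ∀ (K : Type u) [Field K] (_ : κ →+* K) (f : K →+* K), (∀ x, f x = x ^ q) →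
    ∀ x : m.obj K, m.map f x = q ^ d • x

end UnrA
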