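import Pool.Agent.Lib.MP_859dd5_ag.Mg.G066

/-!
# Multiplication by integers and translations on unramified classes
-/

namespace UnrA

universe u v w z

open Polynomial WeierstrassCurve
open scoped Classical
open UnrH3 (GoodW Pt FF ptX ptY ptMap Gen InCl liftPt base gpt nu NatEnd
  gen_gpt range_in_cl subset_cl cl_le cl_mono cl InCl_self
  InCl_add_iff_right Gen_map_iff liftPt_gpt liftPt_base ptMap_comp nu_base)
open UnrH3.Ell (EllW antiG gpt_mem_antiG ht ht_gpt ht_zero ht_parallelogram gen_of_ht natE mem_natE)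

variable {m : UFun.{u, z}} {S : Type v} [Field S] {W : WeierstrassCurve S} [hE : EllW W]
  {K : Type u} [Field K] [Algebra S K]

lemma ht_nsmul (N : ℕ) : ht (N • gpt W K) = N ^ 2 := by
  have h : ∀ N : ℕ, ht (N • gpt W K) = N ^ 2 ∧ ht ((N + 1) • gpt W K) = (N + 1) ^ 2 := by
    intro N
    induction N with
    | zero => exact ⟨by rw [zero_smul, ht_zero]; rfl, by rw [zero_add, one_smul, ht_gpt]; rfl⟩
    | succ N ih =>
      refine ⟨ih.2, ?_⟩
      have h1 := ht_parallelogram (W := W) (K := K) (A := (N + 1) • gpt W K) (B := gpt W K)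
        (nsmul_mem gpt_mem_antiG _) gpt_mem_antiG
      have e1 : (N + 1) • gpt W K + gpt W K = (N + 1 + 1) • gpt W K := (succ_nsmul _ _).symm
      have e2 : (N + 1) • gpt W K - gpt W K = N • gpt W K := by
        rw [succ_nsmul, add_sub_cancel_right]
      rw [e1, e2, ih.1, ih.2, ht_gpt] at h1
      have h2 : 2 * ((N + 1) ^ 2 + 1) = (N + 1 + 1) ^ 2 + N ^ 2 := by ring
      omega
  exact (h N).1

lemma gen_nsmul {N : ℕ} (hN : N ≠ 0) : Gen (base W K) (N • gpt W K) :=
  gen_of_ht (nsmul_mem gpt_mem_antiG _) (by rw [ht_nsmul]; exact pow_ne_zero 2 hN)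

/-- Odd classes are multiplicative in the multiplication by integers. -/
lemma ev_nsmul_pt {β : KM m (FF W K)} (hβ : Unr β) (hodd : OddCl β) (N : ℕ) :
    ev (base W K) (N • gpt W K) β - N • β ∈ tor 1024 _ := by
  have h1 : evN hβ hodd (N • (1 : natE W K)) = N • evN hβ hodd 1 := map_nsmul _ _ _
  have h2 : evN hβ hodd (N • (1 : natE W K)) = QuotientAddGroup.mk
      (ev (base W K) (N • gpt W K) β) := by
    change QuotientAddGroup.mk (ev (base W K) (((N • (1 : natE W K) : natE W K) :
      AddMonoid.End (Pt W (FF W K))) (gpt W K)) β) = _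
    congr 2
  have h3 : evN hβ hodd 1 = QuotientAddGroup.mk β := by
    change QuotientAddGroup.mk (ev (base W K) (((1 : natE W K) :
      AddMonoid.End (Pt W (FF W K))) (gpt W K)) β) = _
    have h4 : (((1 : natE W K) : AddMonoid.End (Pt W (FF W K))) (gpt W K)) = gpt W K := rfl
    rw [h4, ev_self]
  rw [h2, h3, ← QuotientAddGroup.mk_nsmul] at h1
  have h4 := QuotientAddGroup.eq.mp h1.symm
  rwa [neg_add_eq_sub] at h4

lemma nu_nu (β : KM m (FF W K)) :
    KM.map m (nu W K : FF W K →+* FF W K) (KM.map m (nu W K : FF W K →+* FF W K) β) = β := by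
  have h1 := ev_neg_pt (base W K) (-gpt W K) β
  rw [neg_neg, ev_self] at h1
  have h2 := ev_neg_pt (base W K) (gpt W K) (KM.map m (nu W K : FF W K →+* FF W K) β)
  rw [ev_self, ← h1] at h2
  exact h2.symm

/-- Unramified classes come from the multiplication by `N`, up to a factor. -/
theorem mul_desc {N : ℕ} (hN : N ≠ 0) {β : KM m (FF W K)} (hβ : Unr β) :
    ∃ β' : KM m (FF W K), Unr β' ∧
      ev (base W K) (N • gpt W K) β' = (2048 * N) • β := by
  obtain ⟨νβ, hν⟩ : ∃ νβ, νβ = KM.map m (nu W K : FF W K →+* FF W K) β := ⟨_, rfl⟩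
  have hνu : Unr νβ := by rw [hν]; exact hβ.map _
  have hνν : KM.map m (nu W K : FF W K →+* FF W K) νβ = β := by rw [hν, nu_nu]
  have hodd : OddCl (β - νβ) := by
    unfold OddCl
    rw [map_sub, hνν, ← hν, neg_sub]
  have hev : EvenCl (β + νβ) := by
    unfold EvenCl
    rw [map_add, hνν, ← hν, add_comm]
  obtain ⟨c, hc, hcβ⟩ := hev.const (hβ.add hνu)
  have h1 := ev_nsmul_pt (hβ.sub hνu) hodd N
  have hgen := gen_nsmul (W := W) (K := K) hN
  have h2 : ev (base W K) (N • gpt W K) (4 • (β + νβ)) = 4 • (β + νβ) := by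
    rw [← hcβ, ev_const hgen]
  refine ⟨1024 • (β - νβ) + (256 * N) • (4 • (β + νβ)),
    ((hβ.sub hνu).nsmul _).add (((hβ.add hνu).nsmul _).nsmul _), ?_⟩
  rw [ev_add, ev_nsmul, ev_nsmul, h2]
  rw [mem_tor, smul_sub, sub_eq_zero] at h1
  rw [h1]
  module

/-- The kernel of the multiplication by `N`. -/
theorem mul_ker {N : ℕ} (hN : N ≠ 0) {β : KM m (FF W K)} (hβ : Unr β)
    (h0 : ev (base W K) (N • gpt W K) β = 0) : (2048 * N) • β = 0 := by
  obtain ⟨νβ, hν⟩ : ∃ νβ, νβ = KM.map m (nu W K : FF W K →+* FF W K) β := ⟨_, rfl⟩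
  have hνu : Unr νβ := by rw [hν]; exact hβ.map _
  have hνν : KM.map m (nu W K : FF W K →+* FF W K) νβ = β := by rw [hν, nu_nu]
  have hodd : OddCl (β - νβ) := by
    unfold OddCl
    rw [map_sub, hνν, ← hν, neg_sub]
  have hev : EvenCl (β + νβ) := by
    unfold EvenCl
    rw [map_add, hνν, ← hν, add_comm]
  obtain ⟨c, hc, hcβ⟩ := hev.const (hβ.add hνu)
  have h1 := ev_nsmul_pt (hβ.sub hνu) hodd N
  have hgen := gen_nsmul (W := W) (K := K) hN
  have h3 : ev (base W K) (N • gpt W K) νβ = 0 := by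
    rw [hν, ← ev_neg_pt]
    have e1 : (nu W K).comp (base W K) = base W K := nu_base
    have e2 : ptMap (nu W K) (N • gpt W K) = -(N • gpt W K) := by
      rw [map_nsmul]
      have e3 : ptMap (nu W K) (gpt W K) = -gpt W K := gpt_mem_antiG
      rw [e3, smul_neg]
    have e4 := ev_map (base W K) (nu W K) (N • gpt W K) β
    rw [e1, e2, h0, map_zero] at e4
    exact e4
  have h4 : ev (base W K) (N • gpt W K) (β - νβ) = 0 := by rw [ev_sub, h0, h3, sub_zero]
  rw [h4, zero_sub] at h1
  have h5 : (1024 * N) • (β - νβ) = 0 := by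
    rw [mem_tor, smul_neg, neg_eq_zero] at h1
    rw [mul_smul]
    exact h1
  have h6 : 4 • (β + νβ) = 0 := by
    have h7 := ev_const hgen c
    rw [hcβ, ev_nsmul, ev_add, h0, h3, add_zero, smul_zero] at h7
    exact h7.symm
  have h8 : (2048 * N) • β = (1024 * N) • (β - νβ) + (256 * N) • (4 • (β + νβ)) := by module
  rw [h8, h5, h6, smul_zero, add_zero]

section translate

variable (b : Pt W K)

lemma liftPt_base_pt {Q : Pt W (FF W K)} (hQ : Gen (base W K) Q) (b : Pt W K) :
    ptMap (liftPt (base W K) Q hQ) (ptMap (base W K) b) = ptMap (base W K) b := by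
  rw [← ptMap_comp, liftPt_base]

omit hE in
lemma gen_add_base {Q : Pt W (FF W K)} (hQ : Gen (base W K) Q) (b : Pt W K) :
    Gen (base W K) (Q + ptMap (base W K) b) := by
  intro h
  apply hQ
  have h1 : InCl (Set.range (base W K)) (ptMap (base W K) b) := by
    change ptX (ptMap (base W K) b) ∈ cl _
    rw [UnrH3.ptX_map]
    exact subset_cl _ ⟨_, rfl⟩
  exact (UnrH3.InCl_add_iff_left (range_in_cl (base W K)) h1).mp h

/-- Unramified classes come from an affine map, up to a factor. -/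
theorem aff_desc {N : ℕ} (hN : N ≠ 0) {β : KM m (FF W K)} (hβ : Unr β) :
    ∃ β' : KM m (FF W K), Unr β' ∧
      ev (base W K) (N • gpt W K + ptMap (base W K) b) β' = (2048 * N) • β := by
  obtain ⟨β', hβ', h⟩ := mul_desc hN hβ
  refine ⟨ev (base W K) (gpt W K - ptMap (base W K) b) β', hβ'.ev, ?_⟩
  have hgen := gen_add_base (gen_nsmul (W := W) (K := K) hN) b
  rw [ev_ev hgen, map_sub, liftPt_gpt, liftPt_base_pt, add_sub_cancel_right, h]

/-- The kernel of an affine map. -/
theorem aff_ker {N : ℕ} (hN : N ≠ 0) {β : KM m (FF W K)} (hβ : Unr β)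
    (h0 : ev (base W K) (N • gpt W K + ptMap (base W K) b) β = 0) : (2048 * N) • β = 0 := by
  have hgen := gen_nsmul (W := W) (K := K) hN
  have h1 : ev (base W K) (N • gpt W K) (ev (base W K) (gpt W K + ptMap (base W K) b) β) = 0 := by
    rw [ev_ev hgen, map_add, liftPt_gpt, liftPt_base_pt, h0]
  have h2 := mul_ker hN hβ.ev h1
  have hg : Gen (base W K) (gpt W K - ptMap (base W K) b) := by
    rw [sub_eq_add_neg, ← map_neg]
    exact gen_add_base gen_gpt _
  have h3 : ev (base W K) (gpt W K - ptMap (base W K) b)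
      (ev (base W K) (gpt W K + ptMap (base W K) b) β) = β := by
    rw [ev_ev hg, map_add, liftPt_gpt, liftPt_base_pt, sub_add_cancel, ev_self]
  have h4 := congrArg (ev (base W K) (gpt W K - ptMap (base W K) b)) h2
  rw [ev_nsmul, h3] at h4
  rw [h4, ev_of_gen hg, map_zero]

end translate

end UnrA
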