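import Mathlib

/-!
# Elements killed by an integer
-/

namespace UnrA

/-- The subgroup of the elements killed by the natural number `N`. -/
def tor (N : ℕ) (A : Type*) [AddCommGroup A] : AddSubgroup A where
  carrier := {x | N • x = 0}
  add_mem' := by
    intro x y hx hy
    change N • (x + y) = 0
    rw [smul_add, show N • x = 0 from hx, show N • y = 0 from hy, add_zero]
  zero_mem' := smul_zero N
  neg_mem' := by
    intro x hx
    change N • (-x) = 0
    rw [smul_neg, show N • x = 0 from hx, neg_zero]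

variable {A B : Type*} [AddCommGroup A] [AddCommGroup B] {M N : ℕ} {x y : A}

lemma mem_tor : x ∈ tor N A ↔ N • x = 0 := Iff.rfl

lemma tor_mono (h : M ∣ N) (hx : x ∈ tor M A) : x ∈ tor N A := by
  obtain ⟨c, rfl⟩ := h
  rw [mem_tor] at *
  rw [mul_comm, mul_smul, hx, smul_zero]

lemma tor_of_smul (h : M • x ∈ tor N A) : x ∈ tor (N * M) A := by
  rw [mem_tor] at *
  rw [mul_smul, h]

lemma tor_map (f : A →+ B) (hx : x ∈ tor N A) : f x ∈ tor N B := by
  rw [mem_tor] at *
  rw [← map_nsmul, hx, map_zero]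

lemma tor_smul (n : ℕ) (hx : x ∈ tor N A) : n • x ∈ tor N A := nsmul_mem hx n

lemma tor_zsmul (n : ℤ) (hx : x ∈ tor N A) : n • x ∈ tor N A := zsmul_mem hx n

lemma tor_trans {z : A} (h1 : x - y ∈ tor N A) (h2 : y - z ∈ tor N A) : x - z ∈ tor N A := by
  have := add_mem h1 h2
  rwa [sub_add_sub_cancel] at this

lemma tor_symm (h : x - y ∈ tor N A) : y - x ∈ tor N A := by
  have := neg_mem h
  rwa [neg_sub] at this

end UnrA
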