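import Pool.Agent.Lib.MP_859dd5_ag.EQ.Aff1
import Pool.Agent.Lib.MP_859dd5_ag.Mg.G030
import Pool.Agent.Lib.MP_859dd5_ag.Mg.G067

/-!
# Linearization of affine actions
-/

namespace UnrA

universe u v w z

open Polynomial WeierstrassCurve
open scoped Classical
open UnrH3 (Pt ptX ptY ptMap Gen InCl cl subset_cl adj le_adj subset_adj adj_le IndFam IndSet
  exists_factor)
open UnrH3.Ell (EllW OnW Fam crv)

variable {m : UFun.{u, z}} {κ M Λ : Type u} [Field κ] [Field M] [Field Λ] [Algebra κ M]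
  {l n : ℕ} {E : Fin l → WeierstrassCurve κ} [hEll : ∀ c, EllW (E c)]
  {K : IntermediateField κ M} {e : Fin n → Fin l} {x y : Fin n → M} (φ : M →+* Λ)

omit hEll in
lemma algebraMap_range_map :
    (φ.comp (algebraMap K M)).fieldRange = K.toSubfield.map φ := by
  ext z
  constructor
  · rintro ⟨w, rfl⟩
    exact ⟨w, w.2, rfl⟩
  · rintro ⟨w, hw, rfl⟩
    exact ⟨⟨w, hw⟩, rfl⟩

lemma indFam_map (hind : AlgebraicIndependent K x) :
    IndFam (K.toSubfield.map φ) fun i => φ (x i) := by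
  let _ : Algebra K Λ := (φ.comp (algebraMap K M)).toAlgebra
  have h1 : AlgebraicIndependent K fun i => φ (x i) :=
    hind.map' (f := (⟨φ, fun _ => rfl⟩ : M →ₐ[K] Λ)) φ.injective
  have h2 := UnrH3.indFam_of_algInd h1
  have h3 : (algebraMap K Λ).fieldRange = K.toSubfield.map φ := algebraMap_range_map φ
  rwa [h3] at h2

lemma fam_map (h2 : (2 : κ) ≠ 0)
    (hns : ∀ i, ((E (e i))⁄M).toAffine.Nonsingular (x i) (y i))
    (hind : AlgebraicIndependent K x) :
    Fam (φ.comp (algebraMap κ M)) (K.toSubfield.map φ) (fun i => (E (e i)).a₂)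
      (fun i => (E (e i)).a₄) (fun i => (E (e i)).a₆) (fun i => φ (x i)) (fun i => φ (y i)) where
  two := h2
  disc i := (hEll (e i)).disc
  jC z := ⟨algebraMap κ M z, K.algebraMap_mem z, rfl⟩
  ind := indFam_map φ hind
  hY i := by
    have h1 := congrArg φ (UnrH3.Ell.eq_of_ns (hns i))
    rw [map_pow, map_add, map_add, map_add, map_mul, map_mul, map_pow, map_pow] at h1
    exact h1

lemma crv_eq (c : Fin l) : ∀ (_ : Algebra κ Λ) (_ : ∀ z, algebraMap κ Λ z = φ (algebraMap κ M z)),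
    ((E c)⁄Λ : WeierstrassCurve Λ) =
      crv (φ.comp (algebraMap κ M)) (E c).a₂ (E c).a₄ (E c).a₆ := by
  intro _ h
  ext
  · change algebraMap κ Λ (E c).a₁ = 0
    rw [(hEll c).a1, map_zero]
  · exact h _
  · change algebraMap κ Λ (E c).a₃ = 0
    rw [(hEll c).a3, map_zero]
  · exact h _
  · exact h _

lemma mulRel_map {c : Fin l} {N : ℕ} {P Q : Pt (E c) M} (b : Pt (E c) K) (hP : P ≠ 0)
    (hQ : Q ≠ 0) (h : Q = N • P + ptMap K.val b) :
    MulRel (φ.comp (algebraMap κ M)) (K.toSubfield.map φ) N (E c).a₂ (E c).a₄ (E c).a₆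
      (φ (ptX P)) (φ (ptY P)) (φ (ptX Q)) (φ (ptY Q)) := by
  let inst : Algebra κ Λ := (φ.comp (algebraMap κ M)).toAlgebra
  obtain ⟨φ', hφ'⟩ : ∃ φ' : M →ₐ[κ] Λ, ∀ z, φ' z = φ z := ⟨⟨φ, fun _ => rfl⟩, fun _ => rfl⟩
  have hV := crv_eq (E := E) φ c inst (fun _ => rfl)
  obtain ⟨f, hf⟩ := point_transport hV
  have key : ∀ R : Pt (E c) M, R ≠ 0 → ∃ h, f (ptMap φ' R) = .some (φ (ptX R)) (φ (ptY R)) h := by
    intro R hR
    rcases R with _ | ⟨s, t, hst⟩
    · exact absurd rfl hR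
    · obtain ⟨h0, h0'⟩ : ∃ h, ptMap φ' (.some s t hst) = .some (φ' s) (φ' t) h := ⟨_, rfl⟩
      obtain ⟨h1, h2⟩ := hf _ _ h0
      have e1 : φ' s = φ s := hφ' s
      have e2 : φ' t = φ t := hφ' t
      have h3 : f (ptMap φ' (.some s t hst)) = .some (φ' s) (φ' t) h1 := by rw [h0', h2]
      simp only [e1, e2] at h3
      exact ⟨_, h3⟩
  refine ⟨f (ptMap φ' P), f (ptMap φ' Q), f (ptMap φ' (ptMap K.val b)), key P hP, key Q hQ, ?_, ?_⟩
  · rcases b with _ | ⟨s, t, hst⟩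
    · left
      change f (ptMap φ' (ptMap K.val 0)) = 0
      rw [map_zero, map_zero, map_zero]
    · right
      obtain ⟨h1, h2⟩ := key (ptMap K.val (.some s t hst)) (Affine.Point.some_ne_zero _)
      exact ⟨_, _, h1, h2, ⟨s, s.2, rfl⟩, ⟨t, t.2, rfl⟩⟩
  · rw [h, map_add, map_nsmul, map_add, map_nsmul]

section group

variable (G : Subgroup (M ≃ₐ[κ] M)) [Finite G] (ρ : G → Equiv.Perm (Fin n))
  (ε : G → Fin n → ℤˣ) (hG : ∀ g : G, IsAff E K e x y (ρ g) (ε g) (g : M ≃ₐ[κ] M))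
  (h2 : (2 : κ) ≠ 0) (hns : ∀ i, ((E (e i))⁄M).toAffine.Nonsingular (x i) (y i))
  (hind : AlgebraicIndependent K x)
  (htop : IntermediateField.adjoin K (Set.range x ∪ Set.range y) = ⊤)

include hG h2 hns hind htop

/-- Replacing the points by multiples of translates, the action becomes linear. -/
theorem exists_lin : ∃ (X Y : Fin n → Λ) (M' : Subfield Λ) (hle : M' ≤ φ.fieldRange)
    (θ : G →* (M' ≃+* M')),
    M' = adj (K.toSubfield.map φ) (Set.range X ∪ Set.range Y) ∧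
    Fam (φ.comp (algebraMap κ M)) (K.toSubfield.map φ) (fun i => (E (e i)).a₂)
      (fun i => (E (e i)).a₄) (fun i => (E (e i)).a₆) X Y ∧
    (∀ ξ : KM m φ.fieldRange, Unr ξ → ∃ ξ' : KM m M', Unr ξ' ∧
      up m hle ξ' = (2048 * Nat.card G) ^ n • ξ) ∧
    (∀ ξ : KM m M', Unr ξ → up m hle ξ = 0 → (2048 * Nat.card G) ^ n • ξ = 0) ∧
    (∀ g : G, ∀ z : M, ∀ w : M', (w : Λ) = φ z → (θ g w : Λ) = φ ((g : M ≃ₐ[κ] M) z)) ∧
    ∀ g : G, IsAdm (K.toSubfield.map φ) X Y e (ρ g) (ε g) (θ g : M' →+* M') := by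
  have hindM : IndFam K.toSubfield x := by
    have h1 := indFam_map (RingHom.id M) hind
    have h3 : K.toSubfield.map (RingHom.id M) = K.toSubfield := by
      ext z
      constructor
      · rintro ⟨w, hw, rfl⟩; exact hw
      · intro hz; exact ⟨z, hz, rfl⟩
    rw [h3] at h1
    exact h1
  obtain ⟨nx, hnx⟩ : ∃ nx : Fin l → Fin n → M, nx = fun c i => ptX (newPt E x y G ρ ε c i) :=
    ⟨_, rfl⟩
  obtain ⟨ny, hny⟩ : ∃ ny : Fin l → Fin n → M, ny = fun c i => ptY (newPt E x y G ρ ε c i) :=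
    ⟨_, rfl⟩
  obtain ⟨C, hC⟩ : ∃ C, C = K.toSubfield.map φ := ⟨_, rfl⟩
  obtain ⟨M', hM'⟩ : ∃ M', M' = adj C ((Set.range fun i => φ (nx (e i) i)) ∪
      Set.range fun i => φ (ny (e i) i)) := ⟨_, rfl⟩
  have hcard : Nat.card G ≠ 0 := Nat.card_pos.ne'
  have hgx : ∀ (g : G) (i : Fin n), (g : M ≃ₐ[κ] M) (nx (e i) i) =
      nx (e (ρ g i)) (ρ g i) := by
    intro g i
    have h1 := congrArg ptX (newPt_map hns hindM G ρ ε hG g i)
    have h3 : ptX (Affine.Point.map ((g : M ≃ₐ[κ] M) : M →ₐ[κ] M)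
        (newPt E x y G ρ ε (e i) i)) = (g : M ≃ₐ[κ] M) (ptX (newPt E x y G ρ ε (e i) i)) :=
      UnrH3.ptX_map _ _
    rw [h3, ptX_units_smul] at h1
    rw [(hG g).col i, hnx]
    exact h1
  have hgy : ∀ (g : G) (i : Fin n), (g : M ≃ₐ[κ] M) (ny (e i) i) =
      ((ε g i : ℤ) : M) * ny (e (ρ g i)) (ρ g i) := by
    intro g i
    have h1 := congrArg ptY (newPt_map hns hindM G ρ ε hG g i)
    have h3 : ptY (Affine.Point.map ((g : M ≃ₐ[κ] M) : M →ₐ[κ] M)
        (newPt E x y G ρ ε (e i) i)) = (g : M ≃ₐ[κ] M) (ptY (newPt E x y G ρ ε (e i) i)) :=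
      UnrH3.ptY_map _ _
    rw [h3, ptY_units_smul] at h1
    rw [(hG g).col i, hny]
    exact h1
  have F₀ := fam_map φ h2 hns hind
  have hrange : φ.fieldRange = adj (K.toSubfield.map φ) ((Set.range fun i => φ (x i)) ∪
      Set.range fun i => φ (y i)) := by
    rw [UnrH3.fieldRange_eq_adj φ htop, algebraMap_range_map]
    congr 1
    rw [Set.image_union, ← Set.range_comp, ← Set.range_comp]
    rfl
  have hrel : ∀ i, MulRel (φ.comp (algebraMap κ M)) (K.toSubfield.map φ) (Nat.card G)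
      (E (e i)).a₂ (E (e i)).a₄ (E (e i)).a₆ (φ (x i)) (φ (y i))
      (φ (nx (e i) i)) (φ (ny (e i) i)) := by
    intro i
    obtain ⟨b, hb⟩ := newPt_eq G ρ ε hG i
    have hg := gen_nsmul_add (gen_pt hns hindM i) hcard b
    have h1 : newPt E x y G ρ ε (e i) i ≠ 0 := by
      intro h
      apply hg
      have h3 : Nat.card G • pt (E (e i)) (x i) (y i) + ptMap K.val b = 0 := by
        rw [← h]; exact hb.symm
      rw [h3]
      change (0 : M) ∈ cl _
      exact zero_mem _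
    have h3 : pt (E (e i)) (x i) (y i) ≠ 0 := by
      rw [pt_some (hns i)]
      exact Affine.Point.some_ne_zero _
    have h4 := mulRel_map φ b h3 h1 hb
    have e1 : ptX (pt (E (e i)) (x i) (y i)) = x i := by rw [pt_some (hns i)]; rfl
    have e2 : ptY (pt (E (e i)) (x i) (y i)) = y i := by rw [pt_some (hns i)]; rfl
    rw [e1, e2] at h4
    rw [hnx, hny]
    exact h4
  obtain ⟨F, hle, hd, hk⟩ := mul_fam (m := m) F₀ hrange hcard hrel (M' := M') (by rw [hM', hC])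
  have hst : ∀ g ∈ G, ∀ z : M, φ z ∈ M' → φ (g z) ∈ M' := by
    intro g hg z hz
    have h1 : M' ≤ ((M'.comap φ).comap (g : M →+* M)).map φ := by
      conv_lhs => rw [hM']
      apply adj_le
      · rintro c hc
        rw [hC] at hc
        obtain ⟨w, hw, rfl⟩ := hc
        refine ⟨w, ?_, rfl⟩
        change φ (g w) ∈ M'
        rw [hM', hC]
        exact le_adj _ _ ⟨g w, (hG ⟨g, hg⟩).memK w hw, rfl⟩
      · rintro c (⟨i, rfl⟩ | ⟨i, rfl⟩)
        · refine ⟨nx (e i) i, ?_, rfl⟩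
          change φ (g (nx (e i) i)) ∈ M'
          have h3 := hgx ⟨g, hg⟩ i
          change g (nx (e i) i) = _ at h3
          rw [h3, hM']
          exact subset_adj _ _ (Or.inl ⟨_, rfl⟩)
        · refine ⟨ny (e i) i, ?_, rfl⟩
          change φ (g (ny (e i) i)) ∈ M'
          have h3 := hgy ⟨g, hg⟩ i
          change g (ny (e i) i) = _ at h3
          rw [h3, hM', map_mul, map_intCast]
          exact mul_mem (intCast_mem _ _) (subset_adj _ _ (Or.inr ⟨_, rfl⟩))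
    obtain ⟨w, hw, hwz⟩ := h1 hz
    rw [φ.injective hwz] at hw
    exact hw
  obtain ⟨θ, hθ⟩ := exists_theta φ G hle hst
  refine ⟨fun i => φ (nx (e i) i), fun i => φ (ny (e i) i), M', hle, θ, by rw [hM', hC], F, hd, hk,
    hθ, fun g => ⟨(hG g).col, ?_, ?_, ?_⟩⟩
  · rintro z ⟨w, hw, hwz⟩
    have h1 := hθ g w z hwz.symm
    change (θ g z : Λ) ∈ _
    rw [h1]
    exact ⟨(g : M ≃ₐ[κ] M) w, (hG g).memK w hw, rfl⟩
  · intro i z hz
    have h1 := hθ g _ z hz
    change (θ g z : Λ) = _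
    rw [h1, hgx]
  · intro i z hz
    have h1 := hθ g _ z hz
    change (θ g z : Λ) = _
    rw [h1, hgy, map_mul, map_intCast]

end group

end UnrA
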