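import Pool.Agent.Lib.MP_859dd5_ag.Mg.G030

/-!
# Coefficient fields dominated by products of elliptic curves and rational varieties, II
-/

namespace UnrA

universe u v w z

open Polynomial
open scoped Classical
open UnrH3 (cl subset_cl adj le_adj subset_adj adj_le cl_mono cl_le IndFam IndSet restrict_hom
  hom_gen_id)
open UnrH3.Ell (EllW OnW Fam npt pick)

variable {m : UFun.{u, z}} {Λ : Type u} [Field Λ]

section

variable {κ : Type w} [Field κ] {j : κ →+* Λ} {F₀ T R B MF : Subfield Λ} {μ n r : ℕ}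
  {a' b' c' : Fin μ → κ} {x' y' : Fin μ → Λ} {a b c : Fin n → κ} {X Y : Fin n → Λ}
  {I : Finset (Fin n)} {t : Fin r → Λ}

lemma flip_append (hR : R = adj T (Set.range x' ∪ Set.range y')) {i : Fin n} {G : B →+* B}
    (hG : IsFlip R X Y i G) :
    IsFlip T (Fin.append x' X) (Fin.append y' Y) (Fin.natAdd μ i) G where
  c z hz := hG.c z (by rw [hR]; exact le_adj _ _ hz)
  x l z hz := by
    revert hz
    refine Fin.addCases (fun l => ?_) (fun l => ?_) l
    · intro hz
      rw [Fin.append_left] at hz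
      exact hG.c z (by rw [hR, hz]; exact subset_adj _ _ (Or.inl ⟨l, rfl⟩))
    · intro hz
      rw [Fin.append_right] at hz
      exact hG.x l z hz
  y l z hz := by
    revert hz
    refine Fin.addCases (fun l => ?_) (fun l => ?_) l
    · intro hz
      rw [Fin.append_left] at hz
      have h1 : Fin.castAdd n l ≠ Fin.natAdd μ i := by
        intro h
        have h2 := congrArg Fin.val h
        simp only [Fin.val_castAdd, Fin.val_natAdd] at h2
        omega
      rw [if_neg h1]
      exact hG.c z (by rw [hR, hz]; exact subset_adj _ _ (Or.inr ⟨l, rfl⟩))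
    · intro hz
      rw [Fin.append_right] at hz
      rw [hG.y l z hz]
      have h1 : Fin.natAdd μ l = Fin.natAdd μ i ↔ l = i := by
        constructor
        · intro h
          have h2 := congrArg Fin.val h
          simp only [Fin.val_natAdd] at h2
          exact Fin.ext (by omega)
        · rintro rfl; rfl
      simp only [h1]

/-- Unramified classes come from the finite constant field. -/
theorem dom_w (hj : ∀ z, j z ∈ F₀) (hT : T = adj F₀ (Set.range t))
    (ht : IndSet F₀ (Set.range t)) (F' : Fam j T a' b' c' x' y')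
    (hR : R = adj T (Set.range x' ∪ Set.range y')) (F : Fam j R a b c X Y)
    (hB : B = adj R (Set.range X ∪ Set.range Y))
    (hMF : MF = adj F₀ (Set.range (Fin.append x' X) ∪ Set.range (Fin.append y' Y)))
    (hle : MF ≤ B) {v : KM m B} (hu : Unr v) (ho : Par R X Y I v) :
    ∃ w : KM m MF, Unr w ∧ up m hle w = v ∧ ∀ i : Fin n, ∀ g : MF →+* MF,
      IsFlip F₀ (Fin.append x' X) (Fin.append y' Y) (Fin.natAdd μ i) g →
        KM.map m g w = if i ∈ I then -w else w := by
  have hF₀T : F₀ ≤ T := by rw [hT]; exact le_adj _ _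
  have FF := fam_append F' hR F
  have hB' : B = adj T (Set.range (Fin.append x' X) ∪ Set.range (Fin.append y' Y)) := by
    rw [hB, adj_append hR]
  have hind : IndSet MF (Set.range t) := FF.indSet_const hT ht hj hMF
  have hBt : B = adj MF (Set.range t) := by
    rw [hB', hT, hMF, adj_comm']
  obtain ⟨w, hw, hwv⟩ := rat_descend (Set.finite_range t) hind hBt hle hu
  refine ⟨w, hw, hwv, ?_⟩
  intro i g hg
  obtain ⟨G, G1, G2, G3⟩ := F.exists_flip hB i
  have hG : IsFlip R X Y i G := ⟨G1, G2, G3⟩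
  have h1 : up m hle (KM.map m g w - if i ∈ I then -w else w) = 0 := by
    rw [map_sub, up_comp hle (flip_restrict hF₀T hB' hMF hle (flip_append hR hG) hg), hwv,
      ho i G hG]
    split_ifs
    · rw [map_neg, hwv, sub_self]
    · rw [hwv, sub_self]
  have h2 := rat_injective (Set.finite_range t) hind hBt hle h1
  exact sub_eq_zero.mp h2

variable {p s : ℕ} [hp : Fact p.Prime] [hpΛ : CharP Λ p]

/-- Classes over a field dominated by a product of elliptic curves and a rational variety. -/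
theorem dom_kill [Fintype κ] {ι : Type*} [Fintype ι] {k : Subfield Λ} (hkR : k ≤ R)
    (hjk : ∀ z, j z ∈ k)
    (hF₀ : ∀ z, z ∈ F₀ ↔ ∃ w, j w = z) (hT : T = adj F₀ (Set.range t))
    (ht : IndSet F₀ (Set.range t)) (F' : Fam j T a' b' c' x' y')
    (hR : R = adj T (Set.range x' ∪ Set.range y')) (F : Fam j R a b c X Y)
    (hs : 0 < s) (hcard : Fintype.card κ = p ^ s)
    (e' : Fin μ → ι) (e : Fin n → ι) {A B' D : ι → κ}
    (ha' : ∀ i, a' i = A (e' i)) (hb' : ∀ i, b' i = B' (e' i)) (hc' : ∀ i, c' i = D (e' i))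
    (ha : ∀ i, a i = A (e i)) (hb : ∀ i, b i = B' (e i)) (hc : ∀ i, c i = D (e i))
    (π π' : ι → ℂ)
    (hsum : ∀ i, π i + π' i = (p : ℂ) ^ s - npt (A i) (B' i) (D i))
    (hprod : ∀ i, π i * π' i = (p : ℂ) ^ s) (P : Finset (Fin (μ + n)) → ℤ[X])
    (hP : ∀ I', (P I').map (Int.castRingHom ℂ) =
      ∏ S : Finset ι, (Polynomial.X - Polynomial.C (∏ i ∈ I', pick π π' S (Fin.append e' e i))))
    {d : ℕ} (hw : m.HasWeight κ (p ^ s) d) {E : ℕ}
    (hE : ∀ I' : Finset (Fin (μ + n)), sndPart I' = I →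
      ((P I').eval (((p ^ s : ℕ) : ℤ) ^ d)).natAbs ∣ E ∨
      ∃ N : ℕ, N ∣ E ∧ ∀ (MF : Subfield Λ) (γ' : KM m MF),
        Fam j F₀ (Fin.append a' a) (Fin.append b' b) (Fin.append c' c) (Fin.append x' X)
          (Fin.append y' Y) →
        MF = adj F₀ (Set.range (Fin.append x' X) ∪ Set.range (Fin.append y' Y)) → Unr γ' →
        Par F₀ (Fin.append x' X) (Fin.append y' Y) I' γ' → (1024 * N) • γ' = 0)
    {N : Subfield Λ} (hN : N = adj k (Set.range X ∪ Set.range Y)) {v : KM m N} (hu : Unr v)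
    (ho : Par k X Y I v) :
    (dg hkR * (2 ^ (μ + n) * (2 * TT (μ + n) * E))) • v = 0 := by
  have hj : ∀ z, j z ∈ F₀ := fun z => (hF₀ _).mpr ⟨z, rfl⟩
  have hF₀T : F₀ ≤ T := by rw [hT]; exact le_adj _ _
  have FF := fam_append F' hR F
  have FF₀ : Fam j F₀ (Fin.append a' a) (Fin.append b' b) (Fin.append c' c) (Fin.append x' X)
      (Fin.append y' Y) := FF.mono hj fun z hz => subset_cl _ (hF₀T hz)
  obtain ⟨B, hB⟩ : ∃ B, B = adj R (Set.range X ∪ Set.range Y) := ⟨_, rfl⟩
  obtain ⟨MF, hMF⟩ : ∃ MF, MF = adj F₀ (Set.range (Fin.append x' X) ∪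
    Set.range (Fin.append y' Y)) := ⟨_, rfl⟩
  have hle : MF ≤ B := by
    rw [hMF, hB, adj_append hR]
    exact UnrH3.adj_mono hF₀T le_rfl
  have hNB : N ≤ B := by
    rw [hN, hB]
    exact UnrH3.adj_mono hkR le_rfl
  obtain ⟨w, hwu, hwv, hwp⟩ := dom_w hj hT ht F' hR F hB hMF hle (hu.map _)
    (ho.up F hjk hkR hB hN hNB)
  have happ : ∀ {f' : Fin μ → κ} {f : Fin n → κ} {g : ι → κ}, (∀ i, f' i = g (e' i)) →
      (∀ i, f i = g (e i)) → ∀ i, Fin.append f' f i = g (Fin.append e' e i) := by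
    intro f' f g h1 h2 i
    refine Fin.addCases (fun i => ?_) (fun i => ?_) i
    · rw [Fin.append_left, Fin.append_left, h1]
    · rw [Fin.append_right, Fin.append_right, h2]
  have h1 := snd_kill FF₀ (fun z hz => (hF₀ z).mp hz) hs hMF hcard (Fin.append e' e)
    (happ ha' ha) (happ hb' hb) (happ hc' hc) π π' hsum hprod P hP hw hwu hwp
    (fun I' hI' => (hE I' hI').imp id fun ⟨N, hN, h⟩ => ⟨N, hN, fun γ' => h MF γ' FF₀ hMF⟩)
  have h2 := congrArg (up m hle) h1
  rw [map_nsmul, hwv, map_zero, ← map_nsmul] at h2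
  have h3 := dg_ker hNB h2
  have h4 : dg hNB = dg hkR := by
    subst hN hB
    have e1 : offJ k X Y ∅ = adj k (Set.range X ∪ Set.range Y) := offJ_empty rfl
    have e2 : offJ R X Y ∅ = adj R (Set.range X ∪ Set.range Y) := offJ_empty rfl
    have h5 : ∀ {A A' B B' : Subfield Λ} (hA : A = A') (hB : B = B') (h : A ≤ B) (h' : A' ≤ B'),
        dg h = dg h' := by
      rintro A _ B _ rfl rfl h h'; rfl
    rw [← dg_fam F hjk hkR ∅ (UnrH3.adj_mono hkR le_rfl)]
    exact h5 e1.symm e2.symm _ _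
  rw [h4, smul_smul] at h3
  exact h3

/-- Classes over a field dominated by a rational variety. -/
theorem dom_const {k : Subfield Λ} (hkR : k ≤ R) (hjk : ∀ z, j z ∈ k) (hF₀k : F₀ ≤ k)
    (hj : ∀ z, j z ∈ F₀) (hR : R = adj F₀ (Set.range t))
    (ht : IndSet F₀ (Set.range t)) (F : Fam j R a b c X Y)
    {N MF : Subfield Λ} (hN : N = adj k (Set.range X ∪ Set.range Y))
    (hMF : MF = adj F₀ (Set.range X ∪ Set.range Y)) {v : KM m N} (hu : Unr v) :
    ∃ (w : KM m MF) (h : MF ≤ N), up m h w = dg hkR • v := by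
  obtain ⟨B, hB⟩ : ∃ B, B = adj R (Set.range X ∪ Set.range Y) := ⟨_, rfl⟩
  have hMN : MF ≤ N := by
    rw [hMF, hN]
    exact UnrH3.adj_mono hF₀k le_rfl
  have hNB : N ≤ B := by
    rw [hN, hB]
    exact UnrH3.adj_mono hkR le_rfl
  have hind : IndSet MF (Set.range t) := F.indSet_const hR ht hj hMF
  have hBt : B = adj MF (Set.range t) := by
    rw [hB, hR, hMF, adj_comm']
  obtain ⟨w, hw, hwv⟩ := rat_descend (Set.finite_range t) hind hBt (hMN.trans hNB) (hu.map _)
  refine ⟨dg hkR • w, hMN, ?_⟩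
  have h1 : up m hNB (up m hMN w - v) = 0 := by
    rw [map_sub, up_up, hwv, sub_self]
  have h3 := dg_ker hNB h1
  have h4 : dg hNB = dg hkR := by
    subst hN hB
    have e1 : offJ k X Y ∅ = adj k (Set.range X ∪ Set.range Y) := offJ_empty rfl
    have e2 : offJ R X Y ∅ = adj R (Set.range X ∪ Set.range Y) := offJ_empty rfl
    have h5 : ∀ {A A' B B' : Subfield Λ} (hA : A = A') (hB : B = B') (h : A ≤ B) (h' : A' ≤ B'),
        dg h = dg h' := by
      rintro A _ B _ rfl rfl h h'; rfl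
    rw [← dg_fam F hjk hkR ∅ (UnrH3.adj_mono hkR le_rfl)]
    exact h5 e1.symm e2.symm _ _
  rw [h4, smul_sub, sub_eq_zero, ← map_nsmul] at h3
  exact h3

end

end UnrA
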