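import Mathlib
import Pool.Agent.Lib.MP_859dd5_ag.Mg.G027

/-!
# Integrality of the polynomials of products of Frobenius eigenvalues
-/

namespace UnrA

open Polynomial
open scoped Classical
open UnrH3.Ell (pick)

lemma powsum_int {α β : ℂ} {s t : ℤ} (hs : α + β = s) (ht : α * β = t) :
    ∀ n : ℕ, ∃ z : ℤ, α ^ n + β ^ n = z := by
  have h : ∀ n : ℕ, (∃ z : ℤ, α ^ n + β ^ n = z) ∧ ∃ z : ℤ, α ^ (n + 1) + β ^ (n + 1) = z := by
    intro n
    induction n with
    | zero => exact ⟨⟨2, by norm_num⟩, ⟨s, by simpa using hs⟩⟩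
    | succ n ih =>
      obtain ⟨⟨x, hx⟩, ⟨y, hy⟩⟩ := ih
      refine ⟨⟨y, hy⟩, ⟨s * y - t * x, ?_⟩⟩
      push_cast
      rw [← hs, ← ht, ← hx, ← hy]
      ring
  exact fun n => (h n).1

lemma mixed_int {α β : ℂ} {s t : ℤ} (hs : α + β = s) (ht : α * β = t) (i j : ℕ) :
    ∃ z : ℤ, α ^ i * β ^ j + α ^ j * β ^ i = z := by
  wlog h : i ≤ j generalizing i j
  · obtain ⟨z, hz⟩ := this j i (by omega)
    exact ⟨z, by rw [← hz]; ring⟩
  · obtain ⟨z, hz⟩ := powsum_int hs ht (j - i)
    refine ⟨t ^ i * z, ?_⟩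
    obtain ⟨k, rfl⟩ := Nat.exists_eq_add_of_le h
    rw [Nat.add_sub_cancel_left] at hz
    push_cast
    rw [← hz, ← ht]
    ring

lemma pair_sum_mem {V : Type*} [AddCommGroup V] (A : AddSubgroup V) (f : ℕ → ℕ → V)
    (h1 : ∀ k, f k k ∈ A) (h2 : ∀ k l, f k l + f l k ∈ A) (n : ℕ) :
    ∑ k ∈ Finset.range n, ∑ l ∈ Finset.range n, f k l ∈ A := by
  induction n with
  | zero => simp
  | succ n ih =>
    have h3 : ∑ k ∈ Finset.range (n + 1), ∑ l ∈ Finset.range (n + 1), f k l =
        (∑ k ∈ Finset.range n, ∑ l ∈ Finset.range n, f k l) +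
          (∑ k ∈ Finset.range n, (f k n + f n k)) + f n n := by
      rw [Finset.sum_range_succ, Finset.sum_range_succ]
      rw [Finset.sum_congr rfl fun k _ => Finset.sum_range_succ (f k) n]
      rw [Finset.sum_add_distrib, Finset.sum_add_distrib]
      abel
    rw [h3]
    exact add_mem (add_mem ih (sum_mem fun k _ => h2 k n)) (h1 n)

lemma scaleRoots_prod {ι : Type*} (s : Finset ι) (r : ι → ℂ) (α : ℂ) :
    (∏ i ∈ s, (X - C (r i))).scaleRoots α = ∏ i ∈ s, (X - C (r i * α)) := by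
  induction s using Finset.induction_on with
  | empty =>
    rw [Finset.prod_empty, Finset.prod_empty]
    exact Polynomial.one_scaleRoots α
  | insert i s hi ih =>
    rw [Finset.prod_insert hi, Finset.prod_insert hi,
      Polynomial.mul_scaleRoots_of_noZeroDivisors, ih]
    congr 1
    ext k
    rw [coeff_scaleRoots, natDegree_X_sub_C, coeff_sub, coeff_sub, coeff_X, coeff_C, coeff_C]
    rcases k with _ | _ | k
    · simp
    · simp
    · simp

/-- One step. -/
lemma step_int {ι : Type*} (s : Finset ι) (r : ι → ℂ) {Q : ℤ[X]}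
    (hQ : Q.map (Int.castRingHom ℂ) = ∏ i ∈ s, (X - C (r i))) {α β : ℂ} {u t : ℤ}
    (hs : α + β = u) (ht : α * β = t) :
    ∃ Q' : ℤ[X], Q'.map (Int.castRingHom ℂ) =
      (∏ i ∈ s, (X - C (r i * α))) * ∏ i ∈ s, (X - C (r i * β)) := by
  obtain ⟨d, hd⟩ : ∃ d, d = (∏ i ∈ s, (X - C (r i)) : ℂ[X]).natDegree := ⟨_, rfl⟩
  have hform : ∀ γ : ℂ, ∏ i ∈ s, (X - C (r i * γ)) =
      ∑ k ∈ Finset.range (d + 1), C ((Q.coeff k : ℂ) * γ ^ (d - k)) * X ^ k := by
    intro γ
    rw [← scaleRoots_prod]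
    have h1 : ((∏ i ∈ s, (X - C (r i))).scaleRoots γ).natDegree < d + 1 := by
      rw [natDegree_scaleRoots, hd]
      exact Nat.lt_succ_self _
    rw [Polynomial.as_sum_range_C_mul_X_pow' _ h1]
    refine Finset.sum_congr rfl fun k _ => ?_
    rw [coeff_scaleRoots, ← hd, ← hQ, coeff_map]
    rfl
  have hmono : ∀ (u v : ℂ) (k l : ℕ), (C u * X ^ k) * (C v * X ^ l) =
      C (u * v) * X ^ (k + l) := by
    intro u v k l
    rw [C_mul, pow_add]
    ring
  have key := pair_sum_mem
    ((Polynomial.mapRingHom (Int.castRingHom ℂ)).range.toAddSubgroup)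
    (fun k l => (C ((Q.coeff k : ℂ) * α ^ (d - k)) * X ^ k) *
      (C ((Q.coeff l : ℂ) * β ^ (d - l)) * X ^ l)) (fun k => by
        refine ⟨C (Q.coeff k * Q.coeff k * t ^ (d - k)) * X ^ (k + k), ?_⟩
        simp only [coe_mapRingHom, Polynomial.map_mul, map_C, Polynomial.map_pow, map_X]
        have h1 : (Int.castRingHom ℂ) (Q.coeff k * Q.coeff k * t ^ (d - k)) =
            ((Q.coeff k : ℂ) * α ^ (d - k)) * ((Q.coeff k : ℂ) * β ^ (d - k)) := by
          rw [eq_intCast]
          push_cast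
          rw [← ht]
          ring
        rw [h1, hmono])
    (fun k l => by
        obtain ⟨z, hz⟩ := mixed_int hs ht (d - k) (d - l)
        refine ⟨C (Q.coeff k * Q.coeff l * z) * X ^ (k + l), ?_⟩
        simp only [coe_mapRingHom, Polynomial.map_mul, map_C, Polynomial.map_pow, map_X]
        have h1 : (Int.castRingHom ℂ) (Q.coeff k * Q.coeff l * z) =
            ((Q.coeff k : ℂ) * α ^ (d - k)) * ((Q.coeff l : ℂ) * β ^ (d - l)) +
            ((Q.coeff l : ℂ) * α ^ (d - l)) * ((Q.coeff k : ℂ) * β ^ (d - k)) := by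
          rw [map_mul, map_mul, eq_intCast, eq_intCast, eq_intCast, ← hz]
          ring
        rw [h1, C_add, add_mul, hmono, hmono, add_comm l k]) (d + 1)
  obtain ⟨Q', hQ'⟩ := key
  refine ⟨Q', ?_⟩
  rw [hform α, hform β, Finset.sum_mul_sum]
  exact hQ'

/-- The polynomial with roots the products of Frobenius eigenvalues has integral coefficients. -/
theorem exists_int_poly {ι β : Type*} [Fintype ι] (e : β → ι) (J : Finset β) (π π' : ι → ℂ)
    (a : ι → ℤ) (q : ℤ) (ha : ∀ i, π i + π' i = a i) (hq : ∀ i, π i * π' i = q) :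
    ∃ P : ℤ[X], P.map (Int.castRingHom ℂ) =
      ∏ S : Finset ι, (X - C (∏ j ∈ J, pick π π' S (e j))) := by
  obtain ⟨N, hN⟩ : ∃ N : ι → ℕ, ∀ S : Finset ι, ∏ j ∈ J, pick π π' S (e j) =
      ∏ i : ι, pick π π' S i ^ N i := by
    refine ⟨fun i => (J.filter fun j => e j = i).card, fun S => ?_⟩
    rw [← Finset.prod_fiberwise_of_maps_to (s := J) (t := Finset.univ) (g := e)
      (fun j _ => Finset.mem_univ _)]
    refine Finset.prod_congr rfl fun i _ => ?_
    rw [Finset.prod_congr rfl (g := fun _ => pick π π' S i), Finset.prod_const]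
    intro j hj
    rw [(Finset.mem_filter.mp hj).2]
  have key : ∀ T : Finset ι, ∃ P : ℤ[X], P.map (Int.castRingHom ℂ) =
      ∏ S ∈ T.powerset, (X - C (∏ i ∈ T, pick π π' S i ^ N i)) := by
    intro T
    induction T using Finset.induction_on with
    | empty =>
      refine ⟨X - 1, ?_⟩
      simp
    | insert i T hi ih =>
      obtain ⟨Q, hQ⟩ := ih
      obtain ⟨u, hu⟩ := powsum_int (ha i) (hq i) (N i)
      obtain ⟨Q', hQ'⟩ := step_int T.powerset (fun S => ∏ l ∈ T, pick π π' S l ^ N l) hQ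
        (α := π' i ^ N i) (β := π i ^ N i) (u := u) (t := q ^ N i)
        (by rw [← hu]; ring) (by rw [← mul_pow, mul_comm, hq]; push_cast; rfl)
      refine ⟨Q', ?_⟩
      rw [hQ', Finset.prod_powerset_insert hi]
      congr 1
      · refine Finset.prod_congr rfl fun S hS => ?_
        have h1 : i ∉ S := fun h => hi (Finset.mem_powerset.mp hS h)
        rw [Finset.prod_insert hi, mul_comm (pick π π' S i ^ N i)]
        unfold pick
        rw [if_neg h1]
      · refine Finset.prod_congr rfl fun S hS => ?_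
        rw [Finset.prod_insert hi, mul_comm (pick π π' (insert i S) i ^ N i)]
        have h2 : ∏ l ∈ T, pick π π' (insert i S) l ^ N l = ∏ l ∈ T, pick π π' S l ^ N l := by
          refine Finset.prod_congr rfl fun l hl => ?_
          have h3 : l ≠ i := fun h => hi (h ▸ hl)
          unfold pick
          have h4 : l ∈ insert i S ↔ l ∈ S := by
            rw [Finset.mem_insert]
            tauto
          rw [if_congr h4 rfl rfl]
        rw [h2]
        unfold pick
        rw [if_pos (Finset.mem_insert_self i S)]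
  obtain ⟨P, hP⟩ := key Finset.univ
  refine ⟨P, ?_⟩
  rw [hP, Finset.powerset_univ]
  refine Finset.prod_congr rfl fun S _ => ?_
  rw [hN]

end UnrA
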