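import Pool.Agent.Lib.MP_859dd5_ag.EQ.Aff3
import Pool.Agent.Lib.MP_859dd5_ag.EQ.Dom2
import Pool.Agent.Lib.MP_859dd5_ag.EQ.IntPoly

/-!
# Affine actions: signs, fixed fields and domination
-/

namespace UnrA

universe u v w z

open Polynomial WeierstrassCurve
open scoped Classical
open UnrH3 (Pt ptX ptY ptMap Gen InCl cl subset_cl adj le_adj subset_adj adj_le IndFam IndSet
  exists_factor)
open UnrH3.Ell (EllW OnW Fam crv npt pick)

/-- The signed permutation `(ρ, ε)` preserves `I` and acts on it with sign `s`. -/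
def HasSgn {n : ℕ} (ρ : Equiv.Perm (Fin n)) (ε : Fin n → ℤˣ) (I : Finset (Fin n)) (s : ℤˣ) :
    Prop :=
  ∃ hI : ∀ i, ρ i ∈ I ↔ i ∈ I, Equiv.Perm.sign (ρ.subtypePerm hI) * ∏ i ∈ I, ε i = s

/-- The elements of `K` fixed by the elements of `G` preserving `I` with sign one. -/
def fixI {κ M : Type u} [Field κ] [Field M] [Algebra κ M] {n : ℕ} (K : IntermediateField κ M)
    (G : Subgroup (M ≃ₐ[κ] M)) (ρ : G → Equiv.Perm (Fin n)) (ε : G → Fin n → ℤˣ)
    (I : Finset (Fin n)) : IntermediateField κ M where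
  carrier := {z | z ∈ K ∧ ∀ g : G, HasSgn (ρ g) (ε g) I 1 → (g : M ≃ₐ[κ] M) z = z}
  mul_mem' := by
    rintro a b ⟨ha, ha'⟩ ⟨hb, hb'⟩
    exact ⟨mul_mem ha hb, fun g hg => by rw [map_mul, ha' g hg, hb' g hg]⟩
  add_mem' := by
    rintro a b ⟨ha, ha'⟩ ⟨hb, hb'⟩
    exact ⟨add_mem ha hb, fun g hg => by rw [map_add, ha' g hg, hb' g hg]⟩
  algebraMap_mem' := fun z => ⟨K.algebraMap_mem z, fun g _ => (g : M ≃ₐ[κ] M).commutes z⟩
  inv_mem' := by
    rintro a ⟨ha, ha'⟩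
    exact ⟨inv_mem ha, fun g hg => by rw [map_inv₀, ha' g hg]⟩

/-- The field `k` has an extension of degree `d` which is the function field over `κ` of the
product of a projective space and of the curves `E (e j)`. -/
def Dominated {κ : Type u} [Field κ] {l : ℕ} (E : Fin l → WeierstrassCurve κ) (k : Type u)
    [Field k] [Algebra κ k] {μ : ℕ} (e : Fin μ → Fin l) (d : ℕ) : Prop :=
  ∃ (R : Type u) (_ : Field R) (_ : Algebra κ R) (_ : Algebra k R) (_ : IsScalarTower κ k R)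
    (_ : FiniteDimensional k R) (r : ℕ) (t : Fin r → R) (x y : Fin μ → R),
    Module.finrank k R = d ∧ AlgebraicIndependent κ (Sum.elim t x) ∧
    (∀ j, ((E (e j))⁄R).toAffine.Nonsingular (x j) (y j)) ∧
    IntermediateField.adjoin κ (Set.range t ∪ (Set.range x ∪ Set.range y)) = ⊤

section

variable {m : UFun.{u, z}} {κ M Λ : Type u} [Field κ] [Field M] [Field Λ] [Algebra κ M]
  {l n : ℕ} {E : Fin l → WeierstrassCurve κ} [hEll : ∀ c, EllW (E c)]
  {K : IntermediateField κ M} {e : Fin n → Fin l} {x y : Fin n → M} (φ : M →+* Λ)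

lemma semi_unique {κ : Type w} [Field κ] {j : κ →+* Λ} {C M : Subfield Λ} {a b c : Fin n → κ}
    {X Y : Fin n → Λ} (F : Fam j C a b c X Y) (hM : M = adj C (Set.range X ∪ Set.range Y))
    {ρ ρ' : Equiv.Perm (Fin n)} {ε ε' : Fin n → ℤˣ} {h : M →+* M}
    (hs : IsSemi C X Y ρ ε h) (hs' : IsSemi C X Y ρ' ε' h) : ρ = ρ' ∧ ε = ε' := by
  have hXM : ∀ i, X i ∈ M := fun i => by rw [hM]; exact subset_adj _ _ (Or.inl ⟨i, rfl⟩)
  have hYM : ∀ i, Y i ∈ M := fun i => by rw [hM]; exact subset_adj _ _ (Or.inr ⟨i, rfl⟩)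
  have hinj : Function.Injective X := by
    intro i i' h
    by_contra hne
    apply F.ind i
    rw [h]
    exact subset_cl _ (Or.inr ⟨i', fun h' => hne h'.symm, rfl⟩)
  have h2 : (2 : Λ) ≠ 0 := by
    rw [← map_ofNat j 2, Ne, map_eq_zero]; exact F.two
  have key : ∀ i, ρ i = ρ' i ∧ ε i = ε' i := by
    intro i
    have e1 : ρ i = ρ' i := by
      apply hinj
      rw [← hs.x i ⟨X i, hXM i⟩ rfl, ← hs'.x i ⟨X i, hXM i⟩ rfl]
    refine ⟨e1, ?_⟩
    have e2 : ((ε i : ℤ) : Λ) * Y (ρ i) = ((ε' i : ℤ) : Λ) * Y (ρ i) := by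
      rw [← hs.y i ⟨Y i, hYM i⟩ rfl, hs'.y i ⟨Y i, hYM i⟩ rfl, e1]
    have e3 : Y (ρ i) ≠ 0 := by
      intro h0
      apply F.ind (ρ i)
      have h1 := F.hY (ρ i)
      rw [h0, zero_pow two_ne_zero] at h1
      rw [UnrH3.mem_cl]
      obtain ⟨T, hT⟩ : ∃ T, T = (C : Set Λ) ∪ X '' {l | l ≠ ρ i} := ⟨_, rfl⟩
      rw [← hT]
      have hj : ∀ z : κ, j z ∈ Subfield.closure T := fun z =>
        Subfield.subset_closure (by rw [hT]; exact Or.inl (F.jC z))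
      refine ⟨Polynomial.X ^ 3 + Polynomial.C ⟨_, hj (a (ρ i))⟩ * Polynomial.X ^ 2 +
        Polynomial.C ⟨_, hj (b (ρ i))⟩ * Polynomial.X + Polynomial.C ⟨_, hj (c (ρ i))⟩, ?_, ?_⟩
      · apply Polynomial.Monic.ne_zero
        monicity!
      · simp only [map_add, map_mul, map_pow, aeval_X, aeval_C]
        exact h1.symm
    have e4 := mul_right_cancel₀ e3 e2
    rcases Int.units_eq_one_or (ε i) with h | h <;>
      rcases Int.units_eq_one_or (ε' i) with h' | h' <;> rw [h, h'] at e4 ⊢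
    · exfalso; apply h2; push_cast at e4; linear_combination e4
    · exfalso; apply h2; push_cast at e4; linear_combination -e4
  exact ⟨Equiv.ext fun i => (key i).1, funext fun i => (key i).2⟩

variable {κ' : Type w} [Field κ'] {j : κ' →+* Λ} {a b c : Fin n → κ'}
  {G : Subgroup (M ≃ₐ[κ] M)} [Finite G] {ρ : G → Equiv.Perm (Fin n)}
  {ε : G → Fin n → ℤˣ} {X Y : Fin n → Λ} {M' : Subfield Λ} {θ : G →* (M' ≃+* M')}

lemma hasSign_iff (hM' : M' = adj (K.toSubfield.map φ) (Set.range X ∪ Set.range Y))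
    (F : Fam j (K.toSubfield.map φ) a b c X Y)
    (hA : ∀ g : G, IsAdm (K.toSubfield.map φ) X Y e (ρ g) (ε g) (θ g : M' →+* M')) (g : G)
    (I : Finset (Fin n)) (s : ℤˣ) :
    HasSign (K.toSubfield.map φ) X Y e I s (θ g : M' →+* M') ↔ HasSgn (ρ g) (ε g) I s := by
  constructor
  · rintro ⟨ρ', ε', hI, hA', hs⟩
    obtain ⟨h1, h2⟩ := semi_unique F hM' (hA g).s hA'.s
    subst h1
    rw [h2]
    exact ⟨hI, hs⟩
  · rintro ⟨hI, hs⟩
    exact ⟨ρ g, ε g, hI, hA g, hs⟩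

lemma fixC_eq (hM' : M' = adj (K.toSubfield.map φ) (Set.range X ∪ Set.range Y))
    (F : Fam j (K.toSubfield.map φ) a b c X Y)
    (hθ : ∀ g : G, ∀ z : M, ∀ w : M', (w : Λ) = φ z → (θ g w : Λ) = φ ((g : M ≃ₐ[κ] M) z))
    (hA : ∀ g : G, IsAdm (K.toSubfield.map φ) X Y e (ρ g) (ε g) (θ g : M' →+* M'))
    (I : Finset (Fin n)) [Finite θ.range] :
    fixC (K.toSubfield.map φ) (GI hM' e I θ.range) =
      (fixI K G ρ ε I).toSubfield.map φ := by
  have hC : ∀ z : M, z ∈ K → φ z ∈ M' := fun z hz => by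
    rw [hM']; exact le_adj _ _ ⟨z, hz, rfl⟩
  ext z
  constructor
  · rintro ⟨w, hw, hz, hfix⟩
    obtain ⟨k, hk, rfl⟩ := hz
    refine ⟨k, ⟨hk, fun g hg => ?_⟩, rfl⟩
    have h1 := hfix (θ g) ⟨⟨g, rfl⟩, (hasSign_iff φ hM' F hA g I 1).mpr hg⟩
    have h3 := hθ g k w hw
    rw [h1, hw] at h3
    exact φ.injective h3.symm
  · rintro ⟨k, ⟨hk, hk'⟩, rfl⟩
    refine ⟨⟨φ k, hC k hk⟩, rfl, ⟨k, hk, rfl⟩, ?_⟩
    rintro h ⟨⟨g, rfl⟩, hs⟩
    have h1 := hk' g ((hasSign_iff φ hM' F hA g I 1).mp hs)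
    apply Subtype.ext
    rw [hθ g k _ rfl, h1]

end

end UnrA
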