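import Pool.Agent.Lib.MP_859dd5_ag.EQ.Aff4
import Pool.Agent.Lib.MP_859dd5_ag.Mg.G064

/-!
# Affine actions: transfer of domination
-/

namespace UnrA

universe u v w z

open Polynomial WeierstrassCurve
open scoped Classical
open UnrH3 (Pt ptX ptY ptMap Gen InCl cl subset_cl adj le_adj subset_adj adj_le IndFam IndSet
  exists_factor)
open UnrH3.Ell (EllW OnW Fam crv npt pick)

lemma mem_cl_of_alg {k R Λ : Type u} [Field k] [Field R] [Field Λ] [Algebra k R]
    (f : k →+* Λ) (g : R →+* Λ) (h : ∀ z, g (algebraMap k R z) = f z) {r : R}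
    (hr : IsAlgebraic k r) {T : Set Λ} (hT : ∀ z, f z ∈ Subfield.closure T) : g r ∈ cl T := by
  obtain ⟨f', hf'⟩ : ∃ f' : k →+* Subfield.closure T, ∀ z, (f' z : Λ) = f z :=
    ⟨f.codRestrict _ hT, fun _ => rfl⟩
  obtain ⟨p, hp0, hp⟩ := hr
  rw [UnrH3.mem_cl]
  refine ⟨p.map f', (Polynomial.map_ne_zero_iff f'.injective).mpr hp0, ?_⟩
  rw [aeval_def, eval₂_map]
  have h1 : (algebraMap (Subfield.closure T) Λ).comp f' = g.comp (algebraMap k R) := by
    ext z
    rw [RingHom.comp_apply, RingHom.comp_apply, h]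
    exact hf' z
  rw [h1, ← hom_eval₂, ← aeval_def, hp, map_zero]

/-- The first part of a set of indices. -/
def fstPart {μ n : ℕ} (I' : Finset (Fin (μ + n))) : Finset (Fin μ) :=
  Finset.univ.filter fun i => Fin.castAdd n i ∈ I'

lemma prod_parts {μ n : ℕ} (I' : Finset (Fin (μ + n))) (f : Fin (μ + n) → ℂ) :
    ∏ i ∈ I', f i = (∏ j ∈ fstPart I', f (Fin.castAdd n j)) *
      ∏ i ∈ sndPart I', f (Fin.natAdd μ i) := by
  have h1 : ∏ i ∈ I', f i = ∏ i : Fin (μ + n), if i ∈ I' then f i else 1 := by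
    rw [Finset.prod_ite_mem, Finset.univ_inter]
  rw [h1, Fin.prod_univ_add]
  congr 1
  · unfold fstPart
    rw [Finset.prod_filter]
  · unfold sndPart
    rw [Finset.prod_filter]

/-- The number `∏_S (q ^ w - ∏_{i ∈ I} π_S (e i) * ∏_{j ∈ J} π_S (e' j))`. -/
noncomputable def eigVal {l n μ : ℕ} (q w : ℕ) (π : Fin l → ℂ) (e : Fin n → Fin l)
    (I : Finset (Fin n)) (e' : Fin μ → Fin l) (J : Finset (Fin μ)) : ℂ :=
  ∏ S : Finset (Fin l), ((q : ℂ) ^ w -
    (∏ i ∈ I, if e i ∈ S then π (e i) else starRingEnd ℂ (π (e i))) *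
      ∏ j ∈ J, if e' j ∈ S then π (e' j) else starRingEnd ℂ (π (e' j)))

section

variable {m : UFun.{u, z}} {κ Λ k : Type u} [Field κ] [Field Λ] [IsAlgClosed Λ] [Field k]
  [Algebra κ k] {l n : ℕ} {E : Fin l → WeierstrassCurve κ} [hEll : ∀ c, EllW (E c)]
  {e : Fin n → Fin l} {C : Subfield Λ} {X Y : Fin n → Λ} (f : k →+* Λ)

/-- The embedded extension. -/
theorem dom_data (h2 : (2 : κ) ≠ 0)
    (F : Fam (f.comp (algebraMap κ k)) C (fun i => (E (e i)).a₂)
      (fun i => (E (e i)).a₄) (fun i => (E (e i)).a₆) X Y) (hfC : f.fieldRange ≤ C)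
    {μ : ℕ} {e' : Fin μ → Fin l} {d : ℕ} (hD : Dominated E k e' d) :
    ∃ (r : ℕ) (t : Fin r → Λ) (x' y' : Fin μ → Λ) (T R : Subfield Λ) (hkR : f.fieldRange ≤ R),
      dg hkR = d ∧ T = adj (f.comp (algebraMap κ k)).fieldRange (Set.range t) ∧
      IndSet (f.comp (algebraMap κ k)).fieldRange (Set.range t) ∧
      Fam (f.comp (algebraMap κ k)) T (fun i => (E (e' i)).a₂)
        (fun i => (E (e' i)).a₄) (fun i => (E (e' i)).a₆) x' y' ∧
      R = adj T (Set.range x' ∪ Set.range y') ∧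
      Fam (f.comp (algebraMap κ k)) R (fun i => (E (e i)).a₂)
        (fun i => (E (e i)).a₄) (fun i => (E (e i)).a₆) X Y := by
  obtain ⟨R, _, _, _, _, _, r, t, x, y, hd, hind, hns, htop⟩ := hD
  obtain ⟨g, hle, hdg, hgk, hgκ, hgr, hI, hIF⟩ := exists_dom f hind htop
  have hal : Algebra.IsAlgebraic k R := inferInstance
  refine ⟨r, fun i => g (t i), fun i => g (x i), fun i => g (y i), _, g.fieldRange, hle,
    hdg.trans hd, rfl, hI, ⟨h2, fun i => (hEll (e' i)).disc,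
      fun z => le_adj _ _ ⟨z, rfl⟩, hIF, fun i => ?_⟩, hgr, ?_⟩
  · have h1 := congrArg g (UnrH3.Ell.eq_of_ns (hns i))
    rw [map_pow, map_add, map_add, map_add, map_mul, map_mul, map_pow, map_pow] at h1
    have e1 : g ((E (e' i))⁄R).a₂ = f (algebraMap κ k (E (e' i)).a₂) := hgκ _
    have e2 : g ((E (e' i))⁄R).a₄ = f (algebraMap κ k (E (e' i)).a₄) := hgκ _
    have e3 : g ((E (e' i))⁄R).a₆ = f (algebraMap κ k (E (e' i)).a₆) := hgκ _
    rw [e1, e2, e3] at h1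
    exact h1
  · refine F.mono (fun z => hle ⟨_, rfl⟩) ?_
    rintro _ ⟨z, rfl⟩
    refine mem_cl_of_alg f g hgk (Algebra.IsAlgebraic.isAlgebraic z) fun w => ?_
    exact Subfield.subset_closure (hfC ⟨w, rfl⟩)

end

end UnrA
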