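import Pool.Agent.Lib.MP_859dd5_ag.Mg.G066

/-!
# Families of independent points, classes of given parity, all coefficients
-/

namespace UnrA

universe u v w z

open Polynomial WeierstrassCurve
open scoped Classical
open UnrH3 (cl subset_cl adj le_adj subset_adj adj_le IndFam hom_gen_id family_M family_single_M
  mem_fixF of_mem_fixF fixF cl_mono cl_le)
open UnrH3.Ell (EllW OnW Fam IsFr crv crv_frob crv_ell fix_of_fix npt)

variable {m : UFun.{u, z}} {Λ : Type u} [Field Λ] {n : ℕ}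

/-- The endomorphism `g` of `M` changes the sign of `Y j` and fixes `C`, the `X i` and the other
`Y i`. -/
structure IsFlip (C : Subfield Λ) (X Y : Fin n → Λ) {M : Subfield Λ} (j : Fin n)
    (g : M →+* M) : Prop where
  c : ∀ z : M, (z : Λ) ∈ C → g z = z
  x : ∀ i, ∀ z : M, (z : Λ) = X i → g z = z
  y : ∀ i, ∀ z : M, (z : Λ) = Y i → g z = if i = j then -z else z

/-- The class `γ` is odd in the variables with index in `I` and even in the other variables. -/
def Par (C : Subfield Λ) (X Y : Fin n → Λ) (I : Finset (Fin n)) {M : Subfield Λ}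
    (γ : KM m M) : Prop :=
  ∀ j, ∀ g : M →+* M, IsFlip C X Y j g → KM.map m g γ = if j ∈ I then -γ else γ

/-- A number killing all the torsion which occurs. -/
def TT (n : ℕ) : ℕ := 2 ^ (10 + (n + 2) * n)

lemma tor_TT_of_dvd {A : Type*} [AddCommGroup A] {x : A} {c : ℕ} (h : c ∣ 1024)
    (hx : x ∈ tor c A) : x ∈ tor (TT n) A := by
  refine tor_mono (h.trans ?_) hx
  unfold TT
  rw [pow_add]
  exact Dvd.intro _ rfl

/-- The group of the unramified classes of given parity. -/
def parUnr (m : UFun.{u, z}) (C M : Subfield Λ) (X Y : Fin n → Λ) (I : Finset (Fin n)) :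
    AddSubgroup (KM m M) where
  carrier := {γ | Unr γ ∧ Par C X Y I γ}
  add_mem' := by
    rintro γ γ' ⟨h1, h2⟩ ⟨h3, h4⟩
    refine ⟨h1.add h3, fun i g hg => ?_⟩
    rw [map_add, h2 i g hg, h4 i g hg]
    split_ifs
    · rw [neg_add]
    · rfl
  zero_mem' := ⟨Unr.zero, fun i g hg => by rw [map_zero]; simp⟩
  neg_mem' := by
    rintro γ ⟨h1, h2⟩
    refine ⟨h1.neg, fun i g hg => ?_⟩
    rw [map_neg, h2 i g hg]
    split_ifs <;> rfl

section fam

variable {C M : Subfield Λ} {X Y : Fin n → Λ} {Q : ℕ} {I : Finset (Fin n)}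

/-- The Frobenius preserves the parity. -/
lemma par_fr (hM : M = adj C (Set.range X ∪ Set.range Y)) (hQ : Odd Q)
    {J : Finset (Fin n)} {g : M →+* M} (h : IsFr Q C X Y J g) {γ : KM m M}
    (ho : Par C X Y I γ) : Par C X Y I (KM.map m g γ) := by
  intro j g' hg'
  have h1 : g'.comp g = g.comp g' := by
    apply hom_gen_id hM
    · intro z hz
      rw [RingHom.comp_apply, RingHom.comp_apply, h.c z hz, hg'.c z hz, h.c z hz]
    · rintro z (⟨i, hi⟩ | ⟨i, hi⟩)
      · have h3 : g' z = z := hg'.x i z hi.symm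
        rw [RingHom.comp_apply, RingHom.comp_apply, h3, h.x i z hi.symm]
        split_ifs
        · rw [map_pow, h3]
        · exact h3
      · by_cases hij : i = j
        · have h3 : g' z = -z := by rw [hg'.y i z hi.symm, if_pos hij]
          rw [RingHom.comp_apply, RingHom.comp_apply, h3, map_neg, h.y i z hi.symm]
          split_ifs
          · rw [map_pow, h3, hQ.neg_pow]
          · exact h3
        · have h3 : g' z = z := by rw [hg'.y i z hi.symm, if_neg hij]
          rw [RingHom.comp_apply, RingHom.comp_apply, h3, h.y i z hi.symm]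
          split_ifs
          · rw [map_pow, h3]
          · exact h3
  rw [KM.map_map, h1, ← KM.map_map, ho j g' hg']
  split_ifs
  · rw [map_neg]
  · rfl

/-- Oddness at one variable over the field generated by the other ones. -/
lemma Par.oddAt_single {γ : KM m M} (ho : Par C X Y I γ) {i : Fin n} (hi : i ∈ I)
    {K : Subfield Λ} (hCK : C ≤ K) (hK : K = adj C (X '' {t | t ≠ i} ∪ Y '' {t | t ≠ i})) :
    OddAt K (Y i) {X i} γ := by
  intro g g1 g2 g3
  have h := ho i g ⟨fun z hz => g1 z (hCK hz), ?_, ?_⟩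
  · rw [h, if_pos hi]
  · intro t z hz
    by_cases h1 : t = i
    · subst h1; exact g2 z hz
    · exact g1 z (by rw [hz, hK]; exact subset_adj _ _ (Or.inl ⟨t, h1, rfl⟩))
  · intro t z hz
    by_cases h1 : t = i
    · subst h1; rw [if_pos rfl]; exact g3 z hz
    · rw [if_neg h1]
      exact g1 z (by rw [hz, hK]; exact subset_adj _ _ (Or.inr ⟨t, h1, rfl⟩))

/-- Oddness at two variables over the field generated by the other ones. -/
lemma Par.oddAt_pair {γ : KM m M} (ho : Par C X Y I γ) {i l : Fin n} (hil : i ≠ l) (hi : i ∈ I)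
    (hl : l ∈ I) {K : Subfield Λ} (hCK : C ≤ K)
    (hK : K = adj C (X '' {t | t ≠ i ∧ t ≠ l} ∪ Y '' {t | t ≠ i ∧ t ≠ l})) :
    OddAt K (Y i) {X i, X l, Y l} γ ∧ OddAt K (Y l) {X i, Y i, X l} γ := by
  refine ⟨?_, ?_⟩
  · intro g g1 g2 g3
    have h := ho i g ⟨fun z hz => g1 z (hCK hz), ?_, ?_⟩
    · rw [h, if_pos hi]
    · intro t z hz
      by_cases h1 : t = i
      · subst h1; exact g2 z (by rw [hz]; simp)
      by_cases h2 : t = l
      · subst h2; exact g2 z (by rw [hz]; simp)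
      exact g1 z (by rw [hz, hK]; exact subset_adj _ _ (Or.inl ⟨t, ⟨h1, h2⟩, rfl⟩))
    · intro t z hz
      by_cases h1 : t = i
      · subst h1; rw [if_pos rfl]; exact g3 z hz
      rw [if_neg h1]
      by_cases h2 : t = l
      · subst h2; exact g2 z (by rw [hz]; simp)
      exact g1 z (by rw [hz, hK]; exact subset_adj _ _ (Or.inr ⟨t, ⟨h1, h2⟩, rfl⟩))
  · intro g g1 g2 g3
    have h := ho l g ⟨fun z hz => g1 z (hCK hz), ?_, ?_⟩
    · rw [h, if_pos hl]
    · intro t z hz
      by_cases h1 : t = i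
      · subst h1; exact g2 z (by rw [hz]; simp)
      by_cases h2 : t = l
      · subst h2; exact g2 z (by rw [hz]; simp)
      exact g1 z (by rw [hz, hK]; exact subset_adj _ _ (Or.inl ⟨t, ⟨h1, h2⟩, rfl⟩))
    · intro t z hz
      by_cases h1 : t = l
      · subst h1; rw [if_pos rfl]; exact g3 z hz
      rw [if_neg h1]
      by_cases h2 : t = i
      · subst h2; exact g2 z (by rw [hz]; simp)
      exact g1 z (by rw [hz, hK]; exact subset_adj _ _ (Or.inr ⟨t, ⟨h2, h1⟩, rfl⟩))

end fam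

section fam

variable {κ : Type w} [Field κ] {j : κ →+* Λ} {C M : Subfield Λ} {a b c : Fin n → κ}
  {X Y : Fin n → Λ} {I : Finset (Fin n)} {p s : ℕ} [hp : Fact p.Prime] [hpΛ : CharP Λ p]

/-- Moving the Frobenius from one variable to another one with the same curve. -/
lemma fam_move [Fintype κ] (F : Fam j C a b c X Y)
    (hM : M = adj C (Set.range X ∪ Set.range Y)) (hcard : Fintype.card κ = p ^ s)
    {i l : Fin n} (ha : a i = a l) (hb : b i = b l) (hc : c i = c l) {g g' : M →+* M}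
    (h : IsFr (p ^ s) C X Y {i} g) (h' : IsFr (p ^ s) C X Y {l} g') {γ : KM m M} (hu : Unr γ)
    (ho : Par C X Y I γ) (hi : i ∈ I) (hl : l ∈ I) :
    KM.map m g γ - KM.map m g' γ ∈ tor 64 _ := by
  by_cases hil : i = l
  · subst hil
    rw [h.unique hM h', sub_self]
    exact zero_mem _
  obtain ⟨K, hK⟩ : ∃ K, K = adj C (X '' {t | t ≠ i ∧ t ≠ l} ∪ Y '' {t | t ≠ i ∧ t ≠ l}) :=
    ⟨_, rfl⟩
  have hCK : C ≤ K := by rw [hK]; exact le_adj _ _
  obtain ⟨hx₁, hx₂⟩ := F.fact i l hil K hK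
  have hM' := family_M hM i l K hK
  obtain ⟨ho1, ho2⟩ := ho.oddAt_pair hil hi hl hCK hK
  have hpK : CharP K p := K.subtype.charP K.subtype.injective p
  have := F.ell hCK i
  have h₂ : OnW (crv (j.codRestrict K fun z => hCK (F.jC z)) (a i) (b i) (c i)) (X l) (Y l) := by
    rw [ha, hb, hc]; exact F.onW hCK l
  have gK := fix_of_fix hM hK h.c (fun t ht => h.fix (by simpa using ht.1))
  have g'K := fix_of_fix hM hK h'.c (fun t ht => h'.fix (by simpa using ht.2))
  exact frob_pair hx₁ hx₂ (F.onW hCK i) h₂ hM' s (crv_frob _ hcard) g g' gK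
    (fun z hz => by rw [h.x i z hz, if_pos (Finset.mem_singleton_self i)])
    (fun z hz => by rw [h.y i z hz, if_pos (Finset.mem_singleton_self i)])
    (h.fix (by simpa using Ne.symm hil)).1 (h.fix (by simpa using Ne.symm hil)).2 g'K
    (h'.fix (by simpa using hil)).1 (h'.fix (by simpa using hil)).2
    (fun z hz => by rw [h'.x l z hz, if_pos (Finset.mem_singleton_self l)])
    (fun z hz => by rw [h'.y l z hz, if_pos (Finset.mem_singleton_self l)]) hu ho1 ho2

/-- The characteristic equation of the Frobenius in one variable. -/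
lemma fam_char [Fintype κ] (F : Fam j C a b c X Y) (hs : 0 < s)
    (hM : M = adj C (Set.range X ∪ Set.range Y)) (hcard : Fintype.card κ = p ^ s)
    {i : Fin n} {g : M →+* M} (h : IsFr (p ^ s) C X Y {i} g) {γ : KM m M} (hu : Unr γ)
    (ho : Par C X Y I γ) (hi : i ∈ I) :
    KM.map m g (KM.map m g γ) - ((p : ℤ) ^ s - npt (a i) (b i) (c i)) • KM.map m g γ +
      ((p : ℤ) ^ s) • γ ∈ tor 1024 _ := by
  obtain ⟨K, hK⟩ : ∃ K, K = adj C (X '' {t | t ≠ i} ∪ Y '' {t | t ≠ i}) := ⟨_, rfl⟩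
  have hCK : C ≤ K := by rw [hK]; exact le_adj _ _
  have hpK : CharP K p := K.subtype.charP K.subtype.injective p
  have := F.ell hCK i
  have gK := fix_of_fix hM hK h.c (fun t ht => h.fix (by simpa using ht))
  have key := single_char (p := p) (s := s) (crv_frob (j.codRestrict K fun z => hCK (F.jC z))
    (a := a i) (b := b i) (c := c i) hcard) hs
    (F.single_fact i K hK) (F.onW hCK i) (family_single_M hM i K hK) hu
    (ho.oddAt_single hi hCK hK) g gK
    (fun z hz => by rw [h.x i z hz, if_pos (Finset.mem_singleton_self i)])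
    (fun z hz => by rw [h.y i z hz, if_pos (Finset.mem_singleton_self i)])
  rw [UnrH3.Ell.tr_eq _ hs hcard (j.codRestrict K fun z => hCK (F.jC z)) (a := a i) (b := b i)
    (c := c i) rfl rfl rfl] at key
  exact key

omit hp hpΛ in
/-- The exchange of two odd variables with the same curve acts by `-1`. -/
lemma fam_swap (F : Fam j C a b c X Y)
    (hM : M = adj C (Set.range X ∪ Set.range Y))
    {i l : Fin n} (hil : i ≠ l) (ha : a i = a l) (hb : b i = b l) (hc : c i = c l) {g : M →+* M}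
    (gC : ∀ z : M, (z : Λ) ∈ C → g z = z)
    (gX : ∀ t, ∀ z : M, (z : Λ) = X t → (g z : Λ) = X (Equiv.swap i l t))
    (gY : ∀ t, ∀ z : M, (z : Λ) = Y t → (g z : Λ) = Y (Equiv.swap i l t))
    {γ : KM m M} (hu : Unr γ) (ho : Par C X Y I γ) (hi : i ∈ I) (hl : l ∈ I) :
    KM.map m g γ + γ ∈ tor 64 _ := by
  obtain ⟨K, hK⟩ : ∃ K, K = adj C (X '' {t | t ≠ i ∧ t ≠ l} ∪ Y '' {t | t ≠ i ∧ t ≠ l}) :=
    ⟨_, rfl⟩
  have hCK : C ≤ K := by rw [hK]; exact le_adj _ _
  obtain ⟨hx₁, hx₂⟩ := F.fact i l hil K hK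
  have hM' := family_M hM i l K hK
  obtain ⟨ho1, ho2⟩ := ho.oddAt_pair hil hi hl hCK hK
  have := F.ell hCK i
  have h₂ : OnW (crv (j.codRestrict K fun z => hCK (F.jC z)) (a i) (b i) (c i)) (X l) (Y l) := by
    rw [ha, hb, hc]; exact F.onW hCK l
  have gK := fix_of_fix hM hK gC (fun t ht => ⟨fun z hz => Subtype.ext (by
    rw [gX t z hz, Equiv.swap_apply_of_ne_of_ne ht.1 ht.2, hz]), fun z hz => Subtype.ext (by
    rw [gY t z hz, Equiv.swap_apply_of_ne_of_ne ht.1 ht.2, hz])⟩)
  exact swap_pair hx₁ hx₂ (F.onW hCK i) h₂ hM' g gK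
    (fun z hz => by rw [gX i z hz, Equiv.swap_apply_left])
    (fun z hz => by rw [gY i z hz, Equiv.swap_apply_left])
    (fun z hz => by rw [gX l z hz, Equiv.swap_apply_right])
    (fun z hz => by rw [gY l z hz, Equiv.swap_apply_right]) hu ho1 ho2

omit hp hpΛ in
/-- The exchange of two variables with the same curve exists. -/
lemma fam_exists_swap (F : Fam j C a b c X Y)
    (hM : M = adj C (Set.range X ∪ Set.range Y))
    {i l : Fin n} (hil : i ≠ l) (ha : a i = a l) (hb : b i = b l) (hc : c i = c l) :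
    ∃ g : M →+* M, (∀ z : M, (z : Λ) ∈ C → g z = z) ∧
      (∀ t, ∀ z : M, (z : Λ) = X t → (g z : Λ) = X (Equiv.swap i l t)) ∧
      (∀ t, ∀ z : M, (z : Λ) = Y t → (g z : Λ) = Y (Equiv.swap i l t)) := by
  obtain ⟨K, hK⟩ : ∃ K, K = adj C (X '' {t | t ≠ i ∧ t ≠ l} ∪ Y '' {t | t ≠ i ∧ t ≠ l}) :=
    ⟨_, rfl⟩
  have hCK : C ≤ K := by rw [hK]; exact le_adj _ _
  obtain ⟨hx₁, hx₂⟩ := F.fact i l hil K hK
  have hM' := family_M hM i l K hK
  have := F.ell hCK i
  have h₂ : OnW (crv (j.codRestrict K fun z => hCK (F.jC z)) (a i) (b i) (c i)) (X l) (Y l) := by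
    rw [ha, hb, hc]; exact F.onW hCK l
  obtain ⟨g, g1, g2, g3, g4, g5⟩ := swap_exists hx₁ hx₂ (F.onW hCK i) h₂ hM'
  refine ⟨g, fun z hz => g1 z (hCK hz), ?_, ?_⟩
  · intro t z hz
    by_cases h1 : t = i
    · subst h1; rw [g2 z hz, Equiv.swap_apply_left]
    by_cases h3 : t = l
    · subst h3; rw [g4 z hz, Equiv.swap_apply_right]
    rw [g1 z (by rw [hz, hK]; exact subset_adj _ _ (Or.inl ⟨t, ⟨h1, h3⟩, rfl⟩)),
      Equiv.swap_apply_of_ne_of_ne h1 h3, hz]
  · intro t z hz
    by_cases h1 : t = i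
    · subst h1; rw [g3 z hz, Equiv.swap_apply_left]
    by_cases h3 : t = l
    · subst h3; rw [g5 z hz, Equiv.swap_apply_right]
    rw [g1 z (by rw [hz, hK]; exact subset_adj _ _ (Or.inr ⟨t, ⟨h1, h3⟩, rfl⟩)),
      Equiv.swap_apply_of_ne_of_ne h1 h3, hz]

end fam

end UnrA
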