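import Pool.Agent.Lib.MP_859dd5_ag.EQ.MulA
import Pool.Agent.Lib.MP_859dd5_ag.EQ.Fam

/-!
# Noncommuting endomorphisms
-/

namespace UnrA

universe u v w z

open Polynomial WeierstrassCurve
open scoped Classical
open UnrH3 (GoodW Pt FF F2 i2 P2 Q2 ptX ptY ptMap ptX_map ptY_map Gen Ind InCl liftPt base gpt nu
  NatEnd gen_gpt range_in_cl subset_cl cl_le cl_mono cl InCl_self ind_P2_Q2 lift2 ptX_neg ptX_gpt
  InCl_add_iff_right Gen_map_iff liftPt_gpt liftPt_base ptMap_comp nu_base liftPt_P2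
  exists_pair_iso adj lift2_P2 lift2_Q2)
open UnrH3.Ell (EllW antiG gpt_mem_antiG natE mem_natE OnW exists_pair)

/-- The endomorphisms `f` and `f'` of the groups of points over `Ω` and `Ω'` are compatible. -/
def PtCompat {S : Type v} [Field S] (W : WeierstrassCurve S) {Ω Ω' : Type u} [Field Ω]
    [Algebra S Ω] [Field Ω'] [Algebra S Ω'] (f : (W⁄Ω).toAffine.Point →+ (W⁄Ω).toAffine.Point)
    (f' : (W⁄Ω').toAffine.Point →+ (W⁄Ω').toAffine.Point) : Prop :=
  ∀ (g : Ω →ₐ[S] Ω') (P : (W⁄Ω).toAffine.Point),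
    Affine.Point.map (W' := W) g (f P) = f' (Affine.Point.map (W' := W) g P)

/-- A natural endomorphism of the groups of points of a curve over the extensions of `S`. -/
structure PtEnd {S : Type v} [Field S] (W : WeierstrassCurve S) where
  /-- the endomorphism of the group of points over an extension -/
  toFun : ∀ (Ω : Type u) [Field Ω] [Algebra S Ω], (W⁄Ω).toAffine.Point →+ (W⁄Ω).toAffine.Point
  compat : ∀ (Ω Ω' : Type u) [Field Ω] [Algebra S Ω] [Field Ω'] [Algebra S Ω'],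
    PtCompat W (toFun Ω) (toFun Ω')

/-- The endomorphism `h (f g - g f)` of an abelian group is the multiplication by `N`. -/
def IsTriple {A : Type*} [AddCommGroup A] (f g h : A →+ A) (N : ℕ) : Prop :=
  ∀ P, h (f (g P)) = h (g (f P)) + N • P

/-- The curve has endomorphisms `f, g, h` such that `h (f g - g f)` is the multiplication by
`N > 0`. -/
def IsNoncomm {S : Type v} [Field S] (W : WeierstrassCurve S) (N : ℕ) : Prop :=
  0 < N ∧ ∃ f g h : PtEnd.{u} W, ∀ (Ω : Type u) [Field Ω] [Algebra S Ω],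
    IsTriple (f.toFun Ω) (g.toFun Ω) (h.toFun Ω) N

section ends

variable {S : Type v} [Field S] {W : WeierstrassCurve S}

lemma PtEnd.nat (φ : PtEnd.{u} W) (Ω Ω' : Type u) [Field Ω] [Algebra S Ω] [Field Ω'] [Algebra S Ω']
    (g : Ω →ₐ[S] Ω') (P : (W⁄Ω).toAffine.Point) :
    Affine.Point.map (W' := W) g (φ.toFun Ω P) = φ.toFun Ω' (Affine.Point.map (W' := W) g P) :=
  φ.compat Ω Ω' g P

variable [hE : EllW W] {K : Type u} [Field K] [Algebra S K]

omit hE in
lemma PtEnd.mem_natE (φ : PtEnd.{u} W) : ∃ F : AddMonoid.End (Pt W (FF W K)),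
    (∀ A, F A = φ.toFun _ A) ∧ F ∈ natE W K :=
  ⟨φ.toFun (FF W K), fun _ => rfl, UnrH3.Ell.mem_natE.mpr fun g _ A => φ.nat _ _ g A⟩

/-- The value at the generic point is zero or generic. -/
lemma PtEnd.gen (φ : PtEnd.{u} W) (h : φ.toFun _ (gpt W K) ≠ 0) :
    Gen (base W K) (φ.toFun _ (gpt W K)) := by
  obtain ⟨F, hF, hFn⟩ := φ.mem_natE (K := K)
  have h1 : F (gpt W K) ≠ 0 := by rw [hF]; exact h
  have h2 := gen_natE hFn h1
  rw [hF] at h2
  exact h2

omit hE in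
lemma PtEnd.of_zero [GoodW W] (φ : PtEnd.{u} W) (h : φ.toFun _ (gpt W K) = 0) {Ω : Type u}
    [Field Ω] [Algebra S Ω] {i : K →ₐ[S] Ω} {P : Pt W Ω} (hP : Gen i P) : φ.toFun Ω P = 0 := by
  have h1 := φ.nat _ _ (liftPt i P hP) (gpt W K)
  rw [h, map_zero] at h1
  have h2 : Affine.Point.map (W' := W) (liftPt i P hP) (gpt W K) = P := liftPt_gpt i P hP
  rw [h2] at h1
  exact h1.symm

/-- Composition of natural endomorphisms. -/
noncomputable def PtEnd.comp (φ ψ : PtEnd.{u} W) : PtEnd.{u} W where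
  toFun Ω _ _ := (φ.toFun Ω).comp (ψ.toFun Ω)
  compat Ω Ω' _ _ _ _ g P := by
    rw [AddMonoidHom.comp_apply, φ.nat, ψ.nat]; rfl

omit hE in
lemma PtEnd.comp_toFun (φ ψ : PtEnd.{u} W) {Ω : Type u} [Field Ω] [Algebra S Ω] (P : Pt W Ω) :
    (φ.comp ψ).toFun Ω P = φ.toFun Ω (ψ.toFun Ω P) := rfl

lemma PtEnd.comp_ne_zero_left (φ ψ : PtEnd.{u} W) (h : (φ.comp ψ).toFun _ (gpt W K) ≠ 0) :
    φ.toFun _ (gpt W K) ≠ 0 := by
  intro h0
  apply h
  rw [PtEnd.comp_toFun]
  by_cases h1 : ψ.toFun _ (gpt W K) = 0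
  · rw [h1, map_zero]
  · exact φ.of_zero h0 (ψ.gen h1)

omit hE in
lemma PtEnd.comp_ne_zero_right (φ ψ : PtEnd.{u} W) {Ω : Type u} [Field Ω] [Algebra S Ω]
    {P : Pt W Ω} (h : (φ.comp ψ).toFun Ω P ≠ 0) : ψ.toFun Ω P ≠ 0 := by
  intro h0
  apply h
  rw [PtEnd.comp_toFun, h0, map_zero]

omit hE in
/-- The values at algebraic points are algebraic. -/
lemma PtEnd.inCl (φ : PtEnd.{u} W) {Ω : Type u} [Field Ω] [Algebra S Ω] {T : Set Ω}
    (hT : ∀ s : S, algebraMap S Ω s ∈ cl T) {P : Pt W Ω} (hP : InCl T P) :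
    InCl T (φ.toFun Ω P) := by
  let _ : Algebra S (cl T) := ((algebraMap S Ω).codRestrict (cl T) hT).toAlgebra
  let g : cl T →ₐ[S] Ω := { (cl T).subtype with commutes' := fun _ => rfl }
  obtain ⟨P', hP'⟩ : ∃ P' : Pt W (cl T), ptMap g P' = P := by
    have hin := hP.ptIn hT
    rcases P with _ | ⟨x, y, hxy⟩
    · exact ⟨0, map_zero _⟩
    · have h1 : (W⁄(cl T)).toAffine.Nonsingular ⟨x, hin.1⟩ ⟨y, hin.2⟩ :=
        (W.toAffine.baseChange_nonsingular (f := g) (cl T).subtype.injective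
          (⟨x, hin.1⟩ : cl T) (⟨y, hin.2⟩ : cl T)).mp hxy
      exact ⟨.some _ _ h1, rfl⟩
  have h1 := φ.nat _ _ g P'
  change ptMap g _ = φ.toFun Ω (ptMap g P') at h1
  rw [hP'] at h1
  rw [← h1]
  change ptX _ ∈ cl T
  rw [ptX_map]
  exact (φ.toFun _ P' |> ptX).2

/-- A natural endomorphism which is not zero at the generic points is finite. -/
noncomputable def PtEnd.toNatEnd (φ : PtEnd.{u} W)
    (h : ∀ (K : Type u) [Field K] [Algebra S K], φ.toFun _ (gpt W K) ≠ 0) : NatEnd.{u} W where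
  toFun := φ.toFun
  nat := φ.nat
  inCl Ω _ _ T hT P := by
    refine ⟨fun h1 => ?_, fun h1 => φ.inCl hT h1⟩
    by_contra h2
    let _ : Algebra S (cl T) := ((algebraMap S Ω).codRestrict (cl T) hT).toAlgebra
    let g : cl T →ₐ[S] Ω := { (cl T).subtype with commutes' := fun _ => rfl }
    have hr : cl (Set.range g) = cl T := by
      apply le_antisymm
      · apply cl_le
        rintro _ ⟨z, rfl⟩
        exact z.2
      · apply cl_le
        intro z hz
        exact subset_cl _ ⟨⟨z, subset_cl _ hz⟩, rfl⟩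
    have h3 : Gen g P := by
      intro h4
      apply h2
      change ptX P ∈ cl (Set.range g) at h4
      rw [hr] at h4
      exact h4
    have h4 : Gen ((liftPt g P h3).comp (base W (cl T)))
        (ptMap (liftPt g P h3) (φ.toFun _ (gpt W (cl T)))) :=
      (Gen_map_iff _ _ _).mpr (φ.gen (h (cl T)))
    rw [liftPt_base] at h4
    have h5 := φ.nat _ _ (liftPt g P h3) (gpt W (cl T))
    change ptMap _ _ = φ.toFun Ω (ptMap (liftPt g P h3) (gpt W (cl T))) at h5
    rw [liftPt_gpt] at h5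
    rw [h5] at h4
    apply h4
    change ptX _ ∈ cl (Set.range g)
    rw [hr]
    exact h1

/-- Composition of finite natural endomorphisms. -/
noncomputable def ncomp (φ ψ : NatEnd.{u} W) : NatEnd.{u} W where
  toFun Ω _ _ := (φ.toFun Ω).comp (ψ.toFun Ω)
  nat Ω Ω' _ _ _ _ g P := by
    rw [AddMonoidHom.comp_apply, φ.nat, ψ.nat]; rfl
  inCl Ω _ _ T hT P := by
    rw [AddMonoidHom.comp_apply, φ.inCl Ω T hT, ψ.inCl Ω T hT]

omit hE in
lemma ncomp_toFun (φ ψ : NatEnd.{u} W) {Ω : Type u} [Field Ω] [Algebra S Ω] (P : Pt W Ω) :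
    (ncomp φ ψ).toFun Ω P = φ.toFun Ω (ψ.toFun Ω P) := rfl

omit hE in
lemma natEnd_gen [GoodW W] (φ : NatEnd.{u} W) {P : Pt W (FF W K)} (h : Gen (base W K) P) :
    Gen (base W K) (φ.toFun _ P) :=
  fun h' => h ((φ.inCl _ _ (range_in_cl _) _).mp h')

lemma exists_noncomm {N : ℕ} (hN : IsNoncomm.{u} W N) : ∃ f g h : NatEnd.{u} W,
    ∀ (Ω : Type u) [Field Ω] [Algebra S Ω] (P : Pt W Ω),
      h.toFun Ω (f.toFun Ω (g.toFun Ω P)) = h.toFun Ω (g.toFun Ω (f.toFun Ω P)) + N • P := by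
  obtain ⟨hN0, f, g, h, hr⟩ := hN
  have key : ∀ (K : Type u) [Field K] [Algebra S K], f.toFun _ (gpt W K) ≠ 0 ∧
      g.toFun _ (gpt W K) ≠ 0 ∧ h.toFun _ (gpt W K) ≠ 0 := by
    intro K _ _
    by_cases h1 : (h.comp (f.comp g)).toFun _ (gpt W K) = 0
    · have h2 : (h.comp (g.comp f)).toFun _ (gpt W K) ≠ 0 := by
        intro h2
        have h3 := hr _ (gpt W K)
        rw [PtEnd.comp_toFun, PtEnd.comp_toFun] at h1 h2
        rw [h1, h2, zero_add] at h3
        exact (gen_nsmul (W := W) (K := K) hN0.ne').ne_zero h3.symm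
      have h3 := PtEnd.comp_ne_zero_right _ _ h2
      exact ⟨PtEnd.comp_ne_zero_right _ _ h3, PtEnd.comp_ne_zero_left _ _ h3,
        PtEnd.comp_ne_zero_left _ _ h2⟩
    · have h3 := PtEnd.comp_ne_zero_right _ _ h1
      exact ⟨PtEnd.comp_ne_zero_left _ _ h3, PtEnd.comp_ne_zero_right _ _ h3,
        PtEnd.comp_ne_zero_left _ _ h1⟩
  exact ⟨f.toNatEnd fun K _ _ => (key K).1, g.toNatEnd fun K _ _ => (key K).2.1,
    h.toNatEnd fun K _ _ => (key K).2.2, fun Ω _ _ P => hr Ω P⟩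

end ends

section kill

variable {m : UFun.{u, z}} {S : Type v} [Field S] {W : WeierstrassCurve S} [hE : EllW W]
  {K : Type u} [Field K] [Algebra S K]

/-- Noncommuting endomorphisms kill the doubly odd unramified classes. -/
theorem noncomm_kill {N : ℕ} (hN : IsNoncomm.{u} W N) {α : KM m (F2 W K)} (hu : Unr α)
    (h1 : Odd1 α) (h2 : OddCl α) : (1024 * N) • α = 0 := by
  have hN0 := hN.1
  obtain ⟨f, g, h, hr⟩ := exists_noncomm hN
  have hind := ind_P2_Q2 W K
  have b1 := bal h hu h1 h2 (f.ind_right (g.ind_right hind))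
  have b2 := bal (ncomp f g) hu h1 h2 (h.ind_left hind)
  rw [ncomp_toFun, ncomp_toFun] at b2
  have b3 := bal f hu h1 h2 (g.ind_left (h.ind_left hind))
  have b4 := bal g hu h1 h2 (h.ind_left (f.ind_right hind))
  have b5 := bal h hu h1 h2 (g.ind_right (f.ind_right hind))
  have b6 := tor_trans (tor_symm b1) (tor_trans (tor_symm b2) (tor_trans b3 (tor_trans b4 b5)))
  rw [ev2_eq_ev (h.ind_right (f.ind_right (g.ind_right hind))),
    ev2_eq_ev (h.ind_right (g.ind_right (f.ind_right hind))), liftPt_P2] at b6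
  have hQ : Q2 W K = gpt W (FF W K) := rfl
  rw [hQ] at b6
  have hg : Gen (base W (FF W K)) (gpt W (FF W K)) := gen_gpt
  have hB := gen_nsmul (W := W) (K := FF W K) hN0.ne'
  have hA := natEnd_gen h (natEnd_gen g (natEnd_gen f hg))
  have hAB := natEnd_gen h (natEnd_gen f (natEnd_gen g hg))
  rw [hr] at hAB b6
  have b7 := h2.add' hu hA hB hAB
  have b8 := ev_nsmul_pt hu h2 N
  have b9 : N • α ∈ tor 1024 (KM m (F2 W K)) := by
    have b10 := sub_mem (sub_mem (tor_mono (by norm_num) b6) b7) b8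
    convert b10 using 1
    abel
  rw [mul_smul]
  exact b9

end kill

section pair

variable {m : UFun.{u, z}} {Λ : Type u} [Field Λ] {K M : Subfield Λ} {W : WeierstrassCurve K}
  [hE : EllW W] {x₁ y₁ x₂ y₂ : Λ}

/-- Noncommuting endomorphisms kill the classes which are odd at two points. -/
theorem noncomm_pair (hx₁ : x₁ ∉ cl (K : Set Λ)) (hx₂ : x₂ ∉ cl (insert x₁ (K : Set Λ)))
    (h₁ : OnW W x₁ y₁) (h₂ : OnW W x₂ y₂) (hM : M = adj K {x₁, y₁, x₂, y₂}) {N : ℕ}
    (hN : IsNoncomm.{u} W N) {γ : KM m M} (hu : Unr γ)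
    (ho₁ : OddAt K y₁ {x₁, x₂, y₂} γ) (ho₂ : OddAt K y₂ {x₁, y₁, x₂} γ) :
    (1024 * N) • γ = 0 := by
  obtain ⟨P, Q, hP1, hP2, hQ1, hQ2, hPQ⟩ := exists_pair hx₁ hx₂ h₁ h₂
  have hM' : M = adj K {ptX P, ptY P, ptX Q, ptY Q} := by rw [hP1, hP2, hQ1, hQ2]; exact hM
  obtain ⟨fM, e, hef, hfe, hf⟩ := exists_pair_iso hPQ hM'
  obtain ⟨hα1, hα2⟩ := pair_odd hPQ fM e hef hfe hf hP1 hP2 hQ1 hQ2 hM' ho₁ ho₂
  have hαu : Unr (KM.map m e γ) := hu.map _
  have hback : ∀ δ : KM m M, KM.map m fM (KM.map m e δ) = δ := by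
    intro δ
    rw [KM.map_map, hfe, KM.map_id]
    rfl
  have h3 := congrArg (KM.map m fM) (noncomm_kill hN hαu hα1 hα2)
  rw [map_zero, map_nsmul, hback] at h3
  exact h3

end pair

section restrict

/-- The restriction of a natural endomorphism to the extensions of a larger field. -/
noncomputable def PtEnd.restrict {κ : Type v} {K : Type u} [Field κ] [Field K] {W : WeierstrassCurve κ}
    (j : κ →+* K) (φ : PtEnd.{u} W) : PtEnd.{u} (W.map j) where
  toFun Ω _ _ :=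
    let _ : Algebra κ Ω := ((algebraMap K Ω).comp j).toAlgebra
    φ.toFun Ω
  compat Ω Ω' _ _ _ _ g P := by
    let _ : Algebra κ Ω := ((algebraMap K Ω).comp j).toAlgebra
    let _ : Algebra κ Ω' := ((algebraMap K Ω').comp j).toAlgebra
    let g' : Ω →ₐ[κ] Ω' := { (g : Ω →+* Ω') with commutes' := fun z => g.commutes (j z) }
    have hpt : ∀ Q : (W⁄Ω).toAffine.Point, (Affine.Point.map (W' := W) g' Q) =
        (show (W⁄Ω').toAffine.Point from Affine.Point.map (W' := W.map j) g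
          (show ((W.map j)⁄Ω).toAffine.Point from Q)) := by
      intro Q
      rcases Q with _ | ⟨x, y, h⟩
      · rfl
      · rfl
    have h1 := φ.nat Ω Ω' g' P
    rw [hpt, hpt] at h1
    exact h1

/-- Noncommuting endomorphisms remain after an extension of the field. -/
lemma IsNoncomm.restrict {κ : Type v} {K : Type u} [Field κ] [Field K] {W : WeierstrassCurve κ}
    {N : ℕ} (hN : IsNoncomm.{u} W N) (j : κ →+* K) : IsNoncomm.{u} (W.map j) N := by
  obtain ⟨hN0, f, g, h, hr⟩ := hN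
  refine ⟨hN0, f.restrict j, g.restrict j, h.restrict j, fun Ω _ _ P => ?_⟩
  let _ : Algebra κ Ω := ((algebraMap K Ω).comp j).toAlgebra
  exact hr Ω P

end restrict

section fam

variable {m : UFun.{u, z}} {Λ : Type u} [Field Λ] {n : ℕ} {κ : Type w} [Field κ] {j : κ →+* Λ}
  {C M : Subfield Λ} {a b c : Fin n → κ} {X Y : Fin n → Λ} {I : Finset (Fin n)}

/-- Two odd variables on the same curve with noncommuting endomorphisms. -/
theorem fam_noncomm (F : UnrH3.Ell.Fam j C a b c X Y)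
    (hM : M = adj C (Set.range X ∪ Set.range Y))
    {i l : Fin n} (hil : i ≠ l) {W : WeierstrassCurve κ} (h1 : W.a₁ = 0) (h3 : W.a₃ = 0)
    (hai : a i = W.a₂) (hbi : b i = W.a₄) (hci : c i = W.a₆)
    (hal : a l = W.a₂) (hbl : b l = W.a₄) (hcl : c l = W.a₆) {N : ℕ} (hN : IsNoncomm.{u} W N)
    {γ : KM m M} (hu : Unr γ) (ho : Par C X Y I γ) (hi : i ∈ I) (hl : l ∈ I) :
    (1024 * N) • γ = 0 := by
  obtain ⟨K, hK⟩ : ∃ K, K = adj C (X '' {t | t ≠ i ∧ t ≠ l} ∪ Y '' {t | t ≠ i ∧ t ≠ l}) :=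
    ⟨_, rfl⟩
  have hCK : C ≤ K := by rw [hK]; exact UnrH3.le_adj _ _
  obtain ⟨hx₁, hx₂⟩ := F.fact i l hil K hK
  have hM' := UnrH3.family_M hM i l K hK
  obtain ⟨ho1, ho2⟩ := ho.oddAt_pair hil hi hl hCK hK
  have := F.ell hCK i
  have hW : UnrH3.Ell.crv (j.codRestrict K fun z => hCK (F.jC z)) (a i) (b i) (c i) =
      W.map (j.codRestrict K fun z => hCK (F.jC z)) := by
    unfold UnrH3.Ell.crv
    ext
    · exact (by rw [WeierstrassCurve.map_a₁, h1, map_zero])
    · exact (by rw [WeierstrassCurve.map_a₂, hai])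
    · exact (by rw [WeierstrassCurve.map_a₃, h3, map_zero])
    · exact (by rw [WeierstrassCurve.map_a₄, hbi])
    · exact (by rw [WeierstrassCurve.map_a₆, hci])
  have h₂ : OnW (UnrH3.Ell.crv (j.codRestrict K fun z => hCK (F.jC z)) (a i) (b i) (c i))
      (X l) (Y l) := by
    rw [hai, hbi, hci, ← hal, ← hbl, ← hcl]; exact F.onW hCK l
  refine noncomm_pair hx₁ hx₂ (F.onW hCK i) h₂ hM' ?_ hu ho1 ho2
  rw [hW]
  exact hN.restrict _

end fam

end UnrA
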