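import Pool.Agent.Lib.MP_859dd5_ag.EQ.Base
import Pool.Agent.Lib.MP_859dd5_ag.EQ.Twin1

/-!
# Affine actions: invariant classes
-/

namespace UnrA

universe u v w z

open Polynomial WeierstrassCurve
open scoped Classical
open UnrH3 (Pt ptX ptY ptMap Gen InCl cl subset_cl adj le_adj subset_adj adj_le IndFam IndSet
  exists_factor)
open UnrH3.Ell (EllW OnW Fam crv npt pick)

variable {m : UFun.{u, z}}

/-- A curve with noncommuting endomorphisms occurs twice in the parts `I` and `J`, and the number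
`D` is divisible by the number attached to the endomorphisms, times `d`. -/
def Twins {κ : Type u} [Field κ] {l n μ : ℕ} (E : Fin l → WeierstrassCurve κ) (e : Fin n → Fin l)
    (I : Finset (Fin n)) (e' : Fin μ → Fin l) (J : Finset (Fin μ)) (d D : ℕ) : Prop :=
  ∃ (c : Fin l) (N : ℕ), IsNoncomm.{u} (E c) N ∧ d * N ∣ D ∧
    2 ≤ (I.filter fun i => e i = c).card + (J.filter fun j => e' j = c).card

lemma exists_twins {μ n : ℕ} {ι : Type*} [DecidableEq ι] {I' : Finset (Fin (μ + n))}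
    {e' : Fin μ → ι}
    {e : Fin n → ι} {c : ι} (h : 2 ≤ ((sndPart I').filter fun i => e i = c).card +
      ((fstPart I').filter fun j => e' j = c).card) :
    ∃ i l, i ≠ l ∧ i ∈ I' ∧ l ∈ I' ∧ Fin.append e' e i = c ∧ Fin.append e' e l = c := by
  have h1 : (I'.filter fun i => Fin.append e' e i = c).card =
      ((sndPart I').filter fun i => e i = c).card +
        ((fstPart I').filter fun j => e' j = c).card := by
    have h2 : (I'.filter fun i => Fin.append e' e i = c).card =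
        ∑ i : Fin (μ + n), if i ∈ I' ∧ Fin.append e' e i = c then 1 else 0 := by
      rw [← Finset.card_filter, ← Finset.filter_filter]
      congr 1
      ext i
      simp
    rw [h2, Fin.sum_univ_add, add_comm]
    unfold sndPart fstPart
    rw [Finset.filter_filter, Finset.filter_filter, Finset.card_filter, Finset.card_filter]
    congr 1
    · refine Finset.sum_congr rfl fun i _ => ?_
      rw [Fin.append_right]
    · refine Finset.sum_congr rfl fun i _ => ?_
      rw [Fin.append_left]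
  rw [← h1] at h
  obtain ⟨i, hi, l, hl, hil⟩ := Finset.one_lt_card.mp h
  rw [Finset.mem_filter] at hi hl
  exact ⟨i, l, hil, hi.1, hl.1, hi.2, hl.2⟩

section

variable {κ Λ k : Type u} [Field κ] [Fintype κ] [Field Λ] [IsAlgClosed Λ] [Field k]
  [Algebra κ k] {l n : ℕ} {E : Fin l → WeierstrassCurve κ} [hEll : ∀ c, EllW (E c)]
  {e : Fin n → Fin l} {C : Subfield Λ} {X Y : Fin n → Λ} (f : k →+* Λ) {I : Finset (Fin n)}

/-- The kill of the classes over a dominated field. -/
theorem dom_two {π : Fin l → ℂ}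
    (hsum : ∀ c, π c + starRingEnd ℂ (π c) =
      (Fintype.card κ : ℂ) - npt (E c).a₂ (E c).a₄ (E c).a₆)
    (hprod : ∀ c, π c * starRingEnd ℂ (π c) = (Fintype.card κ : ℂ)) {w : ℕ}
    (hw : m.HasWeight κ (Fintype.card κ) w) (h2 : (2 : κ) ≠ 0)
    (F : Fam (f.comp (algebraMap κ k)) C (fun i => (E (e i)).a₂)
      (fun i => (E (e i)).a₄) (fun i => (E (e i)).a₆) X Y) (hfC : f.fieldRange ≤ C)
    {μ : ℕ} {e' : Fin μ → Fin l} {d D : ℕ} (hD : Dominated E k e' d)
    (hval : ∀ J : Finset (Fin μ), Twins E e I e' J d D ∨ ∃ c : ℤ,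
      (D : ℂ) = c * (d * eigVal (Fintype.card κ) w π e I e' J))
    {v : KM m (adj f.fieldRange (Set.range X ∪ Set.range Y))} (hu : Unr v)
    (ho : Par f.fieldRange X Y I v) :
    (2 ^ (μ + n) * (2 * TT (μ + n) * D)) • v = 0 := by
  obtain ⟨p, hpκ⟩ := CharP.exists κ
  obtain ⟨s', hp', hcard⟩ := FiniteField.card κ p
  have hp : Fact p.Prime := ⟨hp'⟩
  have hpΛ : CharP Λ p := charP_of_injective_ringHom (f.comp (algebraMap κ k)).injective p
  obtain ⟨r, t, x', y', T, R, hkR, hdg, hT, hind, F', hR, FR⟩ := dom_data f h2 F hfC hD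
  obtain ⟨s, hs⟩ : ∃ s : ℕ, s = s' := ⟨_, rfl⟩
  have hs0 : 0 < s := by rw [hs]; exact s'.pos
  rw [← hs] at hcard
  have hqc : (Fintype.card κ : ℂ) = (p : ℂ) ^ s := by rw [hcard]; push_cast; rfl
  have hq : (Fintype.card κ : ℤ) = (p : ℤ) ^ s := by rw [hcard]; push_cast; rfl
  have hP : ∀ I' : Finset (Fin (μ + n)), ∃ P : ℤ[X], P.map (Int.castRingHom ℂ) =
      ∏ S : Finset (Fin l), (Polynomial.X - Polynomial.C (∏ i ∈ I',
        pick π (fun c => starRingEnd ℂ (π c)) S (Fin.append e' e i))) := by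
    intro I'
    exact exists_int_poly (Fin.append e' e) I' π (fun c => starRingEnd ℂ (π c))
      (fun c => (Fintype.card κ : ℤ) - npt (E c).a₂ (E c).a₄ (E c).a₆) (Fintype.card κ : ℤ)
      (fun c => by rw [hsum]; push_cast; rfl) (fun c => by rw [hprod]; push_cast; rfl)
  choose P hP using hP
  have hPval : ∀ I' : Finset (Fin (μ + n)), sndPart I' = I →
      (((P I').eval ((Fintype.card κ : ℤ) ^ w) : ℤ) : ℂ) =
        eigVal (Fintype.card κ) w π e I e' (fstPart I') := by
    intro I' hI'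
    have h1 : (((P I').eval ((Fintype.card κ : ℤ) ^ w) : ℤ) : ℂ) =
        ((P I').map (Int.castRingHom ℂ)).eval ((Fintype.card κ : ℂ) ^ w) := by
      have h3 : ((Fintype.card κ : ℂ) ^ w) = Int.castRingHom ℂ ((Fintype.card κ : ℤ) ^ w) := by
        simp
      rw [h3, eval_map, eval₂_hom]
      rfl
    rw [h1, hP, eval_prod]
    unfold eigVal
    refine Finset.prod_congr rfl fun S _ => ?_
    rw [eval_sub, eval_X, eval_C, prod_parts, hI', mul_comm]
    congr 2
    · refine Finset.prod_congr rfl fun i _ => ?_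
      rw [Fin.append_right]
      unfold pick
      split_ifs <;> rfl
    · refine Finset.prod_congr rfl fun i _ => ?_
      rw [Fin.append_left]
      unfold pick
      split_ifs <;> rfl
  -- the integer
  obtain ⟨D', hD', hdiv⟩ : ∃ D' : ℕ, D = d * D' ∧ ∀ I' : Finset (Fin (μ + n)), sndPart I' = I →
      ((P I').eval ((Fintype.card κ : ℤ) ^ w)).natAbs ∣ D' ∨
        Twins E e I e' (fstPart I') 1 D' := by
    by_cases hD0 : D = 0
    · exact ⟨0, by rw [hD0, mul_zero], fun _ _ => Or.inl (dvd_zero _)⟩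
    · obtain ⟨c₀, hc₀⟩ : ∃ I₀ : Finset (Fin (μ + n)), sndPart I₀ = I := by
        refine ⟨Finset.univ.filter fun i => ∃ i' ∈ I, i = Fin.natAdd μ i', ?_⟩
        ext i
        unfold sndPart
        simp only [Finset.mem_filter, Finset.mem_univ, true_and]
        constructor
        · rintro ⟨i', hi', h⟩
          have h3 := congrArg Fin.val h
          simp only [Fin.val_natAdd] at h3
          have h4 : i = i' := Fin.ext (by omega)
          rw [h4]; exact hi'
        · intro hi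
          exact ⟨i, hi, rfl⟩
      have hall : ∀ I' : Finset (Fin (μ + n)), sndPart I' = I →
          Twins E e I e' (fstPart I') d D ∨ ∃ c : ℤ,
          (D : ℤ) = c * (d * (P I').eval ((Fintype.card κ : ℤ) ^ w)) := by
        intro I' hI'
        rcases hval (fstPart I') with h | ⟨c, hc⟩
        · exact Or.inl h
        rw [← hPval I' hI'] at hc
        exact Or.inr ⟨c, by exact_mod_cast hc⟩
      have hd : (d : ℤ) ∣ D := by
        rcases hall c₀ hc₀ with ⟨c, N, -, h, -⟩ | ⟨c, hc⟩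
        · exact Int.natCast_dvd_natCast.mpr ((Dvd.intro _ rfl).trans h)
        rw [hc]
        exact ⟨c * (P c₀).eval ((Fintype.card κ : ℤ) ^ w), by ring⟩
      obtain ⟨D', hD'⟩ := Int.natCast_dvd_natCast.mp hd
      refine ⟨D', hD', fun I' hI' => ?_⟩
      have hd0 : (d : ℤ) ≠ 0 := by
        rintro h
        apply hD0
        have h3 : d = 0 := by exact_mod_cast h
        rw [hD', h3, zero_mul]
      rcases hall I' hI' with ⟨c, N, hN, h, hm⟩ | ⟨c, hc⟩
      · right
        refine ⟨c, N, hN, ?_, hm⟩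
        rw [hD'] at h
        rw [one_mul]
        exact Nat.dvd_of_mul_dvd_mul_left (Nat.pos_of_ne_zero (by exact_mod_cast hd0)) h
      left
      have h3 : (D' : ℤ) = c * (P I').eval ((Fintype.card κ : ℤ) ^ w) := by
        apply mul_left_cancel₀ hd0
        have h4 : (D : ℤ) = d * D' := by rw [hD']; push_cast; rfl
        rw [← h4, hc]
        ring
      rw [← Int.natAbs_natCast D', h3, Int.natAbs_mul]
      exact Dvd.intro_left _ rfl
  have hw' : m.HasWeight κ (p ^ s) w := by rw [← hcard]; exact hw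
  have key := dom_kill hkR (fun z => ⟨algebraMap κ k z, rfl⟩)
    (F₀ := (f.comp (algebraMap κ k)).fieldRange) (fun z => Iff.rfl) hT hind F' hR FR hs0 hcard
    e' e (A := fun c => (E c).a₂) (B' := fun c => (E c).a₄) (D := fun c => (E c).a₆)
    (fun _ => rfl) (fun _ => rfl) (fun _ => rfl) (fun _ => rfl) (fun _ => rfl) (fun _ => rfl)
    π (fun c => starRingEnd ℂ (π c)) (fun c => by rw [hsum, hqc])
    (fun c => by rw [hprod, hqc]) P hP hw' (E := D') (fun I' hI' => by
      have h3 : (((p ^ s : ℕ) : ℤ)) = (Fintype.card κ : ℤ) := by rw [hcard]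
      rw [h3]
      refine (hdiv I' hI').imp id ?_
      rintro ⟨c, N, hN, hND, hm⟩
      refine ⟨N, by rwa [one_mul] at hND, fun MF γ' FF hMF hγu hγo => ?_⟩
      rw [← hI'] at hm
      obtain ⟨i, i', hii, hi, hi', hic, hi'c⟩ := exists_twins hm
      have happ : ∀ (g : WeierstrassCurve κ → κ) (i : Fin (μ + n)),
          Fin.append (fun i => g (E (e' i))) (fun i => g (E (e i))) i =
            g (E (Fin.append e' e i)) := by
        intro g i
        refine Fin.addCases (fun i => ?_) (fun i => ?_) i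
        · rw [Fin.append_left, Fin.append_left]
        · rw [Fin.append_right, Fin.append_right]
      exact fam_noncomm FF hMF hii (hEll c).a1 (hEll c).a3
        ((happ (fun W => W.a₂) i).trans (by rw [hic]))
        ((happ (fun W => W.a₄) i).trans (by rw [hic]))
        ((happ (fun W => W.a₆) i).trans (by rw [hic]))
        ((happ (fun W => W.a₂) i').trans (by rw [hi'c]))
        ((happ (fun W => W.a₄) i').trans (by rw [hi'c]))
        ((happ (fun W => W.a₆) i').trans (by rw [hi'c])) hN hγu hγo hi hi') rfl hu ho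
  rw [hdg] at key
  have h1 : 2 ^ (μ + n) * (2 * TT (μ + n) * D) =
      d * (2 ^ (μ + n) * (2 * TT (μ + n) * D')) := by
    rw [hD']; ring
  rw [h1]
  exact key

end

lemma exp_dvd {n μ D g c : ℕ} (hc : c ∣ g) :
    2 ^ n * (2 * TT n ^ 2 * (2 ^ (μ + n) * (2 * TT (μ + n) * D)) * c ^ 3) *
      (2048 * g) ^ n * (2048 * g) ^ n ∣
    2 ^ (3 * (n + μ + 5) ^ 2) * g ^ (2 * n + 3) * D := by
  obtain ⟨b, rfl⟩ := hc
  have h1 : 32 + 3 * μ + 30 * n + 2 * n ^ 2 + (μ + n) ^ 2 ≤ 3 * (n + μ + 5) ^ 2 := by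
    nlinarith
  obtain ⟨k, hk⟩ := Nat.exists_eq_add_of_le h1
  have h3 : 2 ^ n * (2 * TT n ^ 2 * (2 ^ (μ + n) * (2 * TT (μ + n) * D)) * c ^ 3) *
      (2048 * (c * b)) ^ n * (2048 * (c * b)) ^ n =
      2 ^ (32 + 3 * μ + 30 * n + 2 * n ^ 2 + (μ + n) ^ 2) * (c * b) ^ (2 * n) * c ^ 3 * D := by
    unfold TT
    have h4 : (2048 : ℕ) = 2 ^ 11 := by norm_num
    rw [h4, mul_pow, ← pow_mul, ← pow_mul]
    have h5 : 32 + 3 * μ + 30 * n + 2 * n ^ 2 + (μ + n) ^ 2 = n + 1 + (10 + (n + 2) * n) * 2 +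
      (μ + n) + 1 + (10 + (μ + n + 2) * (μ + n)) + 11 * n + 11 * n := by ring
    have h6 : (c * b) ^ (2 * n) = (c * b) ^ n * (c * b) ^ n := by rw [two_mul, pow_add]
    rw [h5, h6]
    simp only [pow_add, pow_one]
    ring
  rw [h3, hk]
  refine ⟨2 ^ k * b ^ 3, ?_⟩
  have h7 : (c * b) ^ (2 * n + 3) = (c * b) ^ (2 * n) * (c ^ 3 * b ^ 3) := by
    rw [pow_add, mul_pow c b 3]
  rw [h7, pow_add]
  ring

lemma exp_mono {n μ μ' D : ℕ} (h : μ' ≤ μ) :
    2 ^ (μ' + n) * (2 * TT (μ' + n) * D) ∣ 2 ^ (μ + n) * (2 * TT (μ + n) * D) := by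
  have h1 : TT (μ' + n) ∣ TT (μ + n) := by
    unfold TT
    apply pow_dvd_pow
    have h3 : (μ' + n + 2) * (μ' + n) ≤ (μ + n + 2) * (μ + n) :=
      Nat.mul_le_mul (by omega) (by omega)
    omega
  exact mul_dvd_mul (pow_dvd_pow _ (by omega))
    (mul_dvd_mul (mul_dvd_mul (dvd_refl _) h1) (dvd_refl _))

section main

variable {κ M : Type u} [Field κ] [Fintype κ] [Field M] [Algebra κ M]
  {l n : ℕ} {E : Fin l → WeierstrassCurve κ} [hEll : ∀ c, EllW (E c)]
  {K : IntermediateField κ M} {e : Fin n → Fin l} {x y : Fin n → M}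

/-- The hypothesis on the part `I`. -/
def Good (E : Fin l → WeierstrassCurve κ) (K : IntermediateField κ M) (e : Fin n → Fin l)
    (G : Subgroup (M ≃ₐ[κ] M)) (ρ : G → Equiv.Perm (Fin n)) (ε : G → Fin n → ℤˣ)
    (q w : ℕ) (π : Fin l → ℂ) (μ D : ℕ) (I : Finset (Fin n)) : Prop :=
  (∃ g : G, HasSgn (ρ g) (ε g) I (-1) ∧ ∀ z ∈ K, (g : M ≃ₐ[κ] M) z = z) ∨
  (∃ μ' ≤ μ, ∃ (e' : Fin μ' → Fin l) (d : ℕ), Dominated E (fixI K G ρ ε I) e' d ∧
    ∀ J : Finset (Fin μ'), Twins E e I e' J d D ∨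
      ∃ c : ℤ, (D : ℂ) = c * (d * eigVal q w π e I e' J)) ∨
  Twins E e I e ∅ 1 D

/-- Invariant unramified classes are killed by an explicit number. -/
theorem aff_kill (G : Subgroup (M ≃ₐ[κ] M)) [Finite G] (ρ : G → Equiv.Perm (Fin n))
    (ε : G → Fin n → ℤˣ)
    (hG : ∀ g : G, IsAff E K e x y (ρ g) (ε g) (g : M ≃ₐ[κ] M))
    (h2 : (2 : κ) ≠ 0) (hns : ∀ i, ((E (e i))⁄M).toAffine.Nonsingular (x i) (y i))
    (hind : AlgebraicIndependent K x)
    (htop : IntermediateField.adjoin K (Set.range x ∪ Set.range y) = ⊤) {π : Fin l → ℂ}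
    (hsum : ∀ c, π c + starRingEnd ℂ (π c) =
      (Fintype.card κ : ℂ) - npt (E c).a₂ (E c).a₄ (E c).a₆)
    (hprod : ∀ c, π c * starRingEnd ℂ (π c) = (Fintype.card κ : ℂ)) {w : ℕ}
    (hw : m.HasWeight κ (Fintype.card κ) w) {μ D : ℕ}
    (H : ∀ I : Finset (Fin n), Good E K e G ρ ε (Fintype.card κ) w π μ D I ∨
      KillsProd m E (fixI K G ρ ε I) (fun i : {i // i ∈ I} => e i) D)
    {z : KM m M} (hu : Unr z)
    (hz : ∀ g : G, KM.map m ((g : M ≃ₐ[κ] M) : M →+* M) z = z) :
    (2 ^ (3 * (n + μ + 5) ^ 2) * Nat.card G ^ (2 * n + 3) * D) • z = 0 := by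
  obtain ⟨Λ, _, φ, _⟩ : ∃ (Λ : Type u) (_ : Field Λ) (_ : M →+* Λ), IsAlgClosed Λ :=
    ⟨AlgebraicClosure M, inferInstance, algebraMap M _, inferInstance⟩
  obtain ⟨X, Y, M', hle, θ, hM', F, hd, hk, hθ, hA⟩ :=
    exists_lin (m := m) φ G ρ ε hG h2 hns hind htop
  obtain ⟨ι, hι⟩ : ∃ ι : M ≃+* φ.fieldRange, ∀ z, (ι z : Λ) = φ z :=
    ⟨RingEquiv.ofBijective φ.rangeRestrictField
      ⟨φ.rangeRestrictField.injective, φ.rangeRestrictField_bijective.2⟩, fun _ => rfl⟩
  obtain ⟨B, hB⟩ : ∃ B, B = (2048 * Nat.card G) ^ n := ⟨_, rfl⟩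
  rw [← hB] at hd hk
  obtain ⟨ξ, hξu, hξ⟩ := hd (KM.map m (ι : M →+* φ.fieldRange) z) (hu.map _)
  have hinv : ∀ h ∈ θ.range, KM.map m (h : M' →+* M') (B • ξ) = B • ξ := by
    rintro _ ⟨g, rfl⟩
    obtain ⟨gh, hgh⟩ : ∃ gh : φ.fieldRange →+* φ.fieldRange, gh =
        ((ι : M →+* φ.fieldRange).comp ((g : M ≃ₐ[κ] M) : M →+* M)).comp
          (ι.symm : φ.fieldRange →+* M) := ⟨_, rfl⟩
    have hgι : gh.comp (ι : M →+* φ.fieldRange) =
        (ι : M →+* φ.fieldRange).comp ((g : M ≃ₐ[κ] M) : M →+* M) := by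
      rw [hgh]
      ext z
      simp
    have hcomm : (Subfield.inclusion hle).comp (θ g : M' →+* M') =
        gh.comp (Subfield.inclusion hle) := by
      apply RingHom.ext
      intro w
      apply Subtype.ext
      change (θ g w : Λ) = (gh (Subfield.inclusion hle w) : Λ)
      obtain ⟨z, hz⟩ := hle w.2
      rw [hθ g z w hz.symm]
      have h1 : Subfield.inclusion hle w = ι z := Subtype.ext (by rw [hι]; exact hz.symm)
      rw [h1]
      have h3 := congrArg (fun h : M →+* φ.fieldRange => h z) hgι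
      change gh (ι z) = ι ((g : M ≃ₐ[κ] M) z) at h3
      rw [h3, hι]
    have h1 : up m hle (KM.map m (θ g : M' →+* M') ξ - ξ) = 0 := by
      rw [map_sub, hξ]
      unfold up
      rw [KM.map_map, hcomm, ← KM.map_map]
      change KM.map m gh (up m hle ξ) - _ = 0
      rw [hξ, map_nsmul, KM.map_map, hgι, ← KM.map_map, hz g, sub_self]
    have h3 := hk _ ((hξu.map _).sub hξu) h1
    rw [smul_sub, sub_eq_zero] at h3
    rw [map_nsmul]
    exact h3
  have hCM : K.toSubfield.map φ ≤ M' := by rw [hM']; exact le_adj _ _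
  have hj : ∀ I : Finset (Fin n), (φ.comp (algebraMap (fixI K G ρ ε I) M)).comp
      (algebraMap κ (fixI K G ρ ε I)) = φ.comp (algebraMap κ M) := fun _ => rfl
  have hfin : Finite θ.range := Finite.of_surjective θ.rangeRestrict θ.rangeRestrict_surjective
  have hkill := main_kill F hM' (F₀ := (φ.comp (algebraMap κ M)).fieldRange)
    (by rintro _ ⟨z, rfl⟩; exact ⟨algebraMap κ M z, K.algebraMap_mem z, rfl⟩) e
    (A := fun c => (E c).a₂) (B := fun c => (E c).a₄) (D := fun c => (E c).a₆)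
    (fun _ => rfl) (fun _ => rfl) (fun _ => rfl) θ.range
    (by rintro _ ⟨g, rfl⟩; exact ⟨_, _, hA g⟩) (hξu.nsmul B) hinv
    (2 ^ (μ + n) * (2 * TT (μ + n) * D)) ?_
  · rw [smul_smul] at hkill
    have h1 := congrArg (up m hle) hkill
    rw [map_nsmul, hξ, map_zero, smul_smul, ← map_nsmul] at h1
    have h3 := congrArg (KM.map m (ι.symm : φ.fieldRange →+* M)) h1
    rw [KM.map_map, map_zero] at h3
    have h4 : (ι.symm : φ.fieldRange →+* M).comp (ι : M →+* φ.fieldRange) = RingHom.id M := by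
      ext z
      simp
    rw [h4, KM.map_id, AddMonoidHom.id_apply] at h3
    have hcard : Nat.card θ.range ∣ Nat.card G := Subgroup.card_range_dvd θ
    obtain ⟨c, hc⟩ := exp_dvd (n := n) (μ := μ) (D := D) hcard
    rw [hc, mul_comm, mul_smul, ← hB, h3, smul_zero]
  · intro I
    rw [fixC_eq φ hM' F hθ hA I, ← algebraMap_range_map (K := fixI K G ρ ε I) φ]
    have hfC : (φ.comp (algebraMap (fixI K G ρ ε I) M)).fieldRange ≤ K.toSubfield.map φ := by
      rintro _ ⟨z, rfl⟩
      exact ⟨z, z.2.1, rfl⟩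
    rcases H I with (⟨g, hg, hgK⟩ | ⟨μ', hμ', e', d, hD, hval⟩ | ⟨c, N, hN, hND, hm⟩) | hI
    · left
      refine ⟨θ g, ⟨g, rfl⟩, (hasSign_iff φ hM' F hA g I _).mpr hg, ?_⟩
      rintro w ⟨z, hz, hzw⟩
      apply Subtype.ext
      rw [hθ g z w hzw.symm, hgK z hz, hzw]
    · right; left
      intro v hv ho
      have h1 := dom_two (φ.comp (algebraMap (fixI K G ρ ε I) M)) hsum hprod hw h2 F hfC hD hval
        hv ho
      obtain ⟨c, hc⟩ := exp_mono (n := n) (D := D) hμ'
      rw [hc, mul_comm, mul_smul, h1, smul_zero]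
    · right; left
      intro v hv ho
      rw [Finset.filter_empty, Finset.card_empty, add_zero] at hm
      obtain ⟨i, hi, i', hi', hii⟩ := Finset.one_lt_card.mp hm
      rw [Finset.mem_filter] at hi hi'
      have Fk : Fam (φ.comp (algebraMap κ M))
          (φ.comp (algebraMap (fixI K G ρ ε I) M)).fieldRange (fun i => (E (e i)).a₂)
          (fun i => (E (e i)).a₄) (fun i => (E (e i)).a₆) X Y :=
        F.mono (fun z => ⟨algebraMap κ (fixI K G ρ ε I) z, rfl⟩) fun z hz => subset_cl _ (hfC hz)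
      have h1 := fam_noncomm Fk rfl hii (W := E c) (hEll c).a1 (hEll c).a3
        (by rw [hi.2]) (by rw [hi.2]) (by rw [hi.2]) (by rw [hi'.2]) (by rw [hi'.2])
        (by rw [hi'.2]) hN hv ho hi.1 hi'.1
      rw [one_mul] at hND
      obtain ⟨c', hc'⟩ := hND
      have h3 : 2 ^ (μ + n) * (2 * TT (μ + n) * D) =
          (2 ^ (μ + n) * 2 * 2 ^ ((μ + n + 2) * (μ + n)) * c') * (1024 * N) := by
        rw [hc']
        unfold TT
        rw [pow_add 2 10]
        ring
      rw [h3, mul_smul, h1, smul_zero]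
    · right; left
      intro v hv ho
      exact base_kill (φ.comp (algebraMap (fixI K G ρ ε I) M)) F hfC hI μ hv ho

end main

end UnrA
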