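import Pool.Agent.Lib.MP_859dd5_ag.EQ.Aff5

/-!
# Classes of function fields of products over a field of coefficients
-/

namespace UnrA

universe u v w z

open Polynomial WeierstrassCurve
open scoped Classical
open UnrH3 (cl subset_cl adj le_adj subset_adj adj_le IndFam IndSet)
open UnrH3.Ell (EllW OnW Fam crv)

/-- The field `R` is the function field of the product over the field `k` of the curves `E (e i)`,
with generic points `(x i, y i)`. -/
structure IsProd {κ : Type u} [Field κ] {l : ℕ} (E : Fin l → WeierstrassCurve κ) (k : Type u)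
    [Field k] {R : Type u} [Field R] [Algebra κ R] [Algebra k R] {ι : Type} (e : ι → Fin l)
    (x y : ι → R) : Prop where
  point : ∀ i, ((E (e i))⁄R).toAffine.Nonsingular (x i) (y i)
  ind : AlgebraicIndependent k x
  gen : IntermediateField.adjoin k (Set.range x ∪ Set.range y) = ⊤

/-- The number `D` kills the unramified classes of the function field of the product over `k` of
the curves `E (e i)`. -/
def KillsProd (m : UFun.{u, z}) {κ : Type u} [Field κ] {l : ℕ} (E : Fin l → WeierstrassCurve κ)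
    (k : Type u) [Field k] [Algebra κ k] {ι : Type} (e : ι → Fin l) (D : ℕ) : Prop :=
  ∀ (R : Type u) [Field R] [Algebra κ R] [Algebra k R] [IsScalarTower κ k R] (x y : ι → R),
    IsProd E k e x y → ∀ ξ ∈ m.nr R, D • ξ = 0

section

variable {m : UFun.{u, z}} {κ Λ k : Type u} [Field κ] [Field Λ] [Field k]
  [Algebra κ k] {l n : ℕ} {E : Fin l → WeierstrassCurve κ} [hEll : ∀ c, EllW (E c)]
  {e : Fin n → Fin l} {C : Subfield Λ} {X Y : Fin n → Λ} (f : k →+* Λ) {I : Finset (Fin n)}

/-- The classes with parity `I` are killed if the unramified classes of the function field of the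
product of the curves with index in `I` are killed. -/
theorem base_kill (F : Fam (f.comp (algebraMap κ k)) C (fun i => (E (e i)).a₂)
      (fun i => (E (e i)).a₄) (fun i => (E (e i)).a₆) X Y) (hfC : f.fieldRange ≤ C)
    {D : ℕ} (hD : KillsProd m E k (fun i : {i // i ∈ I} => e i) D) (μ : ℕ)
    {v : KM m (adj f.fieldRange (Set.range X ∪ Set.range Y))} (hu : Unr v)
    (ho : Par f.fieldRange X Y I v) :
    (2 ^ (μ + n) * (2 * TT (μ + n) * D)) • v = 0 := by
  have Fk : Fam (f.comp (algebraMap κ k)) f.fieldRange (fun i => (E (e i)).a₂)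
      (fun i => (E (e i)).a₄) (fun i => (E (e i)).a₆) X Y :=
    F.mono (fun z => ⟨algebraMap κ k z, rfl⟩) fun z hz => subset_cl _ (hfC hz)
  obtain ⟨γ, hγu, hγ⟩ := even_descend Fk rfl (J := Iᶜ) disjoint_compl_right (offJ_le rfl) hu ho
  have hkR : ∀ z, f z ∈ offJ f.fieldRange X Y Iᶜ := fun z => le_offJ ⟨z, rfl⟩
  have hXR : ∀ i : {i // i ∈ I}, X i ∈ offJ f.fieldRange X Y Iᶜ := fun i =>
    subset_adj _ _ (Or.inl ⟨i, by simp, rfl⟩)
  have hYR : ∀ i : {i // i ∈ I}, Y i ∈ offJ f.fieldRange X Y Iᶜ := fun i =>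
    subset_adj _ _ (Or.inr ⟨i, by simp, rfl⟩)
  let _ : Algebra k (offJ f.fieldRange X Y Iᶜ) := (f.codRestrict _ hkR).toAlgebra
  let _ : Algebra κ (offJ f.fieldRange X Y Iᶜ) :=
    ((f.codRestrict _ hkR).comp (algebraMap κ k)).toAlgebra
  have htow : IsScalarTower κ k (offJ f.fieldRange X Y Iᶜ) :=
    IsScalarTower.of_algebraMap_eq fun _ => rfl
  have hprod : IsProd E k (fun i : {i // i ∈ I} => e i)
      (fun i => (⟨X i, hXR i⟩ : offJ f.fieldRange X Y Iᶜ)) (fun i => ⟨Y i, hYR i⟩) := by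
    refine ⟨fun i => ?_, ?_, ?_⟩
    · apply UnrH3.Ell.nonsingular_of
      apply Subtype.ext
      exact F.hY i
    · let _ : Algebra k Λ := f.toAlgebra
      let g : (offJ f.fieldRange X Y Iᶜ) →ₐ[k] Λ :=
        { (offJ f.fieldRange X Y Iᶜ).subtype with commutes' := fun _ => rfl }
      have h1 : AlgebraicIndependent k X := UnrH3.algInd_of_indFam Fk.ind
      have h2 : AlgebraicIndependent k (fun i : {i // i ∈ I} => X i) :=
        h1.comp _ Subtype.val_injective
      exact AlgebraicIndependent.of_comp g h2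
    · rw [eq_top_iff]
      intro z _
      have h1 : offJ f.fieldRange X Y Iᶜ ≤ ((IntermediateField.adjoin k
          (Set.range (fun i : {i // i ∈ I} => (⟨X i, hXR i⟩ : offJ f.fieldRange X Y Iᶜ)) ∪
            Set.range (fun i : {i // i ∈ I} => (⟨Y i, hYR i⟩ :
              offJ f.fieldRange X Y Iᶜ)))).toSubfield).map
          (offJ f.fieldRange X Y Iᶜ).subtype := by
        refine adj_le ?_ ?_
        · rintro _ ⟨c, rfl⟩
          exact ⟨_, (IntermediateField.adjoin k _).algebraMap_mem c, rfl⟩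
        · rintro _ (⟨i, hi, rfl⟩ | ⟨i, hi, rfl⟩)
          · have hi' : i ∈ I := by simpa using hi
            exact ⟨⟨X i, hXR ⟨i, hi'⟩⟩, IntermediateField.subset_adjoin _ _
              (Or.inl ⟨⟨i, hi'⟩, rfl⟩), rfl⟩
          · have hi' : i ∈ I := by simpa using hi
            exact ⟨⟨Y i, hYR ⟨i, hi'⟩⟩, IntermediateField.subset_adjoin _ _
              (Or.inr ⟨⟨i, hi'⟩, rfl⟩), rfl⟩
      obtain ⟨w, hw, hwz⟩ := h1 z.2
      have h2 : w = z := Subtype.ext hwz
      rw [← h2]
      exact hw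
  have h1 := hD (offJ f.fieldRange X Y Iᶜ) _ _ hprod γ hγu
  have h2 := congrArg (up m (offJ_le rfl)) h1
  rw [map_nsmul, hγ, map_zero, smul_smul] at h2
  have h3 : (Iᶜ : Finset (Fin n)).card ≤ n := by
    have := Finset.card_le_univ (Iᶜ : Finset (Fin n))
    simpa using this
  have h4 : (n + 2) * (Iᶜ : Finset (Fin n)).card ≤ 10 + (μ + n + 2) * (μ + n) := by
    have h5 : (n + 2) * (Iᶜ : Finset (Fin n)).card ≤ (μ + n + 2) * (μ + n) :=
      Nat.mul_le_mul (by omega) (by omega)
    omega
  obtain ⟨c, hc⟩ := Nat.exists_eq_add_of_le h4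
  have h6 : 2 ^ (μ + n) * (2 * TT (μ + n) * D) =
      (2 ^ (μ + n) * 2 * 2 ^ c) * (D * 2 ^ ((n + 2) * (Iᶜ : Finset (Fin n)).card)) := by
    unfold TT
    rw [hc, pow_add 2 ((n + 2) * (Iᶜ : Finset (Fin n)).card) c]
    ring
  rw [h6, mul_smul, h2, smul_zero]

end

end UnrA
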