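import Pool.Agent.Lib.MP_859dd5_ag.EQ.Fun
import Pool.Agent.Lib.MP_859dd5_ag.Mg.G061
import Pool.Agent.Lib.MP_859dd5_ag.G.NormD
import Pool.Agent.Lib.MP_859dd5_ag.Mg.G056

/-!
# The example of Milnor K-theory
-/

namespace UnrA

universe u v w z

open Polynomial
open scoped Classical
open UnrG (MK)

section milnor

variable (m j : ℕ)

/-- Functoriality of the part of degree `j`. -/
noncomputable def milnorMap {K L : Type u} [Field K] [Field L] (f : K →+* L) :
    UnrG.KM.deg m K j →+ UnrG.KM.deg m L j where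
  toFun x := ⟨UnrG.KM.map m f x, UnrG.KM.deg_map f x.2⟩
  map_zero' := Subtype.ext (map_zero _)
  map_add' _ _ := Subtype.ext (map_add _ _ _)

lemma milnorMap_coe {K L : Type u} [Field K] [Field L] (f : K →+* L)
    (x : UnrG.KM.deg m K j) : (milnorMap m j f x : UnrG.KM m L) = UnrG.KM.map m f x := rfl

/-- The unramified classes of degree `j`. -/
def milnorNr (K : Type u) [Field K] : AddSubgroup (UnrG.KM.deg m K j) where
  carrier := {x | UnrG.Unr (x : UnrG.KM m K)}
  add_mem' hx hy := UnrG.Unr.add hx hy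
  zero_mem' := UnrG.Unr.zero
  neg_mem' hx := UnrG.Unr.neg hx

lemma mem_milnorNr {K : Type u} [Field K] {x : UnrG.KM.deg m K j} :
    x ∈ milnorNr m j K ↔ UnrG.Unr (x : UnrG.KM m K) := Iff.rfl

lemma milnor_trace (K L : Type u) [Field K] [Field L] [Algebra K L] [FiniteDimensional K L]
    [IsGalois K L] (x : UnrG.KM.deg m L j) : ∃ y : UnrG.KM.deg m K j,
      milnorMap m j (algebraMap K L) y =
        ∑ σ : L ≃ₐ[K] L, milnorMap m j (σ : L →+* L) x := by
  obtain ⟨y, hy⟩ := UnrG.exists_trace (UnrG.any m) (K := K) (x : UnrG.KM m L)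
  refine ⟨⟨UnrG.KM.proj m K j y, UnrG.KM.proj_mem j y⟩, ?_⟩
  apply Subtype.ext
  rw [milnorMap_coe, ← UnrG.KM.proj_map, hy, map_sum, Submodule.coe_sum]
  refine Finset.sum_congr rfl fun σ _ => ?_
  rw [milnorMap_coe, UnrG.KM.proj_map, UnrG.KM.proj_eq x.2]

lemma milnor_rat_nr (K : Type u) [Field K] (x : UnrG.KM.deg m (RatFunc K) j)
    (hx : x ∈ milnorNr m j (RatFunc K)) :
    ∃ y ∈ milnorNr m j K, milnorMap m j (algebraMap K (RatFunc K)) y = x := by
  obtain ⟨y, hy, hyx⟩ := UnrG.unr_ratFunc (UnrG.any m) hx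
  have h1 : UnrG.KM.proj m K j y = y := by
    apply UnrG.map_ratFunc_injective (UnrG.any m)
    rw [← UnrG.KM.proj_map, hyx, UnrG.KM.proj_eq x.2]
  have h2 : y ∈ UnrG.KM.deg m K j := by rw [← h1]; exact UnrG.KM.proj_mem j y
  exact ⟨⟨y, h2⟩, hy, Subtype.ext hyx⟩

/-- The groups of the classes of degree `j` of the reduced Milnor K-ring modulo `m`. -/
noncomputable def milnorGroups : FieldGroups.{u, u} where
  obj K _ := UnrG.KM.deg m K j
  map f := milnorMap m j f
  nr K _ := milnorNr m j K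

/-- The functor of the classes of degree `j` of the reduced Milnor K-ring modulo `m`. -/
noncomputable def UFun.milnor : UFun.{u, u} where
  toFieldGroups := milnorGroups m j
  isFunctor := ⟨fun {K} _ x => by
      apply Subtype.ext
      change UnrG.KM.map m (RingHom.id K) _ = _
      rw [UnrG.KM.map_id]
      rfl, fun {K L E} _ _ _ f g x => by
      apply Subtype.ext
      change UnrG.KM.map m (g.comp f) _ = UnrG.KM.map m g (UnrG.KM.map m f _)
      rw [UnrG.KM.map_map]⟩
  mapsUnramified f x hx := UnrG.Unr.map f hx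
  ratInjective K _ x hx := by
    apply Subtype.ext
    have h1 := congrArg Subtype.val hx
    exact (injective_iff_map_eq_zero (UnrG.KM.map m (algebraMap K (RatFunc K)))).mp
      (UnrG.map_ratFunc_injective (UnrG.any m)) _ h1
  ratUnramified K _ x hx := milnor_rat_nr m j K x hx
  finiteKernel K L _ _ _ _ x hx := by
    apply Subtype.ext
    have h1 := congrArg Subtype.val hx
    exact UnrG.finrank_smul_eq_zero (UnrG.any m) _ rfl h1
  galoisUnramified K L _ _ _ _ _ x hx := UnrG.unr_smul_of_map (UnrG.any m) hx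
  galoisTrace K L _ _ _ _ _ x := milnor_trace m j K L x

/-- The Milnor K-groups of degree `j` have weight `j`. -/
lemma UFun.milnor_hasWeight (κ : Type w) [Field κ] (q : ℕ) :
    (UFun.milnor.{u} m j).HasWeight κ q j := by
  intro K _ _ f hf x
  obtain ⟨x, hx⟩ : ∃ y : UnrG.KM.deg m K j, y = x := ⟨x, rfl⟩
  subst hx
  change milnorMap m j f x = q ^ j • x
  apply Subtype.ext
  have h1 := UnrG.KM.deg_frob hf x.2
  rw [milnorMap_coe, h1, ← natCast_zsmul]
  push_cast
  rfl

variable {m j}

/-- From the reduced Milnor K-ring to the Milnor K-ring. -/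
lemma milnor_kill {L : Type u} [Field L] {N : ℕ}
    (h : ∀ x : KM (UFun.milnor.{u} m j) L, Unr x → N • x = 0) {ξ : MK m L}
    (hξ : ξ ∈ MK.deg m L j) (hu : MK.Unr ξ) : (2 * N) • ξ = 0 := by
  have h1 := h ⟨MK.red m L ξ, MK.red_deg hξ⟩ (MK.red_unr hu)
  have h2 : N • MK.red m L ξ = 0 := congrArg Subtype.val h1
  rw [mul_smul]
  apply MK.two_smul_eq_zero
  rw [map_nsmul, h2]

end milnor

end UnrA
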