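import Pool.Agent.Lib.MP_859dd5_ag.EQ.Fin3
import Pool.Agent.Lib.MP_859dd5_ag.EQ.Fin2

/-!
# The main theorem without explicit numbers
-/

namespace UnrA

universe u v w z

open Polynomial WeierstrassCurve
open scoped Classical
open UnrH3.Ell (EllW npt pick)

section val

variable {l n μ : ℕ}

/-- The numbers `eigVal` are integers. -/
theorem eigVal_int {q w : ℕ} {π : Fin l → ℂ} {a : Fin l → ℤ}
    (hsum : ∀ c, π c + starRingEnd ℂ (π c) = a c)
    (hprod : ∀ c, π c * starRingEnd ℂ (π c) = q) (e : Fin n → Fin l) (I : Finset (Fin n))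
    (e' : Fin μ → Fin l) (J : Finset (Fin μ)) : ∃ v : ℤ, (v : ℂ) = eigVal q w π e I e' J := by
  obtain ⟨P, hP⟩ := exists_int_poly (Sum.elim e e') (I.disjSum J) π
    (fun c => starRingEnd ℂ (π c)) a (q : ℤ) hsum (fun c => by rw [hprod]; push_cast; rfl)
  refine ⟨P.eval ((q : ℤ) ^ w), ?_⟩
  have h1 : ((P.eval ((q : ℤ) ^ w) : ℤ) : ℂ) =
      (P.map (Int.castRingHom ℂ)).eval ((q : ℂ) ^ w) := by
    have h3 : ((q : ℂ) ^ w) = Int.castRingHom ℂ ((q : ℤ) ^ w) := by simp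
    rw [h3, eval_map, eval₂_hom]
    rfl
  rw [h1, hP, eval_prod]
  unfold eigVal
  refine Finset.prod_congr rfl fun S _ => ?_
  rw [eval_sub, eval_X, eval_C, Finset.prod_disjSum]
  congr 2
  · refine Finset.prod_congr rfl fun i _ => ?_
    unfold pick
    rw [Sum.elim_inl]
    split_ifs <;> rfl
  · refine Finset.prod_congr rfl fun i _ => ?_
    unfold pick
    rw [Sum.elim_inr]
    split_ifs <;> rfl

end val

/-- The curves `E c` are elliptic curves `y ^ 2 = x ^ 3 + …` over the field `κ` with `q` elements,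
`q` odd, with traces of Frobenius `a c`, not isogenous to each other over an algebraic closure,
and the endomorphisms of the supersingular curves are defined over `κ`. -/
structure AreCurves {κ : Type v} [Field κ] {l : ℕ} (q : ℕ) (E : Fin l → WeierstrassCurve κ)
    (a : Fin l → ℤ) : Prop where
  card : Nat.card κ = q
  two : (2 : κ) ≠ 0
  ell : ∀ c, (E c).IsElliptic
  coeff_one : ∀ c, (E c).a₁ = 0
  coeff_three : ∀ c, (E c).a₃ = 0
  trace : ∀ c, a c = q - Nat.card {P : κ × κ // (E c).toAffine.Equation P.1 P.2}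
  trace_sq : ∀ c, ∀ r : ℕ, r < 4 → a c ^ 2 ≠ r * q
  disc : ∀ c c', c ≠ c' → IsSquare ((a c ^ 2 - 4 * q) * (a c' ^ 2 - 4 * q)) →
    (a c ^ 2 - 4 * q) * (a c' ^ 2 - 4 * q) = 0
  unique : ∀ c c', a c ^ 2 = 4 * q → a c' ^ 2 = 4 * q → c = c'
  noncomm : ∀ c, a c ^ 2 = 4 * q → ∃ N, IsNoncomm.{u} (E c) N

/-- The condition on the part `I`. -/
def IsSettled {κ M : Type u} [Field κ] [Field M] [Algebra κ M] {l n : ℕ}
    (q : ℕ) (E : Fin l → WeierstrassCurve κ) (a : Fin l → ℤ) (K : IntermediateField κ M)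
    (e : Fin n → Fin l) (G : Subgroup (M ≃ₐ[κ] M)) (ρ : G → Equiv.Perm (Fin n))
    (ε : G → Fin n → ℤˣ) (I : Finset (Fin n)) : Prop :=
  (∃ g : G, HasSgn (ρ g) (ε g) I (-1) ∧ ∀ z ∈ K, (g : M ≃ₐ[κ] M) z = z) ∨
  (∃ (μ : ℕ) (e' : Fin μ → Fin l) (d : ℕ), Dominated E (fixI K G ρ ε I) e' d) ∨
  ∃ i ∈ I, ∃ j ∈ I, i ≠ j ∧ e i = e j ∧ a (e i) ^ 2 = 4 * q

section

variable {κ : Type v} [Field κ] {l n : ℕ} {q w : ℕ} {E : Fin l → WeierstrassCurve κ}
  {a : Fin l → ℤ} {π : Fin l → ℂ}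

/-- The number attached to a pair of parts. -/
theorem exists_num (hE : AreCurves.{u} q E a)
    (hsum : ∀ c, π c + starRingEnd ℂ (π c) = a c)
    (hprod : ∀ c, π c * starRingEnd ℂ (π c) = q) (hw : 0 < w) (hq : 1 < q)
    (e : Fin n → Fin l) (I : Finset (Fin n)) {μ : ℕ}
    (e' : Fin μ → Fin l) (J : Finset (Fin μ)) :
    ∃ t : ℕ, 0 < t ∧ ((∃ c, IsNoncomm.{u} (E c) t ∧
      2 ≤ (I.filter fun i => e i = c).card + (J.filter fun j => e' j = c).card) ∨
      ∃ v : ℤ, (t : ℤ) = |v| ∧ (v : ℂ) = eigVal q w π e I e' J) := by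
  obtain ⟨v, hv⟩ := eigVal_int (w := w) hsum hprod e I e' J
  by_cases hv0 : v = 0
  · have h0 : eigVal q w π e I e' J = 0 := by rw [← hv, hv0]; simp
    have hc1 : I.card + J.card = 2 * w := by
      by_contra h
      exact eigVal_ne_weight hq hprod h h0
    have hc2 : ∀ c, ((∃ i ∈ I, e i = c) ∨ ∃ j ∈ J, e' j = c) → a c ^ 2 = 4 * q := by
      intro c hc
      by_contra h
      exact eigVal_ne_rel (a := a) (by omega) hsum hprod hE.disc hE.trace_sq h hc h0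
    obtain ⟨c, hc⟩ : ∃ c, ((∃ i ∈ I, e i = c) ∨ ∃ j ∈ J, e' j = c) := by
      have h1 : 0 < I.card ∨ 0 < J.card := by omega
      rcases h1 with h | h
      · obtain ⟨i, hi⟩ := Finset.card_pos.mp h
        exact ⟨_, Or.inl ⟨i, hi, rfl⟩⟩
      · obtain ⟨j, hj⟩ := Finset.card_pos.mp h
        exact ⟨_, Or.inr ⟨j, hj, rfl⟩⟩
    obtain ⟨N, hN⟩ := hE.noncomm c (hc2 c hc)
    refine ⟨N, hN.1, Or.inl ⟨c, hN, ?_⟩⟩
    have h2 : (I.filter fun i => e i = c) = I := by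
      rw [Finset.filter_eq_self]
      intro i hi
      exact hE.unique _ _ (hc2 _ (Or.inl ⟨i, hi, rfl⟩)) (hc2 c hc)
    have h3 : (J.filter fun j => e' j = c) = J := by
      rw [Finset.filter_eq_self]
      intro j hj
      exact hE.unique _ _ (hc2 _ (Or.inr ⟨j, hj, rfl⟩)) (hc2 c hc)
    rw [h2, h3, hc1]
    omega
  · refine ⟨v.natAbs, Int.natAbs_pos.mpr hv0, Or.inr ⟨v, ?_, hv⟩⟩
    exact Int.natCast_natAbs v

end

/-- A number for a settled part. -/
theorem exists_good {κ M : Type u} [Field κ] [Field M] [Algebra κ M] {l n : ℕ} {q w : ℕ}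
    {E : Fin l → WeierstrassCurve κ} {a : Fin l → ℤ} {π : Fin l → ℂ}
    (hE : AreCurves.{u} q E a) (hsum : ∀ c, π c + starRingEnd ℂ (π c) = a c)
    (hprod : ∀ c, π c * starRingEnd ℂ (π c) = q) (hw : 0 < w) (hq : 1 < q)
    {K : IntermediateField κ M} {e : Fin n → Fin l} {G : Subgroup (M ≃ₐ[κ] M)}
    {ρ : G → Equiv.Perm (Fin n)} {ε : G → Fin n → ℤˣ} {I : Finset (Fin n)}
    (H : IsSettled q E a K e G ρ ε I) :
    ∃ μ D : ℕ, 0 < D ∧ ∀ μ' D' : ℕ, μ ≤ μ' → D ∣ D' → Good E K e G ρ ε q w π μ' D' I := by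
  rcases H with h | ⟨μ, e', d, hd⟩ | ⟨i, hi, j, hj, hij, hej, ha⟩
  · exact ⟨0, 1, one_pos, fun _ _ _ _ => Or.inl h⟩
  · choose t ht0 ht using fun J : Finset (Fin μ) =>
      exists_num (w := w) hE hsum hprod hw hq e I e' J
    have hd0 : 0 < d := by
      obtain ⟨R, _, _, _, _, _, r, t, x, y, hd, -⟩ := hd
      rw [← hd]
      exact Module.finrank_pos
    refine ⟨μ, d * ∏ J, t J, Nat.mul_pos hd0 (Finset.prod_pos fun J _ => ht0 J), ?_⟩
    rintro μ' D' hμ ⟨b, rfl⟩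
    refine Or.inr (Or.inl ⟨μ, hμ, e', d, hd, fun J => ?_⟩)
    have h1 : t J ∣ ∏ J, t J := Finset.dvd_prod_of_mem t (Finset.mem_univ J)
    obtain ⟨s, hs⟩ := h1
    rcases ht J with ⟨c, hc, hm⟩ | ⟨v, hv, hv'⟩
    · left
      refine ⟨c, t J, hc, ?_, hm⟩
      rw [hs]
      exact ⟨s * b, by ring⟩
    · right
      rcases abs_choice v with h | h
      · refine ⟨s * b, ?_⟩
        rw [hs, ← hv']
        rw [h] at hv
        have h4 : (t J : ℂ) = v := by exact_mod_cast hv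
        push_cast
        rw [h4]
        ring
      · refine ⟨-(s * b), ?_⟩
        rw [hs, ← hv']
        rw [h] at hv
        have h4 : (t J : ℂ) = -v := by exact_mod_cast hv
        push_cast
        rw [h4]
        ring
  · obtain ⟨N, hN⟩ := hE.noncomm _ ha
    refine ⟨0, N, hN.1, fun μ' D' _ hD' => Or.inr (Or.inr ⟨e i, N, hN, by rwa [one_mul], ?_⟩)⟩
    have h1 : 1 < (I.filter fun k => e k = e i).card :=
      Finset.one_lt_card.mpr ⟨i, Finset.mem_filter.mpr ⟨hi, rfl⟩, j,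
        Finset.mem_filter.mpr ⟨hj, hej.symm⟩, hij⟩
    omega

/-- If `D` kills, all multiples of `D` kill. -/
lemma KillsProd.mono {m : UFun.{u, z}} {κ : Type u} [Field κ] {l : ℕ}
    {E : Fin l → WeierstrassCurve κ} {k : Type u} [Field k] [Algebra κ k] {ι : Type}
    {e : ι → Fin l} {D D' : ℕ} (h : KillsProd m E k e D) (hD : D ∣ D') :
    KillsProd m E k e D' := by
  obtain ⟨b, rfl⟩ := hD
  intro R _ _ _ _ x y hxy ξ hξ
  rw [mul_comm, mul_smul, h R x y hxy ξ hξ, smul_zero]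

/-- The main theorem without explicit numbers. -/
theorem clean_kill {κ L M : Type u} [Field κ] [Fintype κ] [Field L] [Field M]
    [Algebra κ M] [Algebra L M] {l n : ℕ}
    {E : Fin l → WeierstrassCurve κ} {a : Fin l → ℤ} (hE : AreCurves.{u} (Fintype.card κ) E a)
    {s : ℕ} (u : Fin s → M) (hu : AlgebraicIndependent L u)
    [FiniteDimensional (IntermediateField.adjoin L (Set.range u)) M]
    (K : IntermediateField κ M) (e : Fin n → Fin l) (x y : Fin n → M)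
    (hxy : ∀ i, ((E (e i))⁄M).toAffine.Nonsingular (x i) (y i))
    (hx : AlgebraicIndependent K x)
    (hM : IntermediateField.adjoin K (Set.range x ∪ Set.range y) = ⊤)
    (G : Subgroup (M ≃ₐ[κ] M)) [Finite G]
    (hL : ∀ g ∈ G, ∀ z : L, g (algebraMap L M z) = algebraMap L M z)
    (ρ : G → Equiv.Perm (Fin n)) (ε : G → Fin n → ℤˣ)
    (hG : ∀ g : G, IsAff E K e x y (ρ g) (ε g) (g : M ≃ₐ[κ] M)) {w D : ℕ} (hw : 0 < w)
    (hD : 0 < D) :
    ∃ N : ℕ, 0 < N ∧ ∀ A : UFun.{u, z}, A.HasWeight κ (Fintype.card κ) w →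
      (∀ I : Finset (Fin n), IsSettled (Fintype.card κ) E a K e G ρ ε I ∨
        KillsProd A E (fixI K G ρ ε I) (fun i : {i // i ∈ I} => e i) D) →
      ∀ ξ ∈ A.nr L, N • ξ = 0 := by
  have hEll : ∀ c, EllW (E c) := fun c => by
    have := hE.ell c
    exact ellW_of (hE.coeff_one c) (hE.coeff_three c) hE.two
  have hac : ∀ c, ((a c : ℤ) : ℂ) = (Fintype.card κ : ℂ) -
      npt (E c).a₂ (E c).a₄ (E c).a₆ := by
    intro c
    rw [hE.trace, card_eq_npt (E c) (hE.coeff_one c) (hE.coeff_three c)]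
    push_cast
    rfl
  have hroot : ∀ c, ∃ π : ℂ, π ^ 2 - a c * π + (Fintype.card κ : ℂ) = 0 := by
    intro c
    obtain ⟨z, hz⟩ := IsAlgClosed.exists_pow_nat_eq ((a c : ℂ) ^ 2 - 4 * (Fintype.card κ : ℂ))
      (n := 2) (by norm_num)
    refine ⟨(a c + z) / 2, ?_⟩
    linear_combination (1 / 4 : ℂ) * hz
  choose π hπ using hroot
  have heig : ∀ c, π c + starRingEnd ℂ (π c) = (Fintype.card κ : ℂ) -
      npt (E c).a₂ (E c).a₄ (E c).a₆ ∧
      π c * starRingEnd ℂ (π c) = (Fintype.card κ : ℂ) := by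
    intro c
    apply eigen_facts
    rw [← hac]
    exact hπ c
  have hgood : ∀ I : Finset (Fin n), ∃ μ D' : ℕ, 0 < D' ∧ D ∣ D' ∧
      (IsSettled (Fintype.card κ) E a K e G ρ ε I → ∀ μ₁ D₁ : ℕ, μ ≤ μ₁ → D' ∣ D₁ →
        Good E K e G ρ ε (Fintype.card κ) w π μ₁ D₁ I) := by
    intro I
    by_cases H : IsSettled (Fintype.card κ) E a K e G ρ ε I
    · obtain ⟨μ, D', hD', h⟩ := exists_good (w := w) hE
        (fun c => by rw [(heig c).1, hac]) (fun c => (heig c).2) hw Fintype.one_lt_card H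
      exact ⟨μ, D * D', Nat.mul_pos hD hD', Dvd.intro _ rfl, fun _ μ₁ D₁ h1 h2 =>
        h μ₁ D₁ h1 ((Dvd.intro_left _ rfl).trans h2)⟩
    · exact ⟨0, D, hD, dvd_refl _, fun h => absurd h H⟩
  choose μ D' hD' hDD' hgd using hgood
  obtain ⟨μ₁, hμ₁⟩ : ∃ μ₁ : ℕ, ∀ I, μ I ≤ μ₁ :=
    ⟨∑ I, μ I, fun I => Finset.single_le_sum (fun _ _ => Nat.zero_le _) (Finset.mem_univ I)⟩
  obtain ⟨D₁, hD₁⟩ : ∃ D₁ : ℕ, D₁ = ∏ I, D' I := ⟨_, rfl⟩
  have hD₁0 : 0 < D₁ := by rw [hD₁]; exact Finset.prod_pos fun I _ => hD' I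
  have hdiv : ∀ I, D' I ∣ D₁ := fun I => by
    rw [hD₁]; exact Finset.dvd_prod_of_mem D' (Finset.mem_univ I)
  have hcardG : 0 < Nat.card G := Nat.card_pos
  refine ⟨2 ^ (3 * (n + μ₁ + 5) ^ 2) * Nat.card G ^ (2 * n + 3) * D₁ *
    Module.finrank (IntermediateField.adjoin L (Set.range u)) M, ?_, ?_⟩
  · have h1 : 0 < Module.finrank (IntermediateField.adjoin L (Set.range u)) M :=
      Module.finrank_pos
    positivity
  · intro A hA H ξ hξ
    refine final_kill hE.two (fun c => (heig c).1) (fun c => (heig c).2) u hu K e x y hxy hx hM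
      G hL ρ ε hG A (fun I => ?_) hA hξ
    rcases H I with h | h
    · exact Or.inl (hgd I h μ₁ D₁ (hμ₁ I) (hdiv I))
    · exact Or.inr (h.mono ((hDD' I).trans (hdiv I)))

end UnrA
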