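import Pool.Agent.Lib.MP_859dd5_ag.EQ.Aff5
import Pool.Agent.Lib.MP_859dd5_ag.Mg.G027
import Pool.Agent.Lib.MP_859dd5_ag.Mg.G030

/-!
# Auxiliary statements for the main theorem
-/

namespace UnrA

universe u v w z

open Polynomial WeierstrassCurve
open scoped Classical
open UnrH3 (Pt ptX ptY ptMap Gen InCl cl subset_cl adj le_adj subset_adj adj_le IndFam IndSet
  exists_factor)
open UnrH3.Ell (EllW OnW Fam crv npt pick)

variable {m : UFun.{u, z}}

/-- The kernel of the restriction to a finite extension of a purely transcendental extension. -/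
theorem rat_fin_ker {L M : Type u} [Field L] [Field M] [Algebra L M] {s : ℕ} {u : Fin s → M}
    (hu : AlgebraicIndependent L u)
    [FiniteDimensional (IntermediateField.adjoin L (Set.range u)) M]
    {x : KM m L} (hx : KM.map m (algebraMap L M) x = 0) :
    Module.finrank (IntermediateField.adjoin L (Set.range u)) M • x = 0 := by
  obtain ⟨d, hd⟩ : ∃ d, d = Module.finrank (IntermediateField.adjoin L (Set.range u)) M :=
    ⟨_, rfl⟩
  rw [← hd]
  have h1 : d • KM.map m (algebraMap L (IntermediateField.adjoin L (Set.range u))) x = 0 := by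
    refine finrank_smul_eq_zero d hd.symm ?_
    rw [KM.map_map]
    exact hx
  rw [← map_nsmul] at h1
  obtain ⟨c, hc⟩ : ∃ c : IntermediateField.adjoin L (Set.range u) →+*
      adj (algebraMap L M).fieldRange (Set.range u), ∀ z, (c z : M) = z := by
    refine ⟨(IntermediateField.adjoin L (Set.range u)).val.toRingHom.codRestrict _ fun z => ?_,
      fun _ => rfl⟩
    have h3 : (IntermediateField.adjoin L (Set.range u)).toSubfield ≤
        adj (algebraMap L M).fieldRange (Set.range u) := by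
      apply IntermediateField.adjoin_le_subfield
      · rintro _ ⟨y, rfl⟩
        exact le_adj _ _ ⟨y, rfl⟩
      · exact subset_adj _ _
    exact h3 z.2
  obtain ⟨ι, hι⟩ : ∃ ι : L ≃+* (algebraMap L M).fieldRange, ∀ z, (ι z : M) = algebraMap L M z :=
    ⟨RingEquiv.ofBijective (algebraMap L M).rangeRestrictField
      ⟨(algebraMap L M).rangeRestrictField.injective,
        (algebraMap L M).rangeRestrictField_bijective.2⟩, fun _ => rfl⟩
  have h2 := congrArg (KM.map m c) h1
  rw [KM.map_map, map_zero] at h2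
  have h3 : c.comp (algebraMap L (IntermediateField.adjoin L (Set.range u))) =
      (Subfield.inclusion (le_adj (algebraMap L M).fieldRange (Set.range u))).comp
        (ι : L →+* (algebraMap L M).fieldRange) := by
    ext z
    change (c _ : M) = (ι z : M)
    rw [hc, hι]
    rfl
  rw [h3, ← KM.map_map] at h2
  have h4 := rat_injective (Set.finite_range u) (UnrH3.indFam_of_algInd hu).indSet_range rfl _ h2
  have h5 := congrArg (KM.map m (ι.symm : (algebraMap L M).fieldRange →+* L)) h4
  rw [KM.map_map, map_zero] at h5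
  have h6 : (ι.symm : (algebraMap L M).fieldRange →+* L).comp
      (ι : L →+* (algebraMap L M).fieldRange) = RingHom.id L := by
    ext z
    simp
  rw [h6, KM.map_id, AddMonoidHom.id_apply] at h5
  exact h5

section val

variable {l n μ q w : ℕ} {π : Fin l → ℂ} {e : Fin n → Fin l} {I : Finset (Fin n)}
  {e' : Fin μ → Fin l} {J : Finset (Fin μ)}

/-- The numbers are not zero for reasons of weight. -/
theorem eigVal_ne_weight (hq : 1 < q) (hπ : ∀ c, π c * starRingEnd ℂ (π c) = q)
    (h : I.card + J.card ≠ 2 * w) : eigVal q w π e I e' J ≠ 0 := by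
  unfold eigVal
  rw [Finset.prod_ne_zero_iff]
  intro S _ h0
  rw [sub_eq_zero] at h0
  have hz : ∀ c, (if c ∈ S then π c else starRingEnd ℂ (π c)) *
      starRingEnd ℂ (if c ∈ S then π c else starRingEnd ℂ (π c)) = q := by
    intro c
    split_ifs
    · exact hπ c
    · rw [Complex.conj_conj, mul_comm]; exact hπ c
  have h1 := congrArg (fun z => z * starRingEnd ℂ z) h0
  simp only [map_pow, map_natCast, map_mul, map_prod] at h1
  have h2 : (∏ i ∈ I, if e i ∈ S then π (e i) else starRingEnd ℂ (π (e i))) *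
      (∏ j ∈ J, if e' j ∈ S then π (e' j) else starRingEnd ℂ (π (e' j))) *
      ((∏ i ∈ I, starRingEnd ℂ (if e i ∈ S then π (e i) else starRingEnd ℂ (π (e i)))) *
      ∏ j ∈ J, starRingEnd ℂ (if e' j ∈ S then π (e' j) else starRingEnd ℂ (π (e' j)))) =
      (q : ℂ) ^ (I.card + J.card) := by
    rw [mul_mul_mul_comm, ← Finset.prod_mul_distrib, ← Finset.prod_mul_distrib,
      Finset.prod_congr rfl fun i _ => hz (e i), Finset.prod_congr rfl fun j _ => hz (e' j),
      Finset.prod_const, Finset.prod_const, pow_add]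
  rw [h2, ← pow_add, ← two_mul] at h1
  have h3 : q ^ (2 * w) = q ^ (I.card + J.card) := by exact_mod_cast h1
  exact h (Nat.pow_right_injective hq h3).symm

/-- The numbers are not zero if the curves are not isogenous and one of the curves which occur is
not supersingular. -/
theorem eigVal_ne_rel {a : Fin l → ℤ} (hq : q ≠ 0)
    (hz1 : ∀ c, π c + starRingEnd ℂ (π c) = a c)
    (hz2 : ∀ c, π c * starRingEnd ℂ (π c) = q)
    (hα : ∀ c c', c ≠ c' → IsSquare ((a c ^ 2 - 4 * q) * (a c' ^ 2 - 4 * q)) →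
        (a c ^ 2 - 4 * q) * (a c' ^ 2 - 4 * q) = 0)
    (hβ : ∀ c, ∀ r : ℕ, r < 4 → a c ^ 2 ≠ r * q) {c₀ : Fin l} (hc₀ : a c₀ ^ 2 ≠ 4 * q)
    (hmem : (∃ i ∈ I, e i = c₀) ∨ ∃ j ∈ J, e' j = c₀) :
    eigVal q w π e I e' J ≠ 0 := by
  unfold eigVal
  rw [Finset.prod_ne_zero_iff]
  intro S _ h0
  rw [sub_eq_zero] at h0
  obtain ⟨z, hz⟩ : ∃ z : Fin l → ℂ, z = fun c => if c ∈ S then π c else starRingEnd ℂ (π c) :=
    ⟨_, rfl⟩
  have hz' : ∀ c, z c + starRingEnd ℂ (z c) = a c ∧ z c * starRingEnd ℂ (z c) = (q : ℤ) := by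
    intro c
    rw [hz]
    simp only
    split_ifs
    · exact ⟨hz1 c, by rw [hz2 c]; push_cast; rfl⟩
    · rw [Complex.conj_conj]
      exact ⟨by rw [add_comm]; exact hz1 c, by rw [mul_comm, hz2 c]; push_cast; rfl⟩
  have hprod : ∀ {k : ℕ} (s : Finset (Fin k)) (f : Fin k → Fin l),
      ∏ i ∈ s, z (f i) = ∏ c, z c ^ (s.filter fun i => f i = c).card := by
    intro k s f
    rw [← Finset.prod_fiberwise s f]
    refine Finset.prod_congr rfl fun c _ => ?_
    rw [Finset.prod_congr rfl fun i hi => by rw [(Finset.mem_filter.mp hi).2], Finset.prod_const]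
  refine prod_ne_pow (z := z) (a := a) (q := (q : ℤ)) (fun c => (hz' c).1) (fun c => (hz' c).2)
    (by omega) hα hβ (n := fun c => (I.filter fun i => e i = c).card +
      (J.filter fun j => e' j = c).card) hc₀ ?_ w ?_
  · rcases hmem with ⟨i, hi, hic⟩ | ⟨j, hj, hjc⟩
    · have h1 : 0 < (I.filter fun i => e i = c₀).card :=
        Finset.card_pos.mpr ⟨i, Finset.mem_filter.mpr ⟨hi, hic⟩⟩
      omega
    · have h1 : 0 < (J.filter fun j => e' j = c₀).card :=
        Finset.card_pos.mpr ⟨j, Finset.mem_filter.mpr ⟨hj, hjc⟩⟩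
      omega
  · rw [Finset.prod_congr rfl fun c _ => pow_add (z c) _ _, Finset.prod_mul_distrib, ← hprod,
      ← hprod, hz]
    push_cast
    exact h0.symm

end val

section curve

variable {κ : Type u} [Field κ] [Fintype κ]

omit [Fintype κ] in
/-- The class of elliptic curves used. -/
lemma ellW_of {W : WeierstrassCurve κ} [W.IsElliptic] (h1 : W.a₁ = 0) (h3 : W.a₃ = 0)
    (h2 : (2 : κ) ≠ 0) : EllW W where
  a1 := h1
  a3 := h3
  two := h2
  disc := by
    intro h
    have h4 : W.Δ = 16 * (W.a₂ ^ 2 * W.a₄ ^ 2 - 4 * W.a₄ ^ 3 - 4 * W.a₂ ^ 3 * W.a₆ +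
        18 * W.a₂ * W.a₄ * W.a₆ - 27 * W.a₆ ^ 2) := by
      rw [WeierstrassCurve.Δ, WeierstrassCurve.b₂, WeierstrassCurve.b₄, WeierstrassCurve.b₆,
        WeierstrassCurve.b₈, h1, h3]
      ring
    rw [h, mul_zero] at h4
    exact W.isUnit_Δ.ne_zero h4

lemma card_eq_npt (W : WeierstrassCurve κ) (h1 : W.a₁ = 0) (h3 : W.a₃ = 0) :
    Nat.card {P : κ × κ // W.toAffine.Equation P.1 P.2} = npt W.a₂ W.a₄ W.a₆ := by
  rw [Nat.card_eq_fintype_card, Fintype.card_subtype]
  unfold npt
  congr 1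
  apply Finset.filter_congr
  intro P _
  rw [Affine.equation_iff, h1, h3]
  simp only [zero_mul, add_zero]

/-- The eigenvalues of the Frobenius. -/
lemma eigen_facts {W : WeierstrassCurve κ} [EllW W] {π : ℂ}
    (hπ : π ^ 2 - ((Fintype.card κ : ℂ) - npt W.a₂ W.a₄ W.a₆) * π + (Fintype.card κ : ℂ) = 0) :
    π + starRingEnd ℂ π = (Fintype.card κ : ℂ) - npt W.a₂ W.a₄ W.a₆ ∧
      π * starRingEnd ℂ π = (Fintype.card κ : ℂ) := by
  have hE : EllW W := inferInstance
  have h1 := UnrH3.Ell.hasse_bound hE.two hE.disc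
  have h4 := UnrH3.Ell.eigen (q := (Fintype.card κ : ℤ)) h1 (z := π) (by push_cast; exact hπ)
  refine ⟨?_, ?_⟩
  · rw [h4.1]; push_cast; rfl
  · rw [h4.2]; push_cast; rfl

end curve

end UnrA
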