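import Pool.Agent.Lib.MP_859dd5_ag.EQ.Aff6
import Pool.Agent.Lib.MP_859dd5_ag.EQ.Fin1

/-!
# The main theorem for a functor with unramified classes
-/

namespace UnrA

universe u v w z

open Polynomial WeierstrassCurve
open scoped Classical
open UnrH3.Ell (EllW npt)

/-- Unramified classes of the field `L` are killed by an explicit number. -/
theorem final_kill {κ L M : Type u} [Field κ] [Fintype κ] [Field L] [Field M]
    [Algebra κ M] [Algebra L M] (h2 : (2 : κ) ≠ 0) {l n : ℕ}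
    {E : Fin l → WeierstrassCurve κ} [hEll : ∀ c, EllW (E c)] {π : Fin l → ℂ}
    (hsum : ∀ c, π c + starRingEnd ℂ (π c) =
      (Fintype.card κ : ℂ) - npt (E c).a₂ (E c).a₄ (E c).a₆)
    (hprod : ∀ c, π c * starRingEnd ℂ (π c) = (Fintype.card κ : ℂ))
    {s : ℕ} (u : Fin s → M) (hu : AlgebraicIndependent L u)
    [FiniteDimensional (IntermediateField.adjoin L (Set.range u)) M]
    (K : IntermediateField κ M) (e : Fin n → Fin l) (x y : Fin n → M)
    (hxy : ∀ i, ((E (e i))⁄M).toAffine.Nonsingular (x i) (y i))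
    (hx : AlgebraicIndependent K x)
    (hM : IntermediateField.adjoin K (Set.range x ∪ Set.range y) = ⊤)
    (G : Subgroup (M ≃ₐ[κ] M)) [Finite G]
    (hL : ∀ g ∈ G, ∀ z : L, g (algebraMap L M z) = algebraMap L M z)
    (ρ : G → Equiv.Perm (Fin n)) (ε : G → Fin n → ℤˣ)
    (hG : ∀ g : G, IsAff E K e x y (ρ g) (ε g) (g : M ≃ₐ[κ] M)) {w μ D : ℕ}
    (A : UFun.{u, z}) (H : ∀ I : Finset (Fin n), Good E K e G ρ ε (Fintype.card κ) w π μ D I ∨
      KillsProd A E (fixI K G ρ ε I) (fun i : {i // i ∈ I} => e i) D)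
    (hA : A.HasWeight κ (Fintype.card κ) w) {ξ : A.obj L} (hξ : ξ ∈ A.nr L) :
    (2 ^ (3 * (n + μ + 5) ^ 2) * Nat.card G ^ (2 * n + 3) * D *
      Module.finrank (IntermediateField.adjoin L (Set.range u)) M) • ξ = 0 := by
  have hu' : Unr (m := A) ξ := hξ
  have hinv : ∀ g : G, KM.map A ((g : M ≃ₐ[κ] M) : M →+* M) (KM.map A (algebraMap L M) ξ) =
      KM.map A (algebraMap L M) ξ := by
    intro g
    rw [KM.map_map]
    congr 2
    ext z
    exact hL g g.2 z
  have h1 := aff_kill G ρ ε hG h2 hxy hx hM hsum hprod hA H (hu'.map (algebraMap L M)) hinv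
  rw [← map_nsmul] at h1
  have h3 := rat_fin_ker hu h1
  rw [mul_comm, mul_smul]
  exact h3

end UnrA
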