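import Pool.Agent.Lib.MP_859dd5_ag.EQ.Fin3
import Pool.Agent.Lib.MP_859dd5_ag.EQ.Fin2

/-!
# Definitions for the statement of the main theorem
-/

namespace UnrA

universe u v w z

open Polynomial WeierstrassCurve
open scoped Classical

/-- The curves `E c` are elliptic curves `y ^ 2 = x ^ 3 + …` over the field `κ` with `q` elements,
`q` odd, with traces `a c` and eigenvalues `π c` of the Frobenius. -/
structure IsCurves {κ : Type u} [Field κ] {l : ℕ} (q : ℕ) (E : Fin l → WeierstrassCurve κ)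
    (a : Fin l → ℤ) (π : Fin l → ℂ) : Prop where
  card : Nat.card κ = q
  two : (2 : κ) ≠ 0
  ell : ∀ c, (E c).IsElliptic
  coeff_one : ∀ c, (E c).a₁ = 0
  coeff_three : ∀ c, (E c).a₃ = 0
  trace : ∀ c, a c = q - Nat.card {P : κ × κ // (E c).toAffine.Equation P.1 P.2}
  root : ∀ c, π c ^ 2 - a c * π c + q = 0

/-- The group `G` fixes `L`, preserves `K` and acts on the points by signed permutations and
translations. -/
structure IsAct {κ M : Type u} [Field κ] [Field M] [Algebra κ M] {l n : ℕ}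
    (E : Fin l → WeierstrassCurve κ) (K : IntermediateField κ M) (e : Fin n → Fin l)
    (x y : Fin n → M) (L : Type u) [Field L] [Algebra L M] (G : Subgroup (M ≃ₐ[κ] M))
    (ρ : G → Equiv.Perm (Fin n)) (ε : G → Fin n → ℤˣ) : Prop where
  fix : ∀ g ∈ G, ∀ z : L, g (algebraMap L M z) = algebraMap L M z
  aff : ∀ g : G, IsAff E K e x y (ρ g) (ε g) (g : M ≃ₐ[κ] M)

/-- The squares of the traces are not `0, q, 2 q, 3 q`, and the curves which are not supersingular
give different imaginary quadratic fields. -/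
def IsGenericTraces {l : ℕ} (q : ℕ) (a : Fin l → ℤ) : Prop :=
  (∀ c, ∀ r : ℕ, r < 4 → a c ^ 2 ≠ r * q) ∧
    ∀ c c', c ≠ c' → IsSquare ((a c ^ 2 - 4 * q) * (a c' ^ 2 - 4 * q)) →
      (a c ^ 2 - 4 * q) * (a c' ^ 2 - 4 * q) = 0

end UnrA
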